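import Pool.Agent.Helper65.TH.Basic

/-!
TH-14. Asymptotic dimension of subgroups, and covers of the whole group by cosets.

Proof. `of_injective`: given a finite `F ⊆ H`, apply `h` with `F.image f`: `E`, `A`; take
`{y | f y ∈ E}` (`Finset.preimage`) and `{x | f x ∈ A i}`; chains are mapped by `f` (`Chain.map`).
`locAsdim`: inclusion of the subgroup. `LocAsdim.of_injective`: for a finitely generated `K ≤ H` the
subgroup `K.map f` is finitely generated and `K` embeds into it. `asdimLT_of_finite`: `E = univ`,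
`A 0 = univ`. `AsdimLT.lift`: left cosets of `Λ`, `part x = (out (x Λ))⁻¹ * x ∈ Λ` (cf.
`Pool/Agent/Helper61/Apc/Criterion.lean`, section lift); `A i = {x | part x ∈ A₀ i}`, `E` the
image of `E₀`; `part (x * s) = part x * s` for `s ∈ Λ`; chains with steps in `F ⊆ Λ` are mapped to chains
by `part`, and `(part x)⁻¹ * part y = x⁻¹ * y` if `x⁻¹ * y ∈ Λ`.
-/

set_option autoImplicit false

namespace Pool.Agent.Helper65.TH

theorem AsdimLT.of_injective {G H : Type*} [Group G] [Group H] {t : ℕ} (h : AsdimLT G t)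
    (f : H →* G) (hf : Function.Injective f) : AsdimLT H t := by
  classical
  intro F
  obtain ⟨E, A, hA, hE⟩ := h (F.image f)
  refine ⟨E.preimage f hf.injOn, fun i => {x | f x ∈ A i}, fun x => hA (f x), ?_⟩
  intro i x hx y hxy
  rw [Finset.mem_preimage, map_mul, map_inv]
  apply hE i (f x) hx (f y)
  refine hxy.map f ?_
  intro a b hab hb
  refine ⟨?_, hb⟩
  rw [← map_inv, ← map_mul]
  exact Finset.mem_coe.2 (Finset.mem_image_of_mem f (Finset.mem_coe.1 hab))

theorem AsdimLT.locAsdim {G : Type*} [Group G] {t : ℕ} (h : AsdimLT G t) : LocAsdim G :=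
  fun H _ => ⟨t, h.of_injective H.subtype H.subtype_injective⟩

theorem LocAsdim.of_injective {G H : Type*} [Group G] [Group H] (h : LocAsdim G)
    (f : H →* G) (hf : Function.Injective f) : LocAsdim H := by
  intro K hK
  have hKf : (K.map f).FG := by
    obtain ⟨S, hS⟩ := hK
    classical
    refine ⟨S.image f, ?_⟩
    rw [Finset.coe_image, ← MonoidHom.map_closure, hS]
  obtain ⟨t, ht⟩ := h (K.map f) hKf
  refine ⟨t, ht.of_injective (f.subgroupMap K) ?_⟩
  intro a b hab
  apply Subtype.ext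
  apply hf
  exact congrArg Subtype.val hab

theorem asdimLT_of_finite (G : Type*) [Group G] (h : Finite G) : AsdimLT G 1 := by
  classical
  have := Fintype.ofFinite G
  intro F
  exact ⟨Finset.univ, fun _ => Set.univ, fun x => ⟨0, Set.mem_univ x⟩,
    fun _ _ _ _ _ => Finset.mem_univ _⟩

theorem AsdimLT.lift {G : Type*} [Group G] (Λ : Subgroup G) {t : ℕ} (h : AsdimLT Λ t)
    (F : Finset G) (hF : ∀ s ∈ F, s ∈ Λ) :
    ∃ (E : Finset G) (A : Fin t → Set G), (∀ x, ∃ i, x ∈ A i) ∧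
      ∀ i, ∀ x ∈ A i, ∀ y, Chain (F : Set G) (fun b => b ∈ A i) x y → x⁻¹ * y ∈ E := by
  classical
  have hp : ∀ x : G, (QuotientGroup.mk x : G ⧸ Λ).out⁻¹ * x ∈ Λ := by
    intro x
    rw [← QuotientGroup.eq]
    exact QuotientGroup.out_eq' _
  obtain ⟨E₀, A₀, hA, hE⟩ := h (F.subtype (fun s => s ∈ Λ))
  let part : G → Λ := fun x => ⟨(QuotientGroup.mk x : G ⧸ Λ).out⁻¹ * x, hp x⟩
  have hpart : ∀ x y : G, x⁻¹ * y ∈ Λ → (((part x)⁻¹ * part y : Λ) : G) = x⁻¹ * y := by
    intro x y hxy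
    have h1 : (QuotientGroup.mk x : G ⧸ Λ) = QuotientGroup.mk y := QuotientGroup.eq.2 hxy
    change ((QuotientGroup.mk x : G ⧸ Λ).out⁻¹ * x)⁻¹ * ((QuotientGroup.mk y : G ⧸ Λ).out⁻¹ * y) = _
    rw [h1]
    group
  refine ⟨E₀.image Subtype.val, fun i => {x | part x ∈ A₀ i}, fun x => hA (part x), ?_⟩
  intro i x hx y hxy
  have hmem : x⁻¹ * y ∈ Λ := hxy.mem_subgroup Λ (fun s hs => hF s hs)
  rw [← hpart x y hmem]
  apply Finset.mem_image_of_mem
  apply hE i (part x) hx (part y)
  refine hxy.map part ?_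
  intro a b hab hb
  refine ⟨?_, hb⟩
  rw [Finset.mem_coe, Finset.mem_subtype, hpart a b (hF _ hab)]
  exact hab

end Pool.Agent.Helper65.TH
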