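import Pool.Agent.Helper65.TH.Basic
import Pool.Agent.Helper75.Apc.Defs

/-!
TH-19. From chains to families.

Proof. Exactly the end of the proof of `hasFamilies_of_uniform` in
`Pool/Agent/Helper61/Apc/Criterion.lean` (copy it; there `Helper75.Apc.Step (A i) (P i)` and
`comp (A i) (P i) x` are used, here the component of `x` is
`comp x = {y | Chain (P i) (fun b => b ∈ A i) x y}`, for `x ∈ A i`, `P i` symmetric).
First theorem: let `T` be the ball of radius `max r 0 + 1` (a finite symmetric set), `n` from `hcore T`;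
given `R` let `S` be the ball of radius `max (R n + 1) (max r 0 + 1)`; `A`, `E` from `hcore`. `P 0 = T`,
`P j = S` for `j ≥ 1`. `U j` = the set of the components of the points of `A j`. Bounded:
`dist x y = dist 1 (x⁻¹ * y)`, `x⁻¹ * y ∈ E`. Disjoint with `δ = R j + 1`: if `x`, `y` are in two
components and `dist x y < R j + 1` then `x⁻¹ * y ∈ P j`, so the components are equal.
Second theorem: `H` with the restricted metric; `F` = the elements of `H` in the ball of radius
`max r 0 + 1`; the components of the `A i` for `P = F`.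
-/

set_option autoImplicit false

namespace Pool.Agent.Helper65.TH

open Pool.Agent.Helper75.Apc (HasFamilies)

/-- the component of `x` -/
def famComp {G : Type*} [Group G] (F : Set G) (A : Set G) (x : G) : Set G :=
  {y | Chain F (fun b => b ∈ A) x y}

theorem famComp_subset {G : Type*} [Group G] {F : Set G} {A : Set G} {x y : G} (hx : x ∈ A)
    (hy : y ∈ famComp F A x) : y ∈ A :=
  Chain.last (P := fun b => b ∈ A) hx hy

theorem famComp_symm {G : Type*} [Group G] {F : Set G} {A : Set G} (hF : ∀ s ∈ F, s⁻¹ ∈ F)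
    {x y z : G} (hz : z ∈ A) (hx : x ∈ famComp F A z) (hy : y ∈ famComp F A z) :
    Chain F (fun b => b ∈ A) x y :=
  (Chain.symm (P := fun b => b ∈ A) hF hz hx).trans hy

theorem famComp_eq {G : Type*} [Group G] {F : Set G} {A : Set G} (hF : ∀ s ∈ F, s⁻¹ ∈ F)
    {x y z z' : G} (hz : z ∈ A) (hz' : z' ∈ A) (hx : x ∈ famComp F A z)
    (hy : y ∈ famComp F A z') (hxy : x⁻¹ * y ∈ F) : famComp F A z = famComp F A z' := by
  have hyA : y ∈ A := famComp_subset hz' hy
  have h1 : Chain F (fun b => b ∈ A) z y := Chain.step hx hxy hyA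
  have h2 : Chain F (fun b => b ∈ A) z z' :=
    h1.trans (Chain.symm (P := fun b => b ∈ A) hF hz' hy)
  have h3 : Chain F (fun b => b ∈ A) z' z := Chain.symm (P := fun b => b ∈ A) hF hz h2
  ext w
  exact ⟨fun hw => h3.trans hw, fun hw => h2.trans hw⟩


theorem hasFamilies_of_core {G : Type*} [Group G] [MetricSpace G]
    (hinv : ∀ a b c : G, dist (a * b) (a * c) = dist b c)
    (hprop : ∀ r : ℝ, (Metric.closedBall (1 : G) r).Finite)
    (hcore : ∀ T : Finset G, (∀ s ∈ T, s⁻¹ ∈ T) → ∃ n : ℕ, ∀ S : Finset G, T ⊆ S →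
      (∀ s ∈ S, s⁻¹ ∈ S) → ∃ (A : ℕ → Set G) (E : Finset G), (∀ x, ∃ j < n, x ∈ A j) ∧
      (∀ x ∈ A 0, ∀ y, Chain (T : Set G) (fun b => b ∈ A 0) x y → x⁻¹ * y ∈ E) ∧
      ∀ j, 1 ≤ j → j < n → ∀ x ∈ A j, ∀ y,
        Chain (S : Set G) (fun b => b ∈ A j) x y → x⁻¹ * y ∈ E) (r : ℝ) :
    ∃ n : ℕ, ∀ R : ℕ → ℝ, (∀ i, 0 < R i) → Monotone R → R 0 ≤ r → HasFamilies G R n := by
  classical
  set T : Finset G := (hprop (max r 0 + 1)).toFinset with hTdef
  have hsymm : ∀ ρ : ℝ, ∀ s ∈ (hprop ρ).toFinset, s⁻¹ ∈ (hprop ρ).toFinset := by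
    intro ρ s hs
    rw [Set.Finite.mem_toFinset, Metric.mem_closedBall] at hs ⊢
    have := hinv s s⁻¹ 1
    rw [mul_inv_cancel, mul_one] at this
    rw [← this, dist_comm]
    exact hs
  obtain ⟨t, ht⟩ := hcore T (hsymm _)
  refine ⟨t, fun R hpos hmono hr => ?_⟩
  set ρS : ℝ := max (R t + 1) (max r 0 + 1) with hρS
  set S : Finset G := (hprop ρS).toFinset with hSdef
  have hTS : T ⊆ S := by
    intro s hs
    rw [hTdef, Set.Finite.mem_toFinset, Metric.mem_closedBall] at hs
    rw [hSdef, Set.Finite.mem_toFinset, Metric.mem_closedBall]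
    exact hs.trans (le_max_right _ _)
  obtain ⟨A, F, hcov, h0, hj⟩ := ht S hTS (hsymm _)
  let P : ℕ → Finset G := fun i => if i = 0 then T else S
  have hPsymm : ∀ i, ∀ s ∈ (P i : Set G), s⁻¹ ∈ (P i : Set G) := by
    intro i s hs
    rw [Finset.mem_coe] at hs ⊢
    by_cases hi : i = 0
    · simp only [P, hi, if_true] at hs ⊢; exact hsymm _ _ hs
    · simp only [P, hi, if_false] at hs ⊢; exact hsymm _ _ hs
  have hbd : ∀ i, i < t → ∀ x y, x ∈ A i →
      Chain (P i : Set G) (fun b => b ∈ A i) x y → x⁻¹ * y ∈ F := by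
    intro i hi x y hx hxy
    by_cases hi0 : i = 0
    · subst hi0
      exact h0 x hx y hxy
    · refine hj i (by omega) hi x hx y ?_
      have : P i = S := by simp only [P, hi0, if_false]
      rw [this] at hxy
      exact hxy
  have hdist : ∀ x y : G, dist x y = dist 1 (x⁻¹ * y) := by
    intro x y
    have := hinv x⁻¹ x y
    rw [inv_mul_cancel] at this
    exact this.symm
  refine ⟨fun i => {B | ∃ x ∈ A i, B = famComp (P i : Set G) (A i) x}, ?_, ?_, ?_⟩
  · intro i
    refine ⟨∑ g ∈ F, dist 1 g, ?_⟩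
    rintro B ⟨z, hz, rfl⟩ x hx y hy
    have hxA : x ∈ A i := famComp_subset hz hx
    have hmem := hbd i i.2 x y hxA (famComp_symm (hPsymm i) hz hx hy)
    rw [hdist]
    exact Finset.single_le_sum (f := fun g => dist (1 : G) g) (fun _ _ => dist_nonneg) hmem
  · rintro i B ⟨z, hz, rfl⟩ B' ⟨z', hz', rfl⟩ hne
    refine ⟨R i + 1, by linarith, ?_⟩
    intro x hx y hy
    by_contra hlt
    push Not at hlt
    apply hne
    refine famComp_eq (hPsymm i) hz hz' hx hy ?_
    rw [Finset.mem_coe]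
    rw [hdist, dist_comm] at hlt
    by_cases hi : (i : ℕ) = 0
    · simp only [P, hi, if_true]
      rw [hTdef, Set.Finite.mem_toFinset, Metric.mem_closedBall]
      rw [hi] at hlt
      have := le_max_left r 0
      linarith
    · simp only [P, hi, if_false]
      rw [hSdef, Set.Finite.mem_toFinset, Metric.mem_closedBall]
      have hid : (i : ℕ) ≤ t := i.2.le
      have := hmono hid
      have := le_max_left (R t + 1) (max r 0 + 1)
      linarith
  · intro x
    obtain ⟨j, hj', hx⟩ := hcov x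
    exact ⟨⟨j, hj'⟩, famComp (P j : Set G) (A j) x, ⟨x, hx, rfl⟩, Chain.refl _ _ _⟩

theorem hasFamilies_of_asdim {G : Type*} [Group G] [MetricSpace G]
    (hinv : ∀ a b c : G, dist (a * b) (a * c) = dist b c)
    (hprop : ∀ r : ℝ, (Metric.closedBall (1 : G) r).Finite) (H : Subgroup G) (t : ℕ)
    (h : AsdimLT H t) (r : ℝ) : HasFamilies H (fun _ => r) t := by
  classical
  have hfin : {h : H | dist (h : G) 1 ≤ max r 0 + 1}.Finite := by
    refine Set.Finite.of_finite_image (f := Subtype.val) ?_ Subtype.val_injective.injOn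
    refine (hprop (max r 0 + 1)).subset ?_
    rintro g ⟨h, hh, rfl⟩
    rw [Metric.mem_closedBall]
    exact hh
  set F : Finset H := hfin.toFinset with hFdef
  have hFsymm : ∀ s ∈ (F : Set H), s⁻¹ ∈ (F : Set H) := by
    intro s hs
    rw [Finset.mem_coe, hFdef, Set.Finite.mem_toFinset] at hs ⊢
    have hs' : dist (s : G) 1 ≤ max r 0 + 1 := hs
    change dist ((s⁻¹ : H) : G) 1 ≤ max r 0 + 1
    have h1 := hinv (s : G) ((s : G)⁻¹) 1
    rw [mul_inv_cancel, mul_one] at h1
    rw [Subgroup.coe_inv, ← h1, dist_comm]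
    exact hs'
  obtain ⟨E, A, hcov, hbd⟩ := h F
  have hdist : ∀ x y : H, dist x y = dist (1 : G) ((x⁻¹ * y : H) : G) := by
    intro x y
    have h1 := hinv (x : G)⁻¹ x y
    rw [inv_mul_cancel] at h1
    rw [Subtype.dist_eq, Subgroup.coe_mul, Subgroup.coe_inv]
    exact h1.symm
  refine ⟨fun i => {B | ∃ x ∈ A i, B = famComp (F : Set H) (A i) x}, ?_, ?_, ?_⟩
  · intro i
    refine ⟨∑ g ∈ E, dist (1 : G) (g : G), ?_⟩
    rintro B ⟨z, hz, rfl⟩ x hx y hy
    have hxA : x ∈ A i := famComp_subset hz hx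
    have hmem := hbd i x hxA y (famComp_symm hFsymm hz hx hy)
    rw [hdist]
    exact Finset.single_le_sum (f := fun g : H => dist (1 : G) (g : G))
      (fun _ _ => dist_nonneg) hmem
  · rintro i B ⟨z, hz, rfl⟩ B' ⟨z', hz', rfl⟩ hne
    refine ⟨max r 0 + 1, by have := le_max_left r 0; linarith, ?_⟩
    intro x hx y hy
    by_contra hlt
    push Not at hlt
    apply hne
    refine famComp_eq hFsymm hz hz' hx hy ?_
    rw [Finset.mem_coe, hFdef, Set.Finite.mem_toFinset]
    change dist ((x⁻¹ * y : H) : G) 1 ≤ max r 0 + 1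
    rw [hdist, dist_comm] at hlt
    exact hlt.le
  · intro x
    obtain ⟨j, hx⟩ := hcov x
    exact ⟨j, famComp (F : Set H) (A j) x, ⟨x, hx, rfl⟩, Chain.refl _ _ _⟩

end Pool.Agent.Helper65.TH
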