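import Pool.Agent.Helper65.TH.Bands
import Pool.Agent.Helper65.TH.Families

/-!
TH-20. The criterion for asymptotic property C.

Proof. First part: `hasFamilies_of_asdim`. Second part: `hasFamilies_of_core`, where for a finite `T`
the number is `n = N + 1` with `Thin (Subgroup.closure T) N` (`hthin`, as `Subgroup.closure T` is
finitely generated), and for `S ⊇ T` the sets come from `exists_bands` (with `t` from `hloc` for
`Subgroup.closure S`). For every `r : ℝ` choose the number `n r`; `hasFamilies_of_core` with `r = R 0`.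
-/

set_option autoImplicit false

namespace Pool.Agent.Helper65.TH

open Pool.Agent.Helper75.Apc (HasFamilies)

/-- all finitely generated subgroups of `G` have finite asymptotic dimension, and `G` has asymptotic
property C, the number of families depending on the first radius only -/
def Conclusion (G : Type*) [Group G] [MetricSpace G] : Prop :=
  (∀ H : Subgroup G, H.FG → ∃ t : ℕ, ∀ r : ℝ, HasFamilies H (fun _ => r) t) ∧
  ∃ n : ℝ → ℕ, ∀ R : ℕ → ℝ, (∀ i, 0 < R i) → Monotone R → HasFamilies G R (n (R 0))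

theorem conclusion_of_thin {G : Type*} [Group G] [MetricSpace G]
    (hinv : ∀ a b c : G, dist (a * b) (a * c) = dist b c)
    (hprop : ∀ r : ℝ, (Metric.closedBall (1 : G) r).Finite) (hloc : LocAsdim G)
    (hthin : ∀ H : Subgroup G, H.FG → ∃ N, Thin H N) : Conclusion G := by
  constructor
  · intro H hH
    obtain ⟨t, ht⟩ := hloc H hH
    exact ⟨t, fun r => hasFamilies_of_asdim hinv hprop H t ht r⟩
  · have hcore : ∀ T : Finset G, (∀ s ∈ T, s⁻¹ ∈ T) → ∃ n : ℕ, ∀ S : Finset G, T ⊆ S →
        (∀ s ∈ S, s⁻¹ ∈ S) → ∃ (A : ℕ → Set G) (E : Finset G), (∀ x, ∃ j < n, x ∈ A j) ∧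
        (∀ x ∈ A 0, ∀ y, Chain (T : Set G) (fun b => b ∈ A 0) x y → x⁻¹ * y ∈ E) ∧
        ∀ j, 1 ≤ j → j < n → ∀ x ∈ A j, ∀ y,
          Chain (S : Set G) (fun b => b ∈ A j) x y → x⁻¹ * y ∈ E := by
      intro T _
      obtain ⟨N, hN⟩ := hthin (Subgroup.closure (T : Set G)) ⟨T, rfl⟩
      refine ⟨N + 1, fun S hTS _ => ?_⟩
      obtain ⟨t, ht⟩ := hloc (Subgroup.closure (S : Set G)) ⟨S, rfl⟩
      exact exists_bands T N hN S hTS t ht
    choose n hn using fun r : ℝ => hasFamilies_of_core hinv hprop hcore r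
    exact ⟨n, fun R hR hmono => hn (R 0) R hR hmono le_rfl⟩

end Pool.Agent.Helper65.TH
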