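import Pool.Agent.Helper65.TH.Mono

/-!
TH-16. Thin groups have finite asymptotic dimension.

Proof. Given a finite `F`, take `g`, `E` from `h` with `F` and `ε = 1 / 2`. For `c : Fin k → Bool` let
`A c = {x | ∀ i, (⌊g x i⌋ is even) ↔ c i = true}` (e.g. `decide (Even ⌊g x i⌋) = c i`); these
`2 ^ k` sets cover the group (reindex by `Fin (2 ^ k) ≃ (Fin k → Bool)`, e.g.
`Fintype.equivFinOfCardEq`). Along a chain in `A c` with steps in `F` the floors of all coordinates
are constant: consecutive values differ by at most `1 / 2`, so their floors differ by at most `1`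
and have the same parity. Hence `|g b i - g x i| ≤ 1` along the chain and `x⁻¹ * y ∈ E`
(all steps are in `⊤`).
-/

set_option autoImplicit false

namespace Pool.Agent.Helper65.TH

theorem floor_eq_of_near {u v : ℝ} (h : |u - v| ≤ 1 / 2) (hp : Even ⌊u⌋ ↔ Even ⌊v⌋) : ⌊u⌋ = ⌊v⌋ := by
  have h0 := abs_le.1 h
  have h1 := Int.floor_le u
  have h2 := Int.lt_floor_add_one u
  have h3 := Int.floor_le v
  have h4 := Int.lt_floor_add_one v
  have h5 : (⌊u⌋ : ℝ) < (⌊v⌋ : ℝ) + 2 := by linarith
  have h6 : (⌊v⌋ : ℝ) < (⌊u⌋ : ℝ) + 2 := by linarith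
  have h7 : ⌊u⌋ < ⌊v⌋ + 2 := by exact_mod_cast h5
  have h8 : ⌊v⌋ < ⌊u⌋ + 2 := by exact_mod_cast h6
  rw [Int.even_iff, Int.even_iff] at hp
  omega

theorem asdim_of_thin {G : Type*} [Group G] {k : ℕ} (h : Thin (⊤ : Subgroup G) k) :
    AsdimLT G (2 ^ k) := by
  classical
  intro F
  obtain ⟨g, E, hg, hE⟩ := h F (1 / 2) (by norm_num)
  have hcard : Fintype.card (Fin k → Bool) = 2 ^ k := by
    rw [Fintype.card_fun, Fintype.card_bool, Fintype.card_fin]
  let e : (Fin k → Bool) ≃ Fin (2 ^ k) := Fintype.equivFinOfCardEq hcard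
  refine ⟨E, fun i => {x | ∀ j, decide (Even ⌊g x j⌋) = e.symm i j}, fun x => ?_, ?_⟩
  · refine ⟨e (fun j => decide (Even ⌊g x j⌋)), fun j => ?_⟩
    rw [Equiv.symm_apply_apply]
  · intro i x hx y hxy
    apply hE
    have h1 := hxy.strengthen (R := fun b => ∀ j, ⌊g b j⌋ = ⌊g x j⌋) (fun _ => rfl) (by
      intro a b hxa ha hs hb j
      have haA : a ∈ {x | ∀ j, decide (Even ⌊g x j⌋) = e.symm i j} := hxa.last hx
      rw [← ha j]
      have h2 := hg a (a⁻¹ * b) hs j
      rw [mul_inv_cancel_left] at h2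
      refine floor_eq_of_near h2 ?_
      have h3 := haA j
      have h4 := hb j
      rw [← h4] at h3
      exact (decide_eq_decide.1 h3).symm)
    refine Chain.mono ?_ ?_ h1.1
    · intro s hs
      exact ⟨hs, Subgroup.mem_top s⟩
    rintro b ⟨-, hb⟩ j
    have h2 := hb j
    have h3 := Int.floor_le (g b j)
    have h4 := Int.lt_floor_add_one (g b j)
    have h5 := Int.floor_le (g x j)
    have h6 := Int.lt_floor_add_one (g x j)
    rw [h2] at h3 h4
    rw [abs_le]
    constructor <;> linarith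

/-- a finitely generated (or any) thin subgroup has finite asymptotic dimension -/
theorem asdim_of_thin_subgroup {G : Type*} [Group G] {k : ℕ} {L : Subgroup G} (h : Thin L k) :
    AsdimLT L (2 ^ k) := by
  have h1 := h.comap L.subtype L.subtype_injective
  have h2 : L.comap L.subtype = ⊤ := by
    ext x
    simp
  rw [h2] at h1
  exact asdim_of_thin h1

end Pool.Agent.Helper65.TH
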