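import Pool.Agent.Helper65.TH.Defs

/-!
Thin subgroups: elementary facts on chains.
-/

set_option autoImplicit false

namespace Pool.Agent.Helper65.TH

open Relation

section chain

variable {G H : Type*} [Group G] [Group H]

theorem Chain.refl (F : Set G) (P : G → Prop) (x : G) : Chain F P x x := ReflTransGen.refl

theorem Chain.step {F : Set G} {P : G → Prop} {x y z : G} (h : Chain F P x y)
    (hs : y⁻¹ * z ∈ F) (hz : P z) : Chain F P x z := h.tail ⟨hs, hz⟩

theorem Chain.trans {F : Set G} {P : G → Prop} {x y z : G} (h : Chain F P x y)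
    (h' : Chain F P y z) : Chain F P x z := ReflTransGen.trans h h'

/-- induction along a chain -/
theorem Chain.rec' {F : Set G} {P : G → Prop} {x y : G} (h : Chain F P x y) {R : G → Prop}
    (h0 : R x) (h1 : ∀ a b, Chain F P x a → R a → a⁻¹ * b ∈ F → P b → R b) : R y := by
  induction h with
  | refl => exact h0
  | tail hab hst ih => exact h1 _ _ hab ih hst.1 hst.2

/-- mapping a chain by an arbitrary map -/
theorem Chain.map {F : Set G} {P : G → Prop} {F' : Set H} {P' : H → Prop} (φ : G → H)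
    (hφ : ∀ a b, a⁻¹ * b ∈ F → P b → (φ a)⁻¹ * φ b ∈ F' ∧ P' (φ b)) {x y : G}
    (h : Chain F P x y) : Chain F' P' (φ x) (φ y) := by
  refine h.rec' (R := fun z => Chain F' P' (φ x) (φ z)) (Chain.refl _ _ _) ?_
  intro a b _ ha hs hP
  exact ha.step (hφ a b hs hP).1 (hφ a b hs hP).2

theorem Chain.mono {F F' : Set G} {P P' : G → Prop} (hF : F ⊆ F') (hP : ∀ b, P b → P' b)
    {x y : G} (h : Chain F P x y) : Chain F' P' x y :=
  h.map (fun z => z) (fun _ b hs hb => ⟨hF hs, hP b hb⟩)

/-- a property which holds at the start and is inherited along the steps can be added -/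
theorem Chain.strengthen {F : Set G} {P : G → Prop} {x y : G} (h : Chain F P x y)
    {R : G → Prop} (h0 : R x)
    (h1 : ∀ a b, Chain F P x a → R a → a⁻¹ * b ∈ F → P b → R b) :
    Chain F (fun b => P b ∧ R b) x y ∧ R y := by
  refine h.rec' (R := fun z => Chain F (fun b => P b ∧ R b) x z ∧ R z)
    ⟨Chain.refl _ _ _, h0⟩ ?_
  intro a b hxa ha hs hP
  have hR := h1 a b hxa ha.2 hs hP
  exact ⟨ha.1.step hs ⟨hP, hR⟩, hR⟩

theorem Chain.mem_subgroup {F : Set G} {P : G → Prop} (C : Subgroup G) (hF : ∀ s ∈ F, s ∈ C)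
    {x y : G} (h : Chain F P x y) : x⁻¹ * y ∈ C := by
  refine h.rec' (R := fun z => x⁻¹ * z ∈ C) (by rw [inv_mul_cancel]; exact C.one_mem) ?_
  intro a b _ ha hs _
  have : x⁻¹ * b = (x⁻¹ * a) * (a⁻¹ * b) := by group
  rw [this]
  exact C.mul_mem ha (hF _ hs)

theorem Chain.last {F : Set G} {P : G → Prop} {x y : G} (hx : P x) (h : Chain F P x y) : P y :=
  h.rec' (R := P) hx (fun _ _ _ _ _ hb => hb)

/-- left translation of a chain -/
theorem Chain.left {F : Set G} {P P' : G → Prop} (c : G) (hP : ∀ b, P b → P' (c * b)) {x y : G}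
    (h : Chain F P x y) : Chain F P' (c * x) (c * y) := by
  refine h.map (fun z => c * z) ?_
  intro a b hs hb
  refine ⟨?_, hP b hb⟩
  have : (c * a)⁻¹ * (c * b) = a⁻¹ * b := by group
  simpa only [this] using hs

theorem Chain.symm {F : Set G} {P : G → Prop} (hF : ∀ s ∈ F, s⁻¹ ∈ F) {x y : G} (hx : P x)
    (h : Chain F P x y) : Chain F P y x := by
  have : ∀ z, Chain F P x z → P z ∧ Chain F P z x := by
    intro z hz
    refine hz.rec' (R := fun z => P z ∧ Chain F P z x) ⟨hx, Chain.refl _ _ _⟩ ?_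
    intro a b _ ha hs hb
    refine ⟨hb, ?_⟩
    have h1 : Chain F P b a := (Chain.refl F P b).step (by
      have := hF _ hs
      have h2 : (a⁻¹ * b)⁻¹ = b⁻¹ * a := by group
      rwa [h2] at this) ha.1
    exact h1.trans ha.2
  exact (this y h).2

end chain

section near

variable {ι : Type*} {u v w : ι → ℝ} {ε δ : ℝ}

theorem Near.refl (u : ι → ℝ) (hε : 0 ≤ ε) : Near u u ε := by
  intro i
  simpa using hε

theorem Near.symm (h : Near u v ε) : Near v u ε := by
  intro i
  rw [abs_sub_comm]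
  exact h i

theorem Near.mono (h : Near u v ε) (hε : ε ≤ δ) : Near u v δ := fun i => (h i).trans hε

theorem Near.trans (h : Near u v ε) (h' : Near v w δ) : Near u w (ε + δ) := by
  intro i
  have h1 := h i
  have h2 := h' i
  have : u i - w i = (u i - v i) + (v i - w i) := by ring
  rw [this]
  exact (abs_add_le _ _).trans (add_le_add h1 h2)

end near

section light

variable {G : Type*} [Group G] {M C : Subgroup G} {b : ℕ} {Rg Rg' : Set (G × G)} {κ κ' : ℝ}
  {S S' : Set G}

theorem LightK.mono (h : LightK M C b Rg κ S) (hκ : κ ≤ κ') (hS : S' ⊆ S) (hR : Rg' ⊆ Rg) :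
    LightK M C b Rg' κ' S' := by
  intro F hF ε hε
  obtain ⟨γ, E, hb, hr, hs, hl⟩ := h F hF ε hε
  exact ⟨γ, E, hb, fun p hp => (hr p (hR hp)).mono (by linarith), hs,
    fun x hx y hxy => hl x (hS hx) y hxy⟩

theorem LightU.mono (h : LightU M C b Rg κ S) (hκ : κ ≤ κ') (hS : S' ⊆ S) (hR : Rg' ⊆ Rg) :
    LightU M C b Rg' κ' S' := by
  intro F hF ε hε
  obtain ⟨γ, E, hr, hs, hl⟩ := h F hF ε hε
  exact ⟨γ, E, fun p hp => (hr p (hR hp)).mono (by linarith), hs,
    fun x hx y hxy => hl x (hS hx) y hxy⟩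

theorem LightK.toU (h : LightK M C b Rg κ S) : LightU M C b Rg κ S := by
  intro F hF ε hε
  obtain ⟨γ, E, _, hr, hs, hl⟩ := h F hF ε hε
  exact ⟨γ, E, hr, hs, hl⟩

/-- the empty set is light -/
theorem lightK_empty (M C : Subgroup G) (b : ℕ) (Rg : Set (G × G)) (hκ : 0 ≤ κ) :
    LightK M C b Rg κ ∅ := by
  intro F hF ε hε
  refine ⟨fun _ _ => 0, ∅, fun _ _ => ⟨le_rfl, by norm_num⟩, fun _ _ i => ?_,
    fun _ _ _ i => ?_, fun x hx => absurd hx (Set.notMem_empty x)⟩
  · simp only [sub_self, abs_zero]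
    linarith
  · simp only [sub_self, abs_zero]
    linarith

end light

end Pool.Agent.Helper65.TH
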