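import Pool.Agent.Helper65.TH.Mono

/-!
TH-12. Thinness is a local property.

Proof. `thin_of_local`: given `F` and `ε` let `K = Subgroup.closure F` and let
`part x = (out (x K))⁻¹ * x ∈ K` (`out` a representative of the left coset of `x`, cf.
`Pool/Agent/Helper61/Apc/Criterion.lean`, section lift). Apply the hypothesis for `K` with `F` (as a
finite subset of `K`) and `ε`: `g₀ : K → Fin N → ℝ`, `E₀`. Put `g x = g₀ (part x)` and
`E = E₀.image Subtype.val`. For `s ∈ K` one has `part (x * s) = part x * s`, and if `x⁻¹ * y ∈ K` then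
`(part x)⁻¹ * part y = x⁻¹ * y`. All points of a chain with steps in `F` starting at `x` are in
`x K`; `Chain.map part`.
`thin_of_union`: use `thin_of_local`; a finitely generated `K` is contained in some `H ∈ S`
(`DirectedOn`, induction over the generating finite set; `S` is nonempty by `hcov 1`); then
`Thin.comap` along `Subgroup.inclusion : K → H` applied to `h H`, and
`(L.subgroupOf H).comap (Subgroup.inclusion _) = L.subgroupOf K`.
-/

set_option autoImplicit false

namespace Pool.Agent.Helper65.TH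

section lift

variable {G : Type*} [Group G] (Γ : Subgroup G)

/-- the component of `x` in `Γ`, with respect to a fixed set of representatives of the left
cosets of `Γ` -/
private noncomputable def part (x : G) : Γ :=
  ⟨(Quotient.out (x : G ⧸ Γ))⁻¹ * x, by
    rw [← QuotientGroup.eq]
    exact Quotient.out_eq _⟩

private lemma part_mul {x y : G} (h : x⁻¹ * y ∈ Γ) :
    ((part Γ x)⁻¹ * part Γ y : Γ) = ⟨x⁻¹ * y, h⟩ := by
  have hq : (x : G ⧸ Γ) = (y : G ⧸ Γ) := QuotientGroup.eq.2 h
  apply Subtype.ext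
  simp only [part, Subgroup.coe_mul, Subgroup.coe_inv, hq]
  group

end lift

theorem exists_mem_of_fg {G : Type*} [Group G] (S : Set (Subgroup G))
    (hdir : DirectedOn (· ≤ ·) S) (hcov : ∀ x : G, ∃ H ∈ S, x ∈ H) (K : Subgroup G)
    (hK : K.FG) : ∃ H ∈ S, K ≤ H := by
  classical
  obtain ⟨T, hT⟩ := hK
  have key : ∀ T : Finset G, ∃ H ∈ S, ∀ x ∈ T, x ∈ H := by
    intro T
    induction T using Finset.induction_on with
    | empty =>
      obtain ⟨H, hH, _⟩ := hcov 1
      exact ⟨H, hH, fun x hx => absurd hx (Finset.notMem_empty x)⟩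
    | insert a T _ ih =>
      obtain ⟨H, hH, hTH⟩ := ih
      obtain ⟨H', hH', ha⟩ := hcov a
      obtain ⟨H'', hH'', h1, h2⟩ := hdir H hH H' hH'
      refine ⟨H'', hH'', fun x hx => ?_⟩
      rcases Finset.mem_insert.1 hx with h | h
      · rw [h]
        exact h2 ha
      · exact h1 (hTH x h)
  obtain ⟨H, hH, hTH⟩ := key T
  refine ⟨H, hH, ?_⟩
  rw [← hT, Subgroup.closure_le]
  intro x hx
  exact hTH x hx

theorem thin_of_local {G : Type*} [Group G] (L : Subgroup G) (N : ℕ)
    (h : ∀ K : Subgroup G, K.FG → Thin (L.subgroupOf K) N) : Thin L N := by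
  classical
  intro F ε hε
  set K : Subgroup G := Subgroup.closure (F : Set G) with hKdef
  have hFK : ∀ s ∈ F, s ∈ K := fun s hs => Subgroup.subset_closure hs
  obtain ⟨g₀, E₀, hg, hl⟩ := h K ⟨F, rfl⟩ (F.subtype (fun s => s ∈ K)) ε hε
  refine ⟨fun x => g₀ (part K x), E₀.image Subtype.val, ?_, ?_⟩
  · intro x s hs
    have hm : x⁻¹ * (x * s) ∈ K := by
      rw [inv_mul_cancel_left]
      exact hFK s hs
    have h1 := part_mul K hm
    have h2 : part K (x * s) = part K x * ⟨s, hFK s hs⟩ := by
      rw [← inv_mul_eq_iff_eq_mul, h1]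
      apply Subtype.ext
      show x⁻¹ * (x * s) = s
      rw [inv_mul_cancel_left]
    show Near (g₀ (part K (x * s))) (g₀ (part K x)) ε
    rw [h2]
    exact hg _ _ (by
      rw [Finset.mem_subtype]
      exact hs)
  · intro x y hxy
    have hch := hxy.map (F' := {s : K | s ∈ F.subtype (fun s => s ∈ K) ∧ s ∈ L.subgroupOf K})
      (P' := fun b => Near (g₀ b) (g₀ (part K x)) 1) (part K) (by
        intro a b hs hb
        refine ⟨?_, hb⟩
        have hm : a⁻¹ * b ∈ K := hFK _ hs.1
        rw [part_mul K hm]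
        refine ⟨?_, ?_⟩
        · rw [Finset.mem_subtype]
          exact hs.1
        · rw [Subgroup.mem_subgroupOf]
          exact hs.2)
    have hE := hl _ _ hch
    have hm : x⁻¹ * y ∈ K := hxy.mem_subgroup K (fun s hs => hFK s hs.1)
    rw [part_mul K hm] at hE
    rw [Finset.mem_image]
    exact ⟨_, hE, rfl⟩

theorem thin_of_union {G : Type*} [Group G] (S : Set (Subgroup G))
    (hdir : DirectedOn (· ≤ ·) S) (hcov : ∀ x : G, ∃ H ∈ S, x ∈ H) (L : Subgroup G) (N : ℕ)
    (h : ∀ H ∈ S, Thin (L.subgroupOf H) N) : Thin L N := by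
  refine thin_of_local L N (fun K hK => ?_)
  obtain ⟨H, hH, hKH⟩ := exists_mem_of_fg S hdir hcov K hK
  have h1 := (h H hH).comap (Subgroup.inclusion hKH) (Subgroup.inclusion_injective hKH)
  have h2 : (L.subgroupOf H).comap (Subgroup.inclusion hKH) = L.subgroupOf K := by
    ext x
    simp only [Subgroup.mem_comap, Subgroup.mem_subgroupOf, Subgroup.coe_inclusion]
  rw [h2] at h1
  exact h1

end Pool.Agent.Helper65.TH
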