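import Pool.Agent.Helper65.TH.LenThin
import Pool.Agent.Helper65.TH.Local
import Pool.Agent.Helper61.Apc.Criterion

/-!
TH-32. The criterion of `LinearGroups` implies thinness.

Proof. `UniformOver T` gives `t`. Use `thin_of_local` with `N = t`: let `K` be finitely generated,
`K = Subgroup.closure F`. Put `S = T ∪ F`, `Γ = Subgroup.closure S ≥ K`; the length `ℓ` on `Γ` from
`UniformOver` and `thin_of_length` give `Thin ((Subgroup.closure T).subgroupOf Γ) t` in `Γ`; then
`Thin.comap` along `Subgroup.inclusion : K → Γ`, and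
`((closure T).subgroupOf Γ).comap (inclusion _) = (closure T).subgroupOf K`.
-/

set_option autoImplicit false

namespace Pool.Agent.Helper65.TH

open Pool.Agent.Helper61.Apc

theorem thin_of_uniform {G : Type*} [Group G] (T : Finset G) (h : UniformOver T) :
    ∃ N, Thin (Subgroup.closure (T : Set G)) N := by
  classical
  obtain ⟨t, ht⟩ := h
  refine ⟨t, thin_of_local _ _ fun K hK => ?_⟩
  obtain ⟨F, hF⟩ := hK
  obtain ⟨ℓ, hℓ, hdim, hfin⟩ := ht (T ∪ F) Finset.subset_union_left
  have hKΓ : K ≤ Subgroup.closure ((T ∪ F : Finset G) : Set G) := by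
    rw [← hF]
    apply Subgroup.closure_mono
    rw [Finset.coe_union]
    exact Set.subset_union_right
  have h1 := thin_of_length ℓ hℓ t hdim
    ((Subgroup.closure (T : Set G)).subgroupOf (Subgroup.closure ((T ∪ F : Finset G) : Set G)))
    (by
      intro ρ
      refine (hfin ρ).subset ?_
      rintro x ⟨hx1, hx2⟩
      rw [Subgroup.mem_subgroupOf] at hx1
      exact ⟨hx1, hx2⟩)
  have h2 := h1.comap (Subgroup.inclusion hKΓ) (Subgroup.inclusion_injective hKΓ)
  have h3 : ((Subgroup.closure (T : Set G)).subgroupOf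
      (Subgroup.closure ((T ∪ F : Finset G) : Set G))).comap (Subgroup.inclusion hKΓ) =
      (Subgroup.closure (T : Set G)).subgroupOf K := by
    ext x
    simp only [Subgroup.mem_comap, Subgroup.mem_subgroupOf, Subgroup.coe_inclusion]
  rw [h3] at h2
  exact h2

end Pool.Agent.Helper65.TH
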