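import Mathlib

/-!
Thin subgroups: definitions (chains, slow maps, light maps, asymptotic dimension and Hirsch length in
the language of finite subsets and chains).
-/

set_option autoImplicit false

namespace Pool.Agent.Helper65.TH

open Relation

/-- `Chain F P x y`: there are `x = x_0, x_1, ..., x_k = y` such that every step
`x_j⁻¹ * x_(j+1)` lies in `F` and `x_1, ..., x_k` satisfy `P`. -/
def Chain {G : Type*} [Group G] (F : Set G) (P : G → Prop) : G → G → Prop :=
  ReflTransGen (fun a b => a⁻¹ * b ∈ F ∧ P b)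

/-- `u` and `v` differ by at most `ε` in every coordinate -/
def Near {ι : Type*} (u v : ι → ℝ) (ε : ℝ) : Prop := ∀ i, |u i - v i| ≤ ε

/-- The family of the left cosets of `L` is `N`-thin in `G`: for every finite set `F` of steps and
every `ε > 0` there is a map `g` to `ℝ ^ N` which changes by at most `ε` along steps in `F` and
whose restriction to every coset `x L` is light: chains in `x L` with steps in `F` along which `g`
changes by at most `1` stay in a set `x E`, with `E` finite and independent of `x`. -/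
def Thin {G : Type*} [Group G] (L : Subgroup G) (N : ℕ) : Prop :=
  ∀ (F : Finset G) (ε : ℝ), 0 < ε → ∃ (g : G → Fin N → ℝ) (E : Finset G),
    (∀ x, ∀ s ∈ F, Near (g (x * s)) (g x) ε) ∧
    ∀ x y, Chain {s | s ∈ F ∧ s ∈ L} (fun b => Near (g b) (g x) 1) x y → x⁻¹ * y ∈ E

/-- Asymptotic dimension less than `t`: for every finite set `F` of steps the group is the union of
`t` sets `A i` such that the chains in `A i` with steps in `F` are bounded (they stay in `x E` with
`E` finite and independent of the starting point `x`). -/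
def AsdimLT (G : Type*) [Group G] (t : ℕ) : Prop :=
  ∀ F : Finset G, ∃ (E : Finset G) (A : Fin t → Set G), (∀ x, ∃ i, x ∈ A i) ∧
    ∀ i, ∀ x ∈ A i, ∀ y, Chain (F : Set G) (fun b => b ∈ A i) x y → x⁻¹ * y ∈ E

/-- every finitely generated subgroup has finite asymptotic dimension -/
def LocAsdim (G : Type*) [Group G] : Prop := ∀ H : Subgroup G, H.FG → ∃ t : ℕ, AsdimLT H t

/-- Auxiliary (subgroups `C ≤ M` of `G`, a set `Rg` of pairs, a constant `κ` and a set `S`): for
all finite `F ⊆ M` and `ε > 0` there is a map `γ` to `ℝ ^ b` which changes by at most `ε` along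
steps in `F`, by at most `ε + κ` along the pairs in `Rg`, and which is light on the cosets `x C`,
for the starting points `x ∈ S`. -/
def LightU {G : Type*} [Group G] (M C : Subgroup G) (b : ℕ) (Rg : Set (G × G)) (κ : ℝ)
    (S : Set G) : Prop :=
  ∀ F : Finset G, (∀ s ∈ F, s ∈ M) → ∀ ε : ℝ, 0 < ε → ∃ (γ : G → Fin b → ℝ) (E : Finset G),
    (∀ p ∈ Rg, Near (γ p.1) (γ p.2) (ε + κ)) ∧
    (∀ x, ∀ s ∈ F, Near (γ (x * s)) (γ x) ε) ∧
    ∀ x ∈ S, ∀ y, Chain {s | s ∈ F ∧ s ∈ C} (fun b => Near (γ b) (γ x) 1) x y → x⁻¹ * y ∈ E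

/-- `LightU` with maps `γ` to `[0, 32] ^ b` -/
def LightK {G : Type*} [Group G] (M C : Subgroup G) (b : ℕ) (Rg : Set (G × G)) (κ : ℝ)
    (S : Set G) : Prop :=
  ∀ F : Finset G, (∀ s ∈ F, s ∈ M) → ∀ ε : ℝ, 0 < ε → ∃ (γ : G → Fin b → ℝ) (E : Finset G),
    (∀ x i, 0 ≤ γ x i ∧ γ x i ≤ 32) ∧
    (∀ p ∈ Rg, Near (γ p.1) (γ p.2) (ε + κ)) ∧
    (∀ x, ∀ s ∈ F, Near (γ (x * s)) (γ x) ε) ∧
    ∀ x ∈ S, ∀ y, Chain {s | s ∈ F ∧ s ∈ C} (fun b => Near (γ b) (γ x) 1) x y → x⁻¹ * y ∈ E

/-- `ZChain k H`: there are subgroups `H ≥ M_1 ≥ K_1 ≥ M_2 ≥ K_2 ≥ ... ≥ M_k ≥ K_k` such that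
`K_i` is the kernel of a nontrivial homomorphism from `M_i` to the integers. -/
def ZChain {G : Type*} [Group G] : ℕ → Subgroup G → Prop
  | 0, _ => True
  | k + 1, H => ∃ M : Subgroup G, M ≤ H ∧ ∃ f : M →* Multiplicative ℤ,
      (∃ x, f x ≠ 1) ∧ ZChain k (f.ker.map M.subtype)

/-- the Hirsch length of `H` is at most `k` -/
def HirschLE {G : Type*} [Group G] (H : Subgroup G) (k : ℕ) : Prop := ¬ ZChain (k + 1) H

/-- every finitely generated subgroup has finite Hirsch length -/
def LocHirsch (G : Type*) [Group G] : Prop := ∀ H : Subgroup G, H.FG → ∃ k : ℕ, HirschLE H k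

/-- the property proved by induction for elementary amenable groups: if all finitely generated
subgroups have finite Hirsch length, then subgroups of Hirsch length at most `k` are `k`-thin -/
def HThin (G : Type*) [Group G] : Prop :=
  LocHirsch G → ∀ (L : Subgroup G) (k : ℕ), HirschLE L k → Thin L k

universe u

/-- Elementary amenable groups: the smallest class of groups which contains the finite groups and
the abelian groups and is closed under subgroups, quotients, extensions and directed unions. -/
inductive EA : (G : Type u) → [Group G] → Prop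
  | finite (G : Type u) [Group G] (h : Finite G) : EA G
  | comm (G : Type u) [Group G] (h : ∀ a b : G, a * b = b * a) : EA G
  | sub (G H : Type u) [Group G] [Group H] (f : H →* G) (hf : Function.Injective f) (h : EA G) :
      EA H
  | quot (G H : Type u) [Group G] [Group H] (f : G →* H) (hf : Function.Surjective f)
      (h : EA G) : EA H
  | ext (G : Type u) [Group G] (N : Subgroup G) [N.Normal] (h : EA N) (h' : EA (G ⧸ N)) : EA G
  | union (G : Type u) [Group G] (S : Set (Subgroup G)) (hdir : DirectedOn (· ≤ ·) S)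
      (hcov : ∀ x : G, ∃ H ∈ S, x ∈ H) (h : ∀ H ∈ S, EA H) : EA G

/-- the same class without the operations `sub` and `quot` (Chou: it is the same class) -/
inductive EB : (G : Type u) → [Group G] → Prop
  | finite (G : Type u) [Group G] (h : Finite G) : EB G
  | comm (G : Type u) [Group G] (h : ∀ a b : G, a * b = b * a) : EB G
  | ext (G Q : Type u) [Group G] [Group Q] (f : G →* Q) (hf : Function.Surjective f)
      (h : EB f.ker) (h' : EB Q) : EB G
  | union (G : Type u) [Group G] (S : Set (Subgroup G)) (hdir : DirectedOn (· ≤ ·) S)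
      (hcov : ∀ x : G, ∃ H ∈ S, x ∈ H) (h : ∀ H ∈ S, EB H) : EB G

end Pool.Agent.Helper65.TH
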