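import Pool.Agent.Helper65.TH.Cover
import Pool.Agent.Helper65.TH.AsdimSub

/-!
TH-15. In a group of asymptotic dimension less than `t` all subgroups are `t`-thin.

Proof. Given `F` and `ε`, `AsdimLT.of_injective` gives `AsdimLT (Subgroup.closure F) t`; choose
`ρ ≥ 1` with `3 / ρ ≤ ε` and take `χ, τ, B` from `exists_cover`. Put `g x i = 3 * χ i x` and
`E` = the finite set of the `b⁻¹ * b'`, `b, b' ∈ B`. Light: for `x` choose `i` with `χ i x = 1`. Along a chain
from `x` with `|g b i - g x i| ≤ 1` one has `3 * χ i b ≥ 2`, so `χ i b ≠ 0`, hence `τ i` is constant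
along the chain (steps in `F`), `τ i y = τ i x`, and
`x⁻¹ * y = ((τ i x)⁻¹ * x)⁻¹ * ((τ i y)⁻¹ * y)`.
-/

set_option autoImplicit false

namespace Pool.Agent.Helper65.TH

theorem thin_of_asdim {G : Type*} [Group G] {t : ℕ} (h : AsdimLT G t) (L : Subgroup G) :
    Thin L t := by
  classical
  intro F ε hε
  have hΛ := AsdimLT.of_injective h (Subgroup.closure (F : Set G)).subtype
    Subtype.coe_injective
  obtain ⟨n, hn⟩ := exists_nat_gt (3 / ε)
  obtain ⟨χ, τ, B, h01, h1, hs, hτ, hB⟩ := exists_cover F t hΛ (n + 1) (Nat.succ_pos n)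
  refine ⟨fun x i => 3 * χ i x, (B ×ˢ B).image (fun p => p.1⁻¹ * p.2), ?_, ?_⟩
  · intro x s hsF i
    have h2 := hs i x s hsF
    have h3 : 3 * χ i (x * s) - 3 * χ i x = 3 * (χ i (x * s) - χ i x) := by ring
    have hn0 : (0 : ℝ) < ((n + 1 : ℕ) : ℝ) := by positivity
    have h4 : 3 / ε < ((n + 1 : ℕ) : ℝ) := by
      push_cast
      linarith
    show |3 * χ i (x * s) - 3 * χ i x| ≤ ε
    rw [h3, abs_mul, abs_of_pos (by norm_num : (0 : ℝ) < 3)]
    have h5 : 3 * (1 / ((n + 1 : ℕ) : ℝ)) ≤ ε := by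
      rw [mul_one_div, div_le_iff₀ hn0]
      rw [div_lt_iff₀ hε] at h4
      linarith
    exact (mul_le_mul_of_nonneg_left h2 (by norm_num)).trans h5
  · intro x y hxy
    obtain ⟨i, hi⟩ := h1 x
    have hne : ∀ b, Near (fun j => 3 * χ j b) (fun j => 3 * χ j x) 1 → χ i b ≠ 0 := by
      intro b hb h0
      have h2 := hb i
      simp only [h0, hi] at h2
      rw [abs_le] at h2
      linarith [h2.1]
    have hR : τ i y = τ i x ∧ χ i y ≠ 0 := by
      refine hxy.rec' (R := fun z => τ i z = τ i x ∧ χ i z ≠ 0) ⟨rfl, by rw [hi]; exact one_ne_zero⟩ ?_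
      intro a b _ ha hst hb
      have hb' : χ i b ≠ 0 := hne b hb
      have hab : b = a * (a⁻¹ * b) := by group
      refine ⟨?_, hb'⟩
      rw [← ha.1]
      have h3 := hτ i a (a⁻¹ * b) hst.1 ha.2 (by rw [← hab]; exact hb')
      rwa [← hab] at h3
    have hx := hB i x (by rw [hi]; exact one_ne_zero)
    have hy := hB i y hR.2
    rw [Finset.mem_image]
    refine ⟨((τ i x)⁻¹ * x, (τ i y)⁻¹ * y), Finset.mem_product.2 ⟨hx, hy⟩, ?_⟩
    simp only
    rw [hR.1]
    group

end Pool.Agent.Helper65.TH
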