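import Pool.Agent.Helper65.TH.Mono
import Pool.Agent.Helper65.TH.AsdimSub

/-!
TH-18. The core of the criterion.

Proof. Let `K = Subgroup.closure S` and `AsdimLT K t`. If `t = 0` then `K` would be empty, so `t ≥ 1`.
Let `c i = i / t` (`i : Fin t`), `w = 1 / (4 * t)`. Apply
`hN` with `F = S` and `ε = w`: `g`, `E`; we may replace `E` by the set of its elements in
`Subgroup.closure T` (`Chain.mem_subgroup`). Let `E' = E ∪ {1} ∪ (E * T) ∪ T` (finite subset of `K`), and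
`S₂` the finite set of all `e * s * e'⁻¹`, `e, e' ∈ E'`, `s ∈ S` (a subset of `K`). `AsdimLT.lift` for
`S₂` gives `V i` (`i : Fin t`), `E₀`. Let `V' i = {v * e | v ∈ V i, e ∈ E'}`. If `x ∈ V' i`, and a chain in
`V' i` with steps in `S` goes from `x` to `y`, write its points as `v_j * e_j`; then
`v_j⁻¹ * v_(j+1) = e_j * s_j * e_(j+1)⁻¹ ∈ S₂`, so `x⁻¹ * y ∈ {e⁻¹ * z * e' | z ∈ E₀}` (choose `v`, `e` for
every point of `V' i`).
For `l : Fin N` let
`W l = {x | ∃ i : Fin t, x ∈ V' i ∧ ∃ k : ℤ, |g x l - c i - k| ≤ w}`, `A (l + 1) = W l` and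
`A 0 = {x | ∀ l, x ∉ W l}` (and `A j = ∅` for `j > N`).
Chains in `W l` with steps in `S`: let `i` be an index for the point `a` and `j` one for the next point
`b`; `|g b l - g a l| ≤ w`, so `|c i - c j - m| ≤ 3 * w < 1 / t` for an integer `m`, so
`|i - j - m * t| < 1`, `i = j` (as `|i - j| < t`). So with `i` fixed by the first point all points are
in `V' i`, and the chain is bounded.
Chains in `A 0` with steps in `T`, starting at `x`: choose `i` with `x ∈ V i`. By induction all points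
`b` of the chain satisfy: `Chain {s | s ∈ S ∧ s ∈ closure T} (fun b => Near (g b) (g x) 1) x b`, so
`x⁻¹ * b ∈ E`, and `⌊g b l - c i⌋ = ⌊g x l - c i⌋` for all `l`. Step from `a` to `b`: `x⁻¹ * a ∈ E`, so
`a ∈ V' i` and `b ∈ V' i` (`x⁻¹ * b ∈ E * T`); both `a` (also if `a = x`) and `b` are not in `W l`, so
`|g a l - c i - k| > w` and `|g b l - c i - k| > w` for all integers `k`, and
`|g b l - g a l| ≤ w`; if the floors of `g a l - c i` and `g b l - c i` were different then there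
would be an integer `k` between them, at distance at most `w` from both. So the floors are equal
and `|g b l - g x l| < 1`.
-/

set_option autoImplicit false

namespace Pool.Agent.Helper65.TH

/-- chains in the fattened set `{v * e}` -/
private theorem fat_bound {G : Type*} [Group G] {S E' S2 E0 : Finset G}
    (hS2 : ∀ e ∈ E', ∀ s ∈ S, ∀ e' ∈ E', e * s * e'⁻¹ ∈ S2) {V : Set G}
    (hV : ∀ x ∈ V, ∀ y, Chain (S2 : Set G) (fun b => b ∈ V) x y → x⁻¹ * y ∈ E0) (x y : G)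
    (hx : ∃ e ∈ E', x * e⁻¹ ∈ V)
    (h : Chain (S : Set G) (fun b => ∃ e ∈ E', b * e⁻¹ ∈ V) x y) :
    ∃ e ∈ E', ∃ z ∈ E0, ∃ e' ∈ E', x⁻¹ * y = e⁻¹ * z * e' := by
  obtain ⟨ex, hex, hxV⟩ := hx
  have key : ∀ z, Chain (S : Set G) (fun b => ∃ e ∈ E', b * e⁻¹ ∈ V) x z →
      ∃ e ∈ E', z * e⁻¹ ∈ V ∧ Chain (S2 : Set G) (fun b => b ∈ V) (x * ex⁻¹) (z * e⁻¹) := by
    intro z hz
    refine hz.rec' (R := fun z => ∃ e ∈ E', z * e⁻¹ ∈ V ∧
      Chain (S2 : Set G) (fun b => b ∈ V) (x * ex⁻¹) (z * e⁻¹)) ⟨ex, hex, hxV, Chain.refl _ _ _⟩ ?_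
    rintro a b _ ⟨ea, hea, haV, hch⟩ hs ⟨eb, heb, hbV⟩
    refine ⟨eb, heb, hbV, hch.step ?_ hbV⟩
    have h1 : (a * ea⁻¹)⁻¹ * (b * eb⁻¹) = ea * (a⁻¹ * b) * eb⁻¹ := by group
    rw [h1]
    exact hS2 ea hea _ hs eb heb
  obtain ⟨e, he, hyV, hch⟩ := key y h
  refine ⟨ex, hex, _, hV _ hxV _ hch, e, he, ?_⟩
  group

/-- two real numbers at distance at most `w`, both at distance more than `w` from the integers, have
the same floor -/
private theorem floor_eq_of {α β w : ℝ} (hw : 0 ≤ w) (hab : |β - α| ≤ w)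
    (ha : ∀ k : ℤ, w < |α - k|) (hb : ∀ k : ℤ, w < |β - k|) : ⌊β⌋ = ⌊α⌋ := by
  rcases lt_trichotomy ⌊β⌋ ⌊α⌋ with h | h | h
  · exfalso
    have h1 : β < (⌊α⌋ : ℤ) := by
      rw [← Int.floor_lt]
      exact h
    have h2 : ((⌊α⌋ : ℤ) : ℝ) ≤ α := Int.floor_le α
    have h3 := hb ⌊α⌋
    rw [abs_of_nonpos (by linarith)] at h3
    rw [abs_le] at hab
    have h4 := ha ⌊α⌋
    rw [abs_of_nonneg (by linarith)] at h4
    linarith [hab.1]
  · exact h
  · exfalso
    have h1 : α < (⌊β⌋ : ℤ) := by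
      rw [← Int.floor_lt]
      exact h
    have h2 : ((⌊β⌋ : ℤ) : ℝ) ≤ β := Int.floor_le β
    have h3 := ha ⌊β⌋
    rw [abs_of_nonpos (by linarith)] at h3
    rw [abs_le] at hab
    have h4 := hb ⌊β⌋
    rw [abs_of_nonneg (by linarith)] at h4
    linarith [hab.2]

/-- the bands of different index are separated -/
private theorem index_eq {t : ℕ} (ht : 0 < t) (i j : Fin t) (a b : ℝ) (k k' : ℤ)
    (h1 : |a - (i : ℝ) / t - k| ≤ 1 / (4 * t)) (h2 : |b - (j : ℝ) / t - k'| ≤ 1 / (4 * t))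
    (h3 : |b - a| ≤ 1 / (4 * t)) : i = j := by
  have htr : (0 : ℝ) < t := by exact_mod_cast ht
  have e1 : (1 : ℝ) / (4 * t) * t = 1 / 4 := by field_simp
  rw [abs_le] at h1 h2 h3
  have key : |((i : ℝ) - j - (k' - k) * t)| < 1 := by
    have m1 := mul_le_mul_of_nonneg_right h1.1 htr.le
    have m2 := mul_le_mul_of_nonneg_right h1.2 htr.le
    have m3 := mul_le_mul_of_nonneg_right h2.1 htr.le
    have m4 := mul_le_mul_of_nonneg_right h2.2 htr.le
    have m5 := mul_le_mul_of_nonneg_right h3.1 htr.le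
    have m6 := mul_le_mul_of_nonneg_right h3.2 htr.le
    have e2 : (a - (i : ℝ) / t - k) * t = a * t - i - k * t := by field_simp
    have e3 : (b - (j : ℝ) / t - k') * t = b * t - j - k' * t := by field_simp
    rw [neg_mul, e1] at m1 m3 m5
    rw [e1] at m2 m4 m6
    rw [e2] at m1 m2
    rw [e3] at m3 m4
    rw [abs_lt]
    constructor <;> linarith
  have key2 : |((i : ℤ) - j - (k' - k) * t)| < 1 := by
    have : ((|((i : ℤ) - j - (k' - k) * t)| : ℤ) : ℝ) < ((1 : ℤ) : ℝ) := by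
      push_cast
      exact key
    exact_mod_cast this
  rw [Int.abs_lt_one_iff] at key2
  have hi := i.isLt
  have hj := j.isLt
  have hm : (k' - k) = 0 := by
    by_contra hne
    have h5 : (i : ℤ) - j = (k' - k) * t := by linarith
    have h6 : (t : ℤ) ≤ |(k' - k) * t| := by
      rw [abs_mul, abs_of_nonneg (by positivity : (0 : ℤ) ≤ t)]
      have : 1 ≤ |k' - k| := Int.one_le_abs hne
      nlinarith
    rw [← h5] at h6
    have h7 : |((i : ℤ) - j)| < t := by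
      rw [abs_lt]
      constructor <;> omega
    omega
  rw [hm, zero_mul, sub_zero] at key2
  apply Fin.ext
  omega

theorem exists_bands {G : Type*} [Group G] (T : Finset G) (N : ℕ)
    (hN : Thin (Subgroup.closure (T : Set G)) N) (S : Finset G) (hTS : T ⊆ S) (t : ℕ)
    (hS : AsdimLT (Subgroup.closure (S : Set G)) t) :
    ∃ (A : ℕ → Set G) (E : Finset G), (∀ x, ∃ j < N + 1, x ∈ A j) ∧
      (∀ x ∈ A 0, ∀ y, Chain (T : Set G) (fun b => b ∈ A 0) x y → x⁻¹ * y ∈ E) ∧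
      ∀ j, 1 ≤ j → j < N + 1 → ∀ x ∈ A j, ∀ y,
        Chain (S : Set G) (fun b => b ∈ A j) x y → x⁻¹ * y ∈ E := by
  classical
  have hΛK : Subgroup.closure (T : Set G) ≤ Subgroup.closure (S : Set G) :=
    Subgroup.closure_mono (Finset.coe_subset.2 hTS)
  have hSK : ∀ s ∈ S, s ∈ Subgroup.closure (S : Set G) := fun s hs => Subgroup.subset_closure hs
  have hTΛ : ∀ s ∈ T, s ∈ Subgroup.closure (T : Set G) := fun s hs => Subgroup.subset_closure hs
  have ht : 0 < t := by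
    obtain ⟨_, A, hA, _⟩ := hS ∅
    obtain ⟨i, _⟩ := hA 1
    exact i.pos
  have htr : (0 : ℝ) < t := by exact_mod_cast ht
  obtain ⟨g, E1, hg, hl⟩ := hN S (1 / (4 * t)) (by positivity)
  obtain ⟨E1', hE1'⟩ : ∃ E1' : Finset G, ∀ e, e ∈ E1' ↔ e ∈ E1 ∧ e ∈ Subgroup.closure (T : Set G) :=
    ⟨E1.filter (· ∈ Subgroup.closure (T : Set G)), fun e => Finset.mem_filter⟩
  obtain ⟨E', hE'1, hE'2, hE'K⟩ : ∃ E' : Finset G, (∀ e ∈ E1', e ∈ E') ∧
      (∀ e ∈ E1', ∀ s ∈ T, e * s ∈ E') ∧ ∀ e ∈ E', e ∈ Subgroup.closure (S : Set G) := by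
    refine ⟨E1' ∪ Finset.image₂ (· * ·) E1' T, fun e he => Finset.mem_union_left _ he,
      fun e he s hs => Finset.mem_union_right _ (Finset.mem_image₂_of_mem he hs), ?_⟩
    intro e he
    rw [Finset.mem_union] at he
    rcases he with he | he
    · exact hΛK ((hE1' e).1 he).2
    · obtain ⟨a, ha, s, hs, rfl⟩ := Finset.mem_image₂.1 he
      exact Subgroup.mul_mem _ (hΛK ((hE1' a).1 ha).2) (hΛK (hTΛ s hs))
  obtain ⟨S2, hS2, hS2K⟩ : ∃ S2 : Finset G, (∀ e ∈ E', ∀ s ∈ S, ∀ e' ∈ E', e * s * e'⁻¹ ∈ S2) ∧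
      ∀ s ∈ S2, s ∈ Subgroup.closure (S : Set G) := by
    refine ⟨Finset.image₂ (fun (p : G × G) s => p.1 * s * p.2⁻¹) (E' ×ˢ E') S, ?_, ?_⟩
    · intro e he s hs e' he'
      exact Finset.mem_image₂.2 ⟨(e, e'), Finset.mem_product.2 ⟨he, he'⟩, s, hs, rfl⟩
    · intro s hs
      obtain ⟨⟨e, e'⟩, hp, s', hs', rfl⟩ := Finset.mem_image₂.1 hs
      rw [Finset.mem_product] at hp
      exact Subgroup.mul_mem _ (Subgroup.mul_mem _ (hE'K e hp.1) (hSK s' hs'))
        (Subgroup.inv_mem _ (hE'K e' hp.2))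
  obtain ⟨E0, V, hVc, hVb⟩ := AsdimLT.lift _ hS S2 hS2K
  obtain ⟨E3, hE3⟩ : ∃ E3 : Finset G, ∀ e ∈ E', ∀ z ∈ E0, ∀ e' ∈ E', e⁻¹ * z * e' ∈ E3 := by
    refine ⟨Finset.image₂ (fun (p : G × G) z => p.1⁻¹ * z * p.2) (E' ×ˢ E') E0, ?_⟩
    intro e he z hz e' he'
    exact Finset.mem_image₂.2 ⟨(e, e'), Finset.mem_product.2 ⟨he, he'⟩, z, hz, rfl⟩
  -- the fattened sets and the bands
  let V' : Fin t → Set G := fun i => {x | ∃ e ∈ E', x * e⁻¹ ∈ V i}
  let W : Fin N → Set G := fun l =>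
    {x | ∃ i : Fin t, x ∈ V' i ∧ ∃ k : ℤ, |g x l - (i : ℝ) / t - k| ≤ 1 / (4 * t)}
  have hWb : ∀ l, ∀ x ∈ W l, ∀ y, Chain (S : Set G) (fun b => b ∈ W l) x y → x⁻¹ * y ∈ E3 := by
    rintro l x ⟨i, hxV, k, hk⟩ y hxy
    have hst := hxy.strengthen
      (R := fun z => z ∈ V' i ∧ ∃ k : ℤ, |g z l - (i : ℝ) / t - k| ≤ 1 / (4 * t))
      ⟨hxV, k, hk⟩ (by
        rintro a b _ ⟨_, ka, hka⟩ hs ⟨j, hbV, kb, hkb⟩
        have hd := hg a _ hs l
        rw [mul_inv_cancel_left] at hd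
        have hij := index_eq ht i j _ _ ka kb hka hkb hd
        subst hij
        exact ⟨hbV, kb, hkb⟩)
    have hch : Chain (S : Set G) (fun b => ∃ e ∈ E', b * e⁻¹ ∈ V i) x y :=
      hst.1.mono (fun _ h => h) (fun b hb => hb.2.1)
    obtain ⟨e, he, z, hz, e', he', heq⟩ := fat_bound hS2 (hVb i) x y hxV hch
    rw [heq]
    exact hE3 e he z hz e' he'
  have hA0 : ∀ x, (∀ l, x ∉ W l) → ∀ y, Chain (T : Set G) (fun b => ∀ l, b ∉ W l) x y →
      x⁻¹ * y ∈ E1 := by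
    intro x hx y hxy
    obtain ⟨i, hxi⟩ := hVc x
    have hR := hxy.rec' (R := fun b => (∀ l, b ∉ W l) ∧
      Chain {s | s ∈ S ∧ s ∈ Subgroup.closure (T : Set G)} (fun b => Near (g b) (g x) 1) x b ∧
      ∀ l, ⌊g b l - (i : ℝ) / t⌋ = ⌊g x l - (i : ℝ) / t⌋)
      ⟨hx, Chain.refl _ _ _, fun _ => rfl⟩ (by
        rintro a b _ ⟨haW, hcha, hfa⟩ hs hbW
        have hsT : a⁻¹ * b ∈ T := hs
        have hxa : x⁻¹ * a ∈ E1 := hl x a hcha
        have hxaΛ : x⁻¹ * a ∈ Subgroup.closure (T : Set G) :=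
          hcha.mem_subgroup _ (fun s hs => hs.2)
        have hxaE : x⁻¹ * a ∈ E1' := (hE1' _).2 ⟨hxa, hxaΛ⟩
        have haV : a ∈ V' i := by
          refine ⟨x⁻¹ * a, hE'1 _ hxaE, ?_⟩
          have h1 : a * (x⁻¹ * a)⁻¹ = x := by group
          rw [h1]
          exact hxi
        have hbV : b ∈ V' i := by
          refine ⟨x⁻¹ * a * (a⁻¹ * b), hE'2 _ hxaE _ hsT, ?_⟩
          have h1 : b * (x⁻¹ * a * (a⁻¹ * b))⁻¹ = x := by group
          rw [h1]
          exact hxi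
        have hfl : ∀ l, ⌊g b l - (i : ℝ) / t⌋ = ⌊g x l - (i : ℝ) / t⌋ := by
          intro l
          rw [← hfa l]
          have hd := hg a _ (hTS hsT) l
          rw [mul_inv_cancel_left] at hd
          refine floor_eq_of (w := 1 / (4 * t)) (by positivity) ?_ ?_ ?_
          · have : g b l - (i : ℝ) / t - (g a l - (i : ℝ) / t) = g b l - g a l := by ring
            rw [this]
            exact hd
          · intro k
            by_contra hcon
            exact haW l ⟨i, haV, k, not_lt.1 hcon⟩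
          · intro k
            by_contra hcon
            exact hbW l ⟨i, hbV, k, not_lt.1 hcon⟩
        refine ⟨hbW, hcha.step ⟨hTS hsT, hTΛ _ hsT⟩ ?_, hfl⟩
        intro l
        have h1 := Int.abs_sub_lt_one_of_floor_eq_floor (hfl l)
        have h2 : g b l - (i : ℝ) / t - (g x l - (i : ℝ) / t) = g b l - g x l := by ring
        rw [h2] at h1
        exact h1.le)
    exact hl x y hR.2.1
  refine ⟨fun j => {x | (j = 0 ∧ ∀ l, x ∉ W l) ∨ ∃ l : Fin N, j = (l : ℕ) + 1 ∧ x ∈ W l}, E1 ∪ E3,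
    ?_, ?_, ?_⟩
  · intro x
    by_cases hx : ∀ l, x ∉ W l
    · exact ⟨0, by omega, Or.inl ⟨rfl, hx⟩⟩
    · push Not at hx
      obtain ⟨l, hl'⟩ := hx
      exact ⟨(l : ℕ) + 1, by have := l.isLt; omega, Or.inr ⟨l, rfl, hl'⟩⟩
  · intro x hx y hxy
    have hx' : ∀ l, x ∉ W l := by
      rcases hx with hx | ⟨l, h0, _⟩
      · exact hx.2
      · omega
    refine Finset.mem_union_left _ (hA0 x hx' y (hxy.mono (fun _ h => h) ?_))
    rintro b (hb | ⟨l, h0, _⟩)
    · exact hb.2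
    · omega
  · intro j hj1 hj2 x hx y hxy
    obtain ⟨l, hjl, hxl⟩ : ∃ l : Fin N, j = (l : ℕ) + 1 ∧ x ∈ W l := by
      rcases hx with hx | hx
      · omega
      · exact hx
    refine Finset.mem_union_right _ (hWb l x hxl y (hxy.mono (fun _ h => h) ?_))
    rintro b (hb | ⟨l', h0, hb⟩)
    · omega
    · have : l' = l := by
        apply Fin.ext
        omega
      rw [← this]
      exact hb

end Pool.Agent.Helper65.TH
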