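import Pool.Agent.Helper65.TH.Mono

/-!
TH-13. First examples of thin subgroups.

Proof. `thin_of_locallyFinite`: for `F` and `ε` take the unique map to `ℝ ^ 0` and `E` = the finite
group generated by the elements of `F` which are in `L` (`Chain.mem_subgroup`).
`thin_of_finite`, `thin_bot`: special cases. `thin_int`: given `F` and `ε` let
`D ≥ 1` bound `|toAdd s|` for `s ∈ F`, and put `g x 0 = (ε / D) * toAdd x`. If
`|g y - g x| ≤ 1` then `|toAdd (x⁻¹ * y)| ≤ D / ε`: a finite set.
-/

set_option autoImplicit false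

namespace Pool.Agent.Helper65.TH

theorem thin_of_locallyFinite {G : Type*} [Group G] (L : Subgroup G)
    (h : ∀ F : Finset G, (∀ s ∈ F, s ∈ L) → (Subgroup.closure (F : Set G) : Set G).Finite) :
    Thin L 0 := by
  classical
  intro F ε _
  have hfin := h (F.filter (fun s => s ∈ L)) (fun s hs => (Finset.mem_filter.1 hs).2)
  refine ⟨fun _ _ => 0, hfin.toFinset, fun x s _ i => i.elim0, ?_⟩
  intro x y hxy
  rw [Set.Finite.mem_toFinset, SetLike.mem_coe]
  refine hxy.mem_subgroup _ ?_
  intro s hs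
  apply Subgroup.subset_closure
  rw [Finset.mem_coe, Finset.mem_filter]
  exact hs

theorem thin_of_finite {G : Type*} [Group G] (L : Subgroup G) (h : Finite L) : Thin L 0 := by
  refine thin_of_locallyFinite L fun F hF => ?_
  have hL : (L : Set G).Finite := Set.toFinite _
  refine hL.subset ?_
  rw [SetLike.coe_subset_coe, Subgroup.closure_le]
  intro s hs
  exact hF s hs

theorem thin_bot (G : Type*) [Group G] : Thin (⊥ : Subgroup G) 0 :=
  thin_of_finite _ inferInstance

theorem thin_int : Thin (⊤ : Subgroup (Multiplicative ℤ)) 1 := by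
  classical
  intro F ε hε
  obtain ⟨D, hD⟩ : ∃ D : ℝ, D = 1 + ∑ s ∈ F, |((Multiplicative.toAdd s : ℤ) : ℝ)| := ⟨_, rfl⟩
  have hD1 : 1 ≤ D := by
    rw [hD]
    have : 0 ≤ ∑ s ∈ F, |((Multiplicative.toAdd s : ℤ) : ℝ)| :=
      Finset.sum_nonneg fun _ _ => abs_nonneg _
    linarith
  have hD0 : 0 < D := by linarith
  have hDs : ∀ s ∈ F, |((Multiplicative.toAdd s : ℤ) : ℝ)| ≤ D := by
    intro s hs
    rw [hD]
    have := Finset.single_le_sum (f := fun s => |((Multiplicative.toAdd s : ℤ) : ℝ)|)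
      (fun _ _ => abs_nonneg _) hs
    linarith
  refine ⟨fun x _ => ε / D * ((Multiplicative.toAdd x : ℤ) : ℝ),
    (Finset.Icc (-⌈D / ε⌉) ⌈D / ε⌉).image Multiplicative.ofAdd, ?_, ?_⟩
  · intro x s hs i
    have e : ε / D * ((Multiplicative.toAdd (x * s) : ℤ) : ℝ) -
        ε / D * ((Multiplicative.toAdd x : ℤ) : ℝ) =
        ε / D * ((Multiplicative.toAdd s : ℤ) : ℝ) := by
      rw [toAdd_mul]
      push_cast
      ring
    change |ε / D * ((Multiplicative.toAdd (x * s) : ℤ) : ℝ) -
        ε / D * ((Multiplicative.toAdd x : ℤ) : ℝ)| ≤ ε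
    rw [e, abs_mul, abs_of_pos (div_pos hε hD0)]
    calc ε / D * |((Multiplicative.toAdd s : ℤ) : ℝ)| ≤ ε / D * D :=
          mul_le_mul_of_nonneg_left (hDs s hs) (div_pos hε hD0).le
      _ = ε := div_mul_cancel₀ _ hD0.ne'
  · intro x y hxy
    have h0 := Chain.last (P := fun b : Multiplicative ℤ =>
      Near (fun _ : Fin 1 => ε / D * ((Multiplicative.toAdd b : ℤ) : ℝ))
        (fun _ : Fin 1 => ε / D * ((Multiplicative.toAdd x : ℤ) : ℝ)) 1)
      (Near.refl _ zero_le_one) hxy
    have h1 : |ε / D * ((Multiplicative.toAdd y : ℤ) : ℝ) -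
        ε / D * ((Multiplicative.toAdd x : ℤ) : ℝ)| ≤ 1 := h0 0
    rw [← mul_sub, abs_mul, abs_of_pos (div_pos hε hD0)] at h1
    have h2 : |((Multiplicative.toAdd y : ℤ) : ℝ) - ((Multiplicative.toAdd x : ℤ) : ℝ)| ≤ D / ε := by
      rw [le_div_iff₀ hε]
      rw [div_mul_eq_mul_div, div_le_iff₀ hD0] at h1
      linarith
    rw [Finset.mem_image]
    refine ⟨Multiplicative.toAdd y - Multiplicative.toAdd x, ?_, ?_⟩
    · rw [Finset.mem_Icc]
      have h3 := (abs_le.1 (h2.trans (Int.le_ceil _)))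
      constructor
      · have := h3.1
        exact_mod_cast this
      · have := h3.2
        exact_mod_cast this
    · apply Multiplicative.toAdd.injective
      rw [toAdd_ofAdd, toAdd_mul, toAdd_inv]
      ring

end Pool.Agent.Helper65.TH
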