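import Pool.Agent.Helper65.TH.Basic

/-!
TH-07. Covers with partitions of unity and representatives.

Proof. Let `Λ = Subgroup.closure F`. Let `F₁` be the finite symmetric set `F ∪ F⁻¹ ∪ {1}` and
`P n = F₁ ^ n` (pointwise power, or define by recursion the finite sets of products of `n`
elements); `P` is increasing, symmetric and `P m * P n = P (m + n)`, all contained in `Λ`. Apply
`h : AsdimLT Λ t` with the finite set `P (2 * ρ + 1)` (as a finite subset of `Λ`): sets
`A₀ i ⊆ Λ` and `E₀`. Transport to `Q` along the left cosets of `Λ`: with `part x = (out (x Λ))⁻¹ * x ∈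
Λ` put `V i = {q | part q ∈ A₀ i}`. The `V i` cover `Q`, and chains in `V i` with steps in
`P (2 * ρ + 1) ⊆ Λ` stay in one coset, and are mapped by `part` to chains in `A₀ i` (`part` commutes
with right multiplication by elements of `Λ`), so if `v, v'` are joined by such a chain then
`v⁻¹ * v' ∈ E₀`. The relation `v ~ v'` : joined by a chain in `V i` with steps in `P (2 * ρ + 1)`
(or both equal) is an equivalence relation on `V i` (`Chain.symm`); choose for every `v ∈ V i` a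
representative `rep i v ∈ V i`, `rep i v = rep i v'` if `v ~ v'`, `v ~ rep i v`.
For `n : ℕ` let `U i n = {q | ∃ v ∈ V i, v⁻¹ * q ∈ P n}`, increasing in `n`; for `s ∈ F`:
`q ∈ U i n → q * s ∈ U i (n + 1)` and conversely (`q * s ∈ U i n → q ∈ U i (n + 1)`).
`χ i q = (number of n < ρ with q ∈ U i n) / ρ`. Then `0 ≤ χ ≤ 1`, `χ i q = 1` for `q ∈ V i = U i 0`, and
`|χ i (q * s) - χ i q| ≤ 1 / ρ` since the set of the `n` is an upper segment of `{0, ..., ρ - 1}`
(if `q ∈ U i n` then `q * s ∈ U i (n + 1)`). If `χ i q ≠ 0` then `q ∈ U i (ρ - 1) ⊆ U i ρ`; choose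
`v ∈ V i` with `v⁻¹ * q ∈ P ρ` and put `τ i q = rep i v`. If `s ∈ F` and `q, q * s ∈ U i ρ` with
chosen `v, v'` then `v⁻¹ * v' ∈ P ρ * F * P ρ ⊆ P (2 * ρ + 1)`, so `v ~ v'` and
`τ i (q * s) = τ i q`. Finally `(τ i q)⁻¹ * q = (rep i v)⁻¹ * v * v⁻¹ * q ∈ E₀ * P ρ =: B` (use
`Chain.symm` to get `(rep i v)⁻¹ * v ∈ E₀`).
-/

set_option autoImplicit false

namespace Pool.Agent.Helper65.TH

open scoped Pointwise

theorem exists_cover {Q : Type*} [Group Q] (F : Finset Q) (t : ℕ)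
    (h : AsdimLT (Subgroup.closure (F : Set Q)) t) (ρ : ℕ) (hρ : 0 < ρ) :
    ∃ (χ : Fin t → Q → ℝ) (τ : Fin t → Q → Q) (B : Finset Q),
      (∀ i q, 0 ≤ χ i q ∧ χ i q ≤ 1) ∧ (∀ q, ∃ i, χ i q = 1) ∧
      (∀ i q, ∀ s ∈ F, |χ i (q * s) - χ i q| ≤ 1 / ρ) ∧
      (∀ i q, ∀ s ∈ F, χ i q ≠ 0 → χ i (q * s) ≠ 0 → τ i (q * s) = τ i q) ∧
      (∀ i q, χ i q ≠ 0 → (τ i q)⁻¹ * q ∈ B) := by
  classical
  set Λ : Subgroup Q := Subgroup.closure (F : Set Q) with hΛ
  set F₁ : Finset Q := F ∪ F⁻¹ ∪ {1} with hF₁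
  have h1F : (1 : Q) ∈ F₁ := by simp [hF₁]
  have hFF : ∀ s ∈ F, s ∈ F₁ := fun s hs => by simp [hF₁, hs]
  have hFinv : F₁⁻¹ = F₁ := by
    ext x
    simp only [hF₁, Finset.mem_inv', Finset.mem_union, Finset.mem_singleton, inv_inv, inv_eq_one]
    tauto
  have hFΛ : ∀ s ∈ F₁, s ∈ Λ := by
    intro s hs
    simp only [hF₁, Finset.mem_union, Finset.mem_singleton, Finset.mem_inv'] at hs
    rcases hs with (hs | hs) | hs
    · exact Subgroup.subset_closure hs
    · have : s⁻¹ ∈ Λ := Subgroup.subset_closure hs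
      exact (Subgroup.inv_mem_iff Λ).1 this
    · rw [hs]; exact Λ.one_mem
  have hPmul : ∀ {m n : ℕ} {a b : Q}, a ∈ F₁ ^ m → b ∈ F₁ ^ n → a * b ∈ F₁ ^ (m + n) := by
    intro m n a b ha hb
    rw [pow_add]
    exact Finset.mul_mem_mul ha hb
  have hPinv : ∀ {n : ℕ} {a : Q}, a ∈ F₁ ^ n → a⁻¹ ∈ F₁ ^ n := by
    intro n a ha
    have h2 : a⁻¹ ∈ (F₁ ^ n)⁻¹ := Finset.inv_mem_inv ha
    rwa [← inv_pow, hFinv] at h2
  have hP1 : ∀ n : ℕ, (1 : Q) ∈ F₁ ^ n := by
    intro n
    induction n with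
    | zero => simp
    | succ n ih =>
      have := hPmul ih (show (1 : Q) ∈ F₁ ^ 1 by simpa using h1F)
      simpa using this
  have hPmono : ∀ {m n : ℕ} {a : Q}, m ≤ n → a ∈ F₁ ^ m → a ∈ F₁ ^ n := by
    intro m n a hmn ha
    have := hPmul ha (hP1 (n - m))
    rwa [mul_one, Nat.add_sub_cancel' hmn] at this
  have hPΛ : ∀ {n : ℕ} {a : Q}, a ∈ F₁ ^ n → a ∈ Λ := by
    intro n
    induction n with
    | zero => intro a ha; simp only [pow_zero, Finset.mem_one] at ha; rw [ha]; exact Λ.one_mem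
    | succ n ih =>
      intro a ha
      rw [pow_succ] at ha
      obtain ⟨b, hb, c, hc, rfl⟩ := Finset.mem_mul.1 ha
      exact Λ.mul_mem (ih hb) (hFΛ c hc)
  -- representatives of left cosets
  set out : Q → Q := fun x => Quotient.out (QuotientGroup.mk x : Q ⧸ Λ) with hout
  have hout1 : ∀ x, (out x)⁻¹ * x ∈ Λ := by
    intro x
    rw [← QuotientGroup.eq]
    exact Quotient.out_eq' _
  have hout2 : ∀ a b, a⁻¹ * b ∈ Λ → out a = out b := by
    intro a b hab
    have : (QuotientGroup.mk a : Q ⧸ Λ) = QuotientGroup.mk b := QuotientGroup.eq.2 hab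
    simp only [hout, this]
  set part : Q → Λ := fun x => ⟨(out x)⁻¹ * x, hout1 x⟩ with hpart
  have hpart2 : ∀ a b, a⁻¹ * b ∈ Λ → (((part a)⁻¹ * part b : Λ) : Q) = a⁻¹ * b := by
    intro a b hab
    have h2 := hout2 a b hab
    simp only [hpart, Subgroup.coe_mul, Subgroup.coe_inv, h2]
    group
  obtain ⟨E₀, A₀, hcov, hA₀⟩ := h ((F₁ ^ (2 * ρ + 1)).subtype (fun x => x ∈ Λ))
  set V : Fin t → Set Q := fun i => {q | part q ∈ A₀ i} with hV
  set PS : Set Q := ((F₁ ^ (2 * ρ + 1) : Finset Q) : Set Q) with hPS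
  have hPSsymm : ∀ s ∈ PS, s⁻¹ ∈ PS := fun s hs => hPinv hs
  have hlight : ∀ i, ∀ x ∈ V i, ∀ y, Chain PS (fun b => b ∈ V i) x y →
      x⁻¹ * y ∈ E₀.image (fun x : Λ => (x : Q)) := by
    intro i x hx y hxy
    have hmem : x⁻¹ * y ∈ Λ := hxy.mem_subgroup Λ (fun s hs => hPΛ hs)
    have hch : Chain (((F₁ ^ (2 * ρ + 1)).subtype (fun x => x ∈ Λ) : Finset Λ) : Set Λ)
        (fun b => b ∈ A₀ i) (part x) (part y) := by
      refine hxy.map part ?_
      intro a b hs hb
      refine ⟨?_, hb⟩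
      rw [Finset.mem_coe, Finset.mem_subtype, hpart2 a b (hPΛ hs)]
      exact hs
    have := hA₀ i (part x) hx (part y) hch
    rw [← hpart2 x y hmem]
    exact Finset.mem_image_of_mem _ this
  -- representatives of the classes
  haveI : Nonempty Q := ⟨1⟩
  set rep : Fin t → Q → Q := fun i v => Classical.epsilon
    (fun w => Chain PS (fun b => b ∈ V i) v w) with hrep
  have hrep1 : ∀ i v, Chain PS (fun b => b ∈ V i) v (rep i v) := by
    intro i v
    exact Classical.epsilon_spec (p := fun w => Chain PS (fun b => b ∈ V i) v w)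
      ⟨v, Chain.refl _ _ _⟩
  have hrep2 : ∀ i v v', v ∈ V i → Chain PS (fun b => b ∈ V i) v v' → rep i v = rep i v' := by
    intro i v v' hv hvv
    have : (fun w => Chain PS (fun b => b ∈ V i) v w) =
        (fun w => Chain PS (fun b => b ∈ V i) v' w) := by
      funext w
      apply propext
      constructor
      · intro hw
        exact (hvv.symm hPSsymm hv).trans hw
      · intro hw
        exact hvv.trans hw
    simp only [hrep, this]
  set U : Fin t → ℕ → Set Q := fun i n => {q | ∃ v ∈ V i, v⁻¹ * q ∈ F₁ ^ n} with hU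
  have hUmono : ∀ {i m n q}, m ≤ n → q ∈ U i m → q ∈ U i n := by
    rintro i m n q hmn ⟨v, hv, hq⟩
    exact ⟨v, hv, hPmono hmn hq⟩
  have hUs : ∀ {i n q s}, s ∈ F₁ → q ∈ U i n → q * s ∈ U i (n + 1) := by
    rintro i n q s hs ⟨v, hv, hq⟩
    refine ⟨v, hv, ?_⟩
    rw [← mul_assoc]
    exact hPmul hq (by simpa using hs)
  set c : Fin t → Q → ℕ := fun i q => ((Finset.range ρ).filter (fun n => q ∈ U i n)).card with hc
  have hcle : ∀ i q, c i q ≤ ρ := by
    intro i q
    exact (Finset.card_filter_le _ _).trans (by simp)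
  have hcs : ∀ i q s, s ∈ F₁ → c i q ≤ c i (q * s) + 1 := by
    intro i q s hs
    have h2 : ((Finset.range ρ).filter (fun n => q ∈ U i n)).image Nat.succ ⊆
        insert ρ ((Finset.range ρ).filter (fun n => q * s ∈ U i n)) := by
      intro m hm
      obtain ⟨n, hn, rfl⟩ := Finset.mem_image.1 hm
      rw [Finset.mem_filter, Finset.mem_range] at hn
      rw [Finset.mem_insert, Finset.mem_filter, Finset.mem_range]
      rcases Nat.lt_or_ge (n + 1) ρ with h3 | h3
      · exact Or.inr ⟨h3, hUs hs hn.2⟩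
      · exact Or.inl (by have := hn.1; simp only [Nat.succ_eq_add_one]; omega)
    have h3 := Finset.card_le_card h2
    rw [Finset.card_image_of_injective _ Nat.succ_injective] at h3
    exact h3.trans (Finset.card_insert_le _ _)
  have hρ' : (0 : ℝ) < ρ := by exact_mod_cast hρ
  set χ : Fin t → Q → ℝ := fun i q => (c i q : ℝ) / ρ with hχ
  have hne : ∀ {i q}, χ i q ≠ 0 → q ∈ U i ρ := by
    intro i q hq
    have h2 : c i q ≠ 0 := by
      intro h0
      apply hq
      simp [hχ, h0]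
    have h3 := Finset.card_pos.1 (Nat.pos_of_ne_zero h2)
    obtain ⟨n, hn⟩ := h3
    rw [Finset.mem_filter, Finset.mem_range] at hn
    exact hUmono hn.1.le hn.2
  set w : Fin t → Q → Q := fun i q => Classical.epsilon (fun v => v ∈ V i ∧ v⁻¹ * q ∈ F₁ ^ ρ)
    with hw
  have hw1 : ∀ {i q}, q ∈ U i ρ → w i q ∈ V i ∧ (w i q)⁻¹ * q ∈ F₁ ^ ρ := by
    rintro i q ⟨v, hv, hq⟩
    exact Classical.epsilon_spec (p := fun v => v ∈ V i ∧ v⁻¹ * q ∈ F₁ ^ ρ) ⟨v, hv, hq⟩
  refine ⟨χ, fun i q => rep i (w i q), E₀.image (fun x : Λ => (x : Q)) * F₁ ^ ρ, ?_, ?_, ?_, ?_,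
    ?_⟩
  · intro i q
    constructor
    · simp only [hχ]; positivity
    · simp only [hχ]
      rw [div_le_one hρ']
      exact_mod_cast hcle i q
  · intro q
    obtain ⟨i, hi⟩ := hcov (part q)
    refine ⟨i, ?_⟩
    have h2 : ((Finset.range ρ).filter (fun n => q ∈ U i n)) = Finset.range ρ := by
      apply Finset.filter_true_of_mem
      intro n _
      exact ⟨q, hi, by rw [inv_mul_cancel]; exact hP1 n⟩
    simp only [hχ, hc, h2, Finset.card_range]
    exact div_self hρ'.ne'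
  · intro i q s hs
    have h2 := hcs i q s (hFF s hs)
    have h3 := hcs i (q * s) s⁻¹ (by
      have := Finset.inv_mem_inv (hFF s hs)
      rwa [hFinv] at this)
    rw [mul_inv_cancel_right] at h3
    simp only [hχ]
    rw [← sub_div, abs_div, abs_of_pos hρ']
    apply div_le_div_of_nonneg_right _ hρ'.le
    rw [abs_le]
    have h2' : (c i q : ℝ) ≤ c i (q * s) + 1 := by exact_mod_cast h2
    have h3' : (c i (q * s) : ℝ) ≤ c i q + 1 := by exact_mod_cast h3
    constructor <;> linarith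
  · intro i q s hs hq hqs
    obtain ⟨h1, h2⟩ := hw1 (hne hq)
    obtain ⟨h3, h4⟩ := hw1 (hne hqs)
    have h5 : (w i q)⁻¹ * w i (q * s) ∈ PS := by
      have h6 : (w i q)⁻¹ * w i (q * s) =
          ((w i q)⁻¹ * q) * s * ((w i (q * s))⁻¹ * (q * s))⁻¹ := by group
      rw [h6, hPS, Finset.mem_coe]
      have h7 := hPmul (hPmul h2 (show s ∈ F₁ ^ 1 by simpa using hFF s hs)) (hPinv h4)
      have h8 : ρ + 1 + ρ = 2 * ρ + 1 := by ring
      rwa [h8] at h7
    exact (hrep2 i _ _ h1 ((Chain.refl _ _ _).step h5 h3)).symm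
  · intro i q hq
    obtain ⟨h1, h2⟩ := hw1 (hne hq)
    have h3 := hrep1 i (w i q)
    have h4 : (rep i (w i q))⁻¹ * w i q ∈ E₀.image (fun x : Λ => (x : Q)) :=
      hlight i _ (h3.last (P := fun b => b ∈ V i) h1) _ (h3.symm hPSsymm h1)
    have h5 : (rep i (w i q))⁻¹ * q = ((rep i (w i q))⁻¹ * w i q) * ((w i q)⁻¹ * q) := by group
    show (rep i (w i q))⁻¹ * q ∈ _
    rw [h5]
    exact Finset.mul_mem_mul h4 h2

end Pool.Agent.Helper65.TH
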