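import Pool.Agent.Helper65.TH.ZChainB

/-!
TH-22. Chains of kernels and extensions.

Proof. `ZChain.ext` by induction on `a`, for all `L`. `a = 0`: `ZChain b (L ⊓ π.ker)` and `ZChain.mono`.
Step: let `M' ≤ L.map π` and `f' : M' →* Multiplicative ℤ` nontrivial with
`ZChain a (f'.ker.map M'.subtype)`. Put `M = L ⊓ M'.comap π`; `π` maps `M` onto `M'` (elements of `M'` are
images of elements of `L`), `f : M →* Multiplicative ℤ`, `f x = f' ⟨π x, _⟩`, is nontrivial. Let
`K = f.ker.map M.subtype = {x ∈ M | f x = 1}`. Then `K.map π = f'.ker.map M'.subtype` and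
`K ⊓ π.ker = L ⊓ π.ker` (for `x ∈ L` with `π x = 1` one has `x ∈ M` and `f x = 1`). By induction
`ZChain (a + b) K`, hence `ZChain (a + b + 1) L`; `a + 1 + b = a + b + 1`.
`locHirsch_of_injective`: `K.map f` is finitely generated, `ZChain.map_injective`.
`locHirsch_of_surjective`: let `K ≤ Q` be finitely generated; there is a finitely generated `H ≤ G` with
`H.map f = K` (lift the generators); `ZChain (k + 1) (H.map f)` and `ZChain 0 _` give
`ZChain (k + 1) H` by `ZChain.ext`.
-/

set_option autoImplicit false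

namespace Pool.Agent.Helper65.TH

theorem ZChain.ext {G Q : Type*} [Group G] [Group Q] (π : G →* Q) {a b : ℕ} {L : Subgroup G}
    (ha : ZChain a (L.map π)) (hb : ZChain b (L ⊓ π.ker)) : ZChain (a + b) L := by
  induction a generalizing L with
  | zero =>
    rw [Nat.zero_add]
    exact hb.mono inf_le_left
  | succ a ih =>
    obtain ⟨M', hM', f', ⟨x', hx'⟩, hch⟩ := ha
    set M : Subgroup G := L ⊓ M'.comap π with hM
    have hmem : ∀ x : M, (π.comp M.subtype) x ∈ M' := fun x => (Subgroup.mem_inf.1 x.2).2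
    set φ : M →* M' := (π.comp M.subtype).codRestrict M' hmem with hφ
    have hφv : ∀ x : M, ((φ x : M') : Q) = π x := fun x => rfl
    have hlift : ∀ z : M', ∃ x : M, φ x = z := by
      intro z
      obtain ⟨x, hx, hxz⟩ := Subgroup.mem_map.1 (hM' z.2)
      refine ⟨⟨x, Subgroup.mem_inf.2 ⟨hx, ?_⟩⟩, ?_⟩
      · rw [Subgroup.mem_comap, hxz]
        exact z.2
      · apply Subtype.ext
        rw [hφv]
        exact hxz
    have hK1 : ((f'.comp φ).ker.map M.subtype).map π = f'.ker.map M'.subtype := by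
      ext z
      simp only [Subgroup.mem_map, MonoidHom.mem_ker, MonoidHom.comp_apply, Subgroup.subtype_apply]
      constructor
      · rintro ⟨y, ⟨x, hx, rfl⟩, rfl⟩
        exact ⟨φ x, hx, hφv x⟩
      · rintro ⟨w, hw, rfl⟩
        obtain ⟨x, rfl⟩ := hlift w
        exact ⟨x, ⟨x, hw, rfl⟩, (hφv x).symm⟩
    have hK2 : ((f'.comp φ).ker.map M.subtype) ⊓ π.ker = L ⊓ π.ker := by
      ext z
      simp only [Subgroup.mem_inf, Subgroup.mem_map, MonoidHom.mem_ker, MonoidHom.comp_apply,
        Subgroup.subtype_apply]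
      constructor
      · rintro ⟨⟨x, hx, rfl⟩, hz⟩
        exact ⟨(Subgroup.mem_inf.1 x.2).1, hz⟩
      · rintro ⟨hz, hz1⟩
        refine ⟨⟨⟨z, Subgroup.mem_inf.2 ⟨hz, ?_⟩⟩, ?_, rfl⟩, hz1⟩
        · rw [Subgroup.mem_comap, hz1]
          exact M'.one_mem
        · have h1 : φ ⟨z, Subgroup.mem_inf.2 ⟨hz, by
            rw [Subgroup.mem_comap, hz1]; exact M'.one_mem⟩⟩ = 1 := by
            apply Subtype.ext
            rw [hφv]
            exact hz1
          rw [h1, map_one]
    have h3 := ih (L := (f'.comp φ).ker.map M.subtype) (by rw [hK1]; exact hch)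
      (by rw [hK2]; exact hb)
    rw [show a + 1 + b = (a + b) + 1 by omega]
    obtain ⟨x, hx⟩ := hlift x'
    exact ⟨M, inf_le_left, f'.comp φ, ⟨x, by rw [MonoidHom.comp_apply, hx]; exact hx'⟩, h3⟩

theorem exists_fg_map_eq {G Q : Type*} [Group G] [Group Q] (f : G →* Q)
    (hf : Function.Surjective f) (K : Subgroup Q) (hK : K.FG) :
    ∃ H : Subgroup G, H.FG ∧ H.map f = K := by
  classical
  obtain ⟨S, hS⟩ := hK
  refine ⟨Subgroup.closure ((S.image (Function.surjInv hf) : Finset G) : Set G), ⟨_, rfl⟩, ?_⟩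
  rw [MonoidHom.map_closure, ← hS]
  congr 1
  ext z
  simp only [Set.mem_image, Finset.mem_coe, Finset.mem_image]
  constructor
  · rintro ⟨y, ⟨w, hw, rfl⟩, rfl⟩
    rw [Function.surjInv_eq hf w]
    exact hw
  · intro hz
    exact ⟨_, ⟨z, hz, rfl⟩, Function.surjInv_eq hf z⟩

theorem locHirsch_of_injective {G H : Type*} [Group G] [Group H] (f : H →* G)
    (hf : Function.Injective f) (h : LocHirsch G) : LocHirsch H := by
  classical
  intro K hK
  obtain ⟨S, hS⟩ := hK
  have hK' : (K.map f).FG := by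
    refine ⟨S.image f, ?_⟩
    rw [Finset.coe_image, ← MonoidHom.map_closure, hS]
  obtain ⟨k, hk⟩ := h (K.map f) hK'
  exact ⟨k, fun hz => hk (hz.map_injective f hf)⟩

theorem locHirsch_of_surjective {G Q : Type*} [Group G] [Group Q] (f : G →* Q)
    (hf : Function.Surjective f) (h : LocHirsch G) : LocHirsch Q := by
  intro K hK
  obtain ⟨H, hH, hHK⟩ := exists_fg_map_eq f hf K hK
  obtain ⟨k, hk⟩ := h H hH
  refine ⟨k, fun hz => hk ?_⟩
  have h2 := ZChain.ext f (a := k + 1) (b := 0) (L := H) (by rw [hHK]; exact hz) trivial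
  exact h2

end Pool.Agent.Helper65.TH
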