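import Pool.Agent.Helper65.TH.Local
import Pool.Agent.Helper65.TH.BaseT
import Pool.Agent.Helper65.TH.ZExt

/-!
TH-24. The property `HThin`: directed unions, isomorphisms, finite groups, the integers.

Proof. `HThin.union`: assume `LocHirsch G`, `HirschLE L k`. By `thin_of_union` it is enough to show
`Thin (L.subgroupOf H) k` for `H ∈ S`; `LocHirsch H` by `locHirsch_of_injective`, and
`HirschLE (L.subgroupOf H) k` because `ZChain (k + 1) (L.subgroupOf H)` would give, by
`ZChain.map_injective` with `H.subtype` and `ZChain.mono`, `ZChain (k + 1) L`.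
`HThin.equiv`: transport with `Thin.comap` (or `Thin.map_equiv`) and `ZChain.map_injective`.
`hthin_finite`: `thin_of_finite` and `Thin.mono_right`. `hthin_int`: if `L = ⊥` use `thin_bot` and
`Thin.mono_right`; otherwise `ZChain 1 L` (`zchain_one_int`), so `k ≥ 1` if `HirschLE L k`
(`ZChain.le`), and `Thin L 1` by `thin_int` and `Thin.mono_left`.
-/

set_option autoImplicit false

namespace Pool.Agent.Helper65.TH

theorem HThin.union {G : Type*} [Group G] (S : Set (Subgroup G))
    (hdir : DirectedOn (· ≤ ·) S) (hcov : ∀ x : G, ∃ H ∈ S, x ∈ H) (h : ∀ H ∈ S, HThin H) :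
    HThin G := by
  intro hloc L k hk
  refine thin_of_union S hdir hcov L k (fun H hH => ?_)
  have hlocH : LocHirsch H := locHirsch_of_injective H.subtype H.subtype_injective hloc
  refine h H hH hlocH (L.subgroupOf H) k (fun hz => hk ?_)
  refine (hz.map_injective H.subtype H.subtype_injective).mono ?_
  rw [Subgroup.subgroupOf_map_subtype]
  exact inf_le_left

theorem HThin.equiv {G H : Type*} [Group G] [Group H] (e : G ≃* H) (h : HThin G) : HThin H := by
  intro hloc L k hk
  have hlocG : LocHirsch G := locHirsch_of_injective e.toMonoidHom e.injective hloc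
  have hG : HirschLE (L.comap e.toMonoidHom) k := fun hz =>
    hk ((hz.map_injective e.toMonoidHom e.injective).mono (Subgroup.map_comap_le _ _))
  have h1 : Thin (L.comap e.toMonoidHom) k := h hlocG _ k hG
  have h2 := h1.comap e.symm.toMonoidHom e.symm.injective
  have h3 : (L.comap e.toMonoidHom).comap e.symm.toMonoidHom = L := by
    ext x
    simp
  rw [h3] at h2
  exact h2

theorem hthin_finite (G : Type*) [Group G] (h : Finite G) : HThin G := by
  intro _ L k _
  exact (thin_of_finite L inferInstance).mono_right (Nat.zero_le k)

theorem hthin_int : HThin (Multiplicative ℤ) := by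
  intro _ L k hk
  by_cases hL : L = ⊥
  · subst hL
    exact (thin_bot _).mono_right (Nat.zero_le k)
  · have h1 := zchain_one_int L hL
    have hk1 : 1 ≤ k := by
      by_contra hcon
      have hk0 : k = 0 := by omega
      subst hk0
      exact hk h1
    exact (thin_int.mono_left le_top).mono_right hk1

end Pool.Agent.Helper65.TH
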