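import Pool.Agent.Helper65.TH.HExt
import Pool.Agent.Helper65.TH.HBase

/-!
TH-25. Abelian groups are `HThin`.

Proof. `hthin_zpowers`: the cyclic group `Subgroup.zpowers a` is finite (`hthin_finite`) or, if `a` has infinite
order, isomorphic to `Multiplicative ℤ` (`hthin_int`, `HThin.equiv`; e.g.
`zmultiplesHom`/`zpowersHom` is injective with range `zpowers a`).
`hthin_comm_fg`: by induction on `n`: every group `G` in which all elements commute and which is
generated by a set `F` with at most `n` elements is `HThin`. `n = 0`: `G` is trivial, finite. Step: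
let `a ∈ F`; the subgroup `Subgroup.zpowers a` is normal, `f` the quotient map to `G ⧸ zpowers a`; the
quotient is generated by the images of the elements of `F \ {a}`, all its elements commute;
`f.ker = zpowers a` (`hthin_zpowers`, `HThin.equiv`); `HThin.ext`.
`hthin_comm`: `HThin.union` with `S` = the set of the finitely generated subgroups.
-/

set_option autoImplicit false

namespace Pool.Agent.Helper65.TH

universe u

theorem hthin_zpowers {G : Type u} [Group G] (a : G) : HThin (Subgroup.zpowers a) := by
  by_cases h : IsOfFinOrder a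
  · apply hthin_finite
    have := finite_zpowers.2 h
    exact this.to_subtype
  · have hinj : Function.Injective (zpowersHom G a) := by
      have h1 := injective_zpow_iff_not_isOfFinOrder.2 h
      intro x y hxy
      have : a ^ (Multiplicative.toAdd x) = a ^ (Multiplicative.toAdd y) := by
        simpa [zpowersHom_apply] using hxy
      exact Multiplicative.toAdd.injective (h1 this)
    have e1 : Multiplicative ℤ ≃* (zpowersHom G a).range := MonoidHom.ofInjective hinj
    have e2 : (zpowersHom G a).range = Subgroup.zpowers a := by
      ext x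
      constructor
      · rintro ⟨y, rfl⟩
        exact ⟨Multiplicative.toAdd y, by simp [zpowersHom_apply]⟩
      · rintro ⟨y, rfl⟩
        exact ⟨Multiplicative.ofAdd y, by simp [zpowersHom_apply]⟩
    exact hthin_int.equiv (e1.trans (MulEquiv.subgroupCongr e2))

theorem hthin_comm_fg (n : ℕ) : ∀ (G : Type u) [Group G], (∀ a b : G, a * b = b * a) →
    ∀ F : Finset G, F.card ≤ n → Subgroup.closure (F : Set G) = ⊤ → HThin G := by
  induction n with
  | zero =>
    intro G _ hc F hF hcl
    have hF0 : F = ∅ := by
      rw [← Finset.card_eq_zero]; omega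
    subst hF0
    apply hthin_finite
    have h1 : (⊥ : Subgroup G) = ⊤ := by
      rw [← hcl]; simp
    have h2 : ∀ x : G, x = 1 := by
      intro x
      have : x ∈ (⊥ : Subgroup G) := by rw [h1]; exact Subgroup.mem_top x
      exact Subgroup.mem_bot.1 this
    have : Subsingleton G := ⟨fun x y => by rw [h2 x, h2 y]⟩
    infer_instance
  | succ n ih =>
    intro G _ hc F hF hcl
    classical
    by_cases hFe : F = ∅
    · exact ih G hc F (by rw [hFe]; simp) hcl
    obtain ⟨a, ha⟩ := Finset.nonempty_iff_ne_empty.2 hFe
    have hN : (Subgroup.zpowers a).Normal :=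
      ⟨fun x hx g => by rw [hc g x, mul_assoc, mul_inv_cancel, mul_one]; exact hx⟩
    have hker : (QuotientGroup.mk' (Subgroup.zpowers a)).ker = Subgroup.zpowers a :=
      QuotientGroup.ker_mk' _
    have hsurj : Function.Surjective (QuotientGroup.mk' (Subgroup.zpowers a)) :=
      QuotientGroup.mk'_surjective _
    refine HThin.ext (QuotientGroup.mk' (Subgroup.zpowers a)) hsurj
      ((hthin_zpowers a).equiv (MulEquiv.subgroupCongr hker.symm)) ?_
    refine ih (G ⧸ Subgroup.zpowers a) ?_ ((F.erase a).image (QuotientGroup.mk' (Subgroup.zpowers a)))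
      ?_ ?_
    · intro x y
      obtain ⟨x', rfl⟩ := hsurj x
      obtain ⟨y', rfl⟩ := hsurj y
      rw [← map_mul, ← map_mul, hc]
    · refine Finset.card_image_le.trans ?_
      rw [Finset.card_erase_of_mem ha]
      omega
    · rw [eq_top_iff]
      have h1 : (⊤ : Subgroup (G ⧸ Subgroup.zpowers a)) =
          Subgroup.map (QuotientGroup.mk' (Subgroup.zpowers a)) (Subgroup.closure (F : Set G)) := by
        rw [hcl]
        symm
        exact Subgroup.map_top_of_surjective _ hsurj
      rw [h1, MonoidHom.map_closure, Subgroup.closure_le]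
      rintro _ ⟨x, hx, rfl⟩
      by_cases hxa : x = a
      · subst hxa
        have : QuotientGroup.mk' (Subgroup.zpowers x) x = 1 := by
          rw [← MonoidHom.mem_ker, hker]
          exact Subgroup.mem_zpowers x
        rw [this]
        exact Subgroup.one_mem _
      · apply Subgroup.subset_closure
        rw [Finset.coe_image]
        exact ⟨x, Finset.mem_coe.2 (Finset.mem_erase.2 ⟨hxa, hx⟩), rfl⟩

theorem hthin_comm (G : Type u) [Group G] (h : ∀ a b : G, a * b = b * a) : HThin G := by
  apply HThin.union {H : Subgroup G | H.FG}
  · intro H hH K hK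
    exact ⟨H ⊔ K, Subgroup.FG.sup hH hK, le_sup_left, le_sup_right⟩
  · intro x
    exact ⟨Subgroup.closure {x}, ⟨{x}, by simp⟩, Subgroup.subset_closure rfl⟩
  · intro H hH
    obtain ⟨⟨F, hF⟩⟩ : Group.FG H := (Group.fg_iff_subgroup_fg H).2 hH
    exact hthin_comm_fg F.card H (fun a b => Subtype.ext (h a b)) F le_rfl hF

end Pool.Agent.Helper65.TH
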