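import Pool.Agent.Helper65.TH.EBQuot
import Pool.Agent.Helper65.TH.HComm

/-!
TH-28. Elementary amenable groups are `HThin`.

Proof. `EA.eb`: induction on `EA G` (`EB.of_injective`, `EB.of_surjective`; for `ext` use the quotient
map `QuotientGroup.mk' N` with kernel `N`, and `EB.of_injective` for the identification of the
kernel with `N`). `EB.hthin`: induction on `EB G` (`hthin_finite`, `hthin_comm`, `HThin.ext`,
`HThin.union`).
-/

set_option autoImplicit false

namespace Pool.Agent.Helper65.TH

universe u

theorem EA.eb {G : Type u} [Group G] (h : EA G) : EB G := by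
  induction h with
  | finite G hG => exact EB.finite G hG
  | comm G hG => exact EB.comm G hG
  | sub G H f hf _ ih => exact ih.of_injective H f hf
  | quot G H f hf _ ih => exact ih.of_surjective H f hf
  | ext G N _ _ ih1 ih2 =>
    refine EB.ext G (G ⧸ N) (QuotientGroup.mk' N) (QuotientGroup.mk'_surjective N) ?_ ih2
    have e : (QuotientGroup.mk' N).ker = N := QuotientGroup.ker_mk' N
    exact ih1.of_injective _ (Subgroup.inclusion e.le) (Subgroup.inclusion_injective _)
  | union G S hdir hcov _ ih => exact EB.union G S hdir hcov ih

theorem EB.hthin {G : Type u} [Group G] (h : EB G) : HThin G := by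
  induction h with
  | finite G hG => exact hthin_finite G hG
  | comm G hG => exact hthin_comm G hG
  | ext G Q f hf _ _ ih1 ih2 => exact HThin.ext f hf ih1 ih2
  | union G S hdir hcov _ ih => exact HThin.union S hdir hcov ih

theorem EA.hthin {G : Type u} [Group G] (h : EA G) : HThin G := h.eb.hthin

end Pool.Agent.Helper65.TH
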