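import Pool.Agent.Helper65.TH.EBSub

/-!
TH-27. The class `EB` is closed under quotients.

Proof. By induction on `h : EB G` prove: for all `H : Type u` with `[Group H]` and all surjective
`f : G →* H`: `EB H`. `finite`, `comm`: clear. `ext` (`p : G →* Q` surjective): let
`N = p.ker.map f`, a normal subgroup of `H` (`f` surjective); the quotient map
`q : H →* H ⧸ N` is surjective with kernel `N`, which is a quotient of `p.ker` (so `EB N`, and
`EB q.ker` by `EB.of_injective`); `H ⧸ N` is a quotient of `Q`: the
homomorphism `q ∘ f` is trivial on `p.ker`, hence factors through `p` (`p` is surjective: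
`MonoidHom.liftOfSurjective` or `QuotientGroup.lift` and
`QuotientGroup.quotientKerEquivOfSurjective`), surjectively; so `EB (H ⧸ N)`. `union`: `H` is the directed
union of the `K.map f`, `K ∈ S`, which are quotients of the `K`.
-/

set_option autoImplicit false

namespace Pool.Agent.Helper65.TH

universe u

theorem EB.of_surjective {G : Type u} [Group G] (h : EB G) :
    ∀ (H : Type u) [Group H] (f : G →* H), Function.Surjective f → EB H := by
  induction h with
  | finite G hG =>
    intro H _ f hf
    exact EB.finite H (Finite.of_surjective f hf)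
  | comm G hc =>
    intro H _ f hf
    refine EB.comm H ?_
    intro a b
    obtain ⟨x, rfl⟩ := hf a
    obtain ⟨y, rfl⟩ := hf b
    rw [← map_mul, ← map_mul, hc]
  | ext G Q p hp h1 h2 ih1 ih2 =>
    intro H _ f hf
    have hN : (p.ker.map f).Normal := Subgroup.Normal.map inferInstance f hf
    have hker : (QuotientGroup.mk' (p.ker.map f)).ker = p.ker.map f := QuotientGroup.ker_mk' _
    have e1 : EB (p.ker.map f) :=
      ih1 _ (f.subgroupMap p.ker) (MonoidHom.subgroupMap_surjective f p.ker)
    have e2 : EB (QuotientGroup.mk' (p.ker.map f)).ker :=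
      EB.of_injective e1 _ (MulEquiv.subgroupCongr hker).toMonoidHom
        (MulEquiv.subgroupCongr hker).injective
    have hle : p.ker ≤ ((QuotientGroup.mk' (p.ker.map f)).comp f).ker := by
      intro x hx
      rw [MonoidHom.mem_ker, MonoidHom.comp_apply, ← MonoidHom.mem_ker, hker]
      exact ⟨x, hx, rfl⟩
    have e3 : EB (H ⧸ p.ker.map f) := by
      refine ih2 _ (p.liftOfSurjective hp ⟨(QuotientGroup.mk' (p.ker.map f)).comp f, hle⟩) ?_
      intro y
      obtain ⟨z, rfl⟩ := QuotientGroup.mk'_surjective _ y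
      obtain ⟨x, rfl⟩ := hf z
      refine ⟨p x, ?_⟩
      rw [MonoidHom.liftOfRightInverse_comp_apply]
      rfl
    exact EB.ext H _ (QuotientGroup.mk' (p.ker.map f)) (QuotientGroup.mk'_surjective _) e2 e3
  | union G S hdir hcov h ih =>
    intro H _ f hf
    refine EB.union H ((fun K : Subgroup G => K.map f) '' S) ?_ ?_ ?_
    · rintro _ ⟨K, hK, rfl⟩ _ ⟨L, hL, rfl⟩
      obtain ⟨M, hM, h1, h2⟩ := hdir K hK L hL
      exact ⟨M.map f, ⟨M, hM, rfl⟩, Subgroup.map_mono h1, Subgroup.map_mono h2⟩
    · intro y
      obtain ⟨x, rfl⟩ := hf y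
      obtain ⟨K, hK, hx⟩ := hcov x
      exact ⟨K.map f, ⟨K, hK, rfl⟩, ⟨x, hx, rfl⟩⟩
    · rintro _ ⟨K, hK, rfl⟩
      exact ih K hK _ (f.subgroupMap K) (MonoidHom.subgroupMap_surjective f K)

end Pool.Agent.Helper65.TH
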