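import Pool.Agent.Helper65.TH.Defs

/-!
TH-26. The class `EB` is closed under isomorphisms and subgroups.

Proof. By induction on `h : EB G` prove: for all `H : Type u` with `[Group H]` and all injective
`f : H →* G`: `EB H` (this contains isomorphisms). `finite`: `H` is finite. `comm`: `H` is
commutative. `ext` (`p : G →* Q` surjective, statement for `p.ker` and for `Q`): let `p' : H →* R` be
`p ∘ f` with its range `R ≤ Q` as codomain (`MonoidHom.rangeRestrict`), surjective; `EB R` since `R`
embeds in `Q`; the kernel of `p'` embeds in `p.ker` by `f`. `union`: `H` is the directed union of the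
`K.comap f`, `K ∈ S`, which embed into `K` by `f`.
-/

set_option autoImplicit false

namespace Pool.Agent.Helper65.TH

universe u

theorem EB.of_injective {G : Type u} [Group G] (h : EB G) :
    ∀ (H : Type u) [Group H] (f : H →* G), Function.Injective f → EB H := by
  induction h with
  | finite G hG =>
    intro H _ f hf
    exact EB.finite H (Finite.of_injective f hf)
  | comm G hG =>
    intro H _ f hf
    refine EB.comm H fun a b => hf ?_
    rw [map_mul, map_mul, hG]
  | ext G Q p hp h h' ih ih' =>
    intro H _ f hf
    refine EB.ext H (p.comp f).range (p.comp f).rangeRestrict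
      (p.comp f).rangeRestrict_surjective ?_ ?_
    · have hmem : ∀ x : (p.comp f).rangeRestrict.ker, f x.1 ∈ p.ker := by
        intro x
        have h1 : (p.comp f).rangeRestrict x.1 = 1 := x.2
        have h2 : (((p.comp f).rangeRestrict x.1 : (p.comp f).range) : Q) = 1 := by
          rw [h1]; rfl
        exact h2
      refine ih (p.comp f).rangeRestrict.ker
        ((f.comp (p.comp f).rangeRestrict.ker.subtype).codRestrict p.ker hmem) ?_
      intro x y hxy
      have h3 : f x.1 = f y.1 := congrArg Subtype.val hxy
      exact Subtype.ext (hf h3)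
    · exact ih' (p.comp f).range (p.comp f).range.subtype Subtype.coe_injective
  | union G S hdir hcov h ih =>
    intro H _ f hf
    refine EB.union H ((fun K : Subgroup G => K.comap f) '' S) ?_ ?_ ?_
    · rintro _ ⟨K1, hK1, rfl⟩ _ ⟨K2, hK2, rfl⟩
      obtain ⟨K, hK, h1, h2⟩ := hdir K1 hK1 K2 hK2
      exact ⟨K.comap f, ⟨K, hK, rfl⟩, Subgroup.comap_mono h1, Subgroup.comap_mono h2⟩
    · intro x
      obtain ⟨K, hK, hx⟩ := hcov (f x)
      exact ⟨K.comap f, ⟨K, hK, rfl⟩, hx⟩
    · rintro _ ⟨K, hK, rfl⟩
      refine ih K hK (K.comap f) (f.subgroupComap K) ?_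
      intro x y hxy
      have h3 : f x.1 = f y.1 := congrArg Subtype.val hxy
      exact Subtype.ext (hf h3)

end Pool.Agent.Helper65.TH
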