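import Pool.Agent.Helper65.TH.FoldReal

/-!
TH-02. Folding: unbounded light maps become bounded light maps.

Proof. Let `T` be the map of `exists_fold`. Given `F` and `ε`, apply the hypothesis with `F` and
`ε' = min ε 1 / 8` and get `γ₀` and `E`. Put `γ x i = 8 * T (γ₀ x i)`, which is in `[0, 32]`. The
bounds for the pairs and the steps: `8 * (ε' + κ) ≤ ε + 8 * κ` and `8 * ε' ≤ ε` (as `T` is
`1`-Lipschitz). Light: let `x ∈ S` and a chain from `x` to `y` with `|γ b i - γ x i| ≤ 1`, i.e.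
`|T (γ₀ b i) - T (γ₀ x i)| ≤ 1/8`, for all points `b` of the chain. Let `P i` be the predicate of
`exists_fold` for `u = γ₀ x i`. By induction along the chain (`Chain.strengthen` with
`R b := ∀ i, P i (γ₀ b i)`) all points satisfy `R` (a step `s = a⁻¹ * b ∈ F` gives
`b = a * s` and `|γ₀ b i - γ₀ a i| ≤ ε' ≤ 1/8`), so `Near (γ₀ b) (γ₀ x) 1` along the chain and
`x⁻¹ * y ∈ E` by the lightness of `γ₀`.
-/

set_option autoImplicit false

namespace Pool.Agent.Helper65.TH

theorem lightK_of_lightU {G : Type*} [Group G] {M C : Subgroup G} {b : ℕ} {Rg : Set (G × G)}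
    {κ : ℝ} {S : Set G} (hκ : 0 ≤ κ) (h : LightU M C b Rg κ S) : LightK M C b Rg (8 * κ) S := by
  obtain ⟨T, hT0, hT1, hT2⟩ := exists_fold
  intro F hF ε hε
  have hε' : 0 < min ε 1 / 8 := by positivity
  obtain ⟨γ₀, E, hr, hs, hl⟩ := h F hF (min ε 1 / 8) hε'
  have hm1 : min ε 1 ≤ ε := min_le_left _ _
  have hm2 : min ε 1 ≤ 1 := min_le_right _ _
  have hlip : ∀ u v c : ℝ, |u - v| ≤ c → |8 * T u - 8 * T v| ≤ 8 * c := by
    intro u v c huv
    have h1 := hT1 u v
    have h2 : 8 * T u - 8 * T v = 8 * (T u - T v) := by ring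
    rw [h2, abs_mul, abs_of_pos (by norm_num : (0 : ℝ) < 8)]
    linarith
  refine ⟨fun x i => 8 * T (γ₀ x i), E, ?_, ?_, ?_, ?_⟩
  · intro x i
    have := hT0 (γ₀ x i)
    exact ⟨by linarith [this.1], by linarith [this.2]⟩
  · intro p hp i
    have h1 := hlip _ _ _ (hr p hp i)
    show |8 * T (γ₀ p.1 i) - 8 * T (γ₀ p.2 i)| ≤ ε + 8 * κ
    linarith
  · intro x s hsF i
    have h1 := hlip _ _ _ (hs x s hsF i)
    show |8 * T (γ₀ (x * s) i) - 8 * T (γ₀ x i)| ≤ ε
    linarith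
  · intro x hx y hxy
    choose P hP0 hP1 hP2 using fun i => hT2 (γ₀ x i)
    have key := Chain.strengthen hxy (R := fun b => ∀ i, P i (γ₀ b i)) hP0 (by
      intro a b' _ ha hst hb i
      refine hP2 i (γ₀ a i) (γ₀ b' i) (ha i) ?_ ?_
      · have h1 := hs a (a⁻¹ * b') hst.1 i
        rw [mul_inv_cancel_left] at h1
        linarith
      · have h1 : |8 * T (γ₀ b' i) - 8 * T (γ₀ x i)| ≤ 1 := hb i
        have h2 : 8 * T (γ₀ b' i) - 8 * T (γ₀ x i) = 8 * (T (γ₀ b' i) - T (γ₀ x i)) := by ring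
        rw [h2, abs_mul, abs_of_pos (by norm_num : (0 : ℝ) < 8)] at h1
        linarith)
    exact hl x hx y (key.1.mono (fun _ h => h) (fun b' hb' i => hP1 i _ (hb'.2 i)))

end Pool.Agent.Helper65.TH
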