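import Pool.Agent.Helper65.TH.Basic

/-!
TH-01. The folding map of the real line.

Proof. `T t` is the distance from `t` to the nearest multiple of `8`, e.g.
`T t = |t - 8 * round (t / 8)|` (or the infimum; any definition will do). `0 ≤ T t ≤ 4`, `T` is
`1`-Lipschitz. The turning points are the multiples of `4`: for `p = 4 * k` and `|v - p| ≤ 4` one has
`T v = |v - p|` if `k` is even and `T v = 4 - |v - p|` if `k` is odd; between two consecutive
multiples of `4` the function `T` is affine with slope `1` or `-1`.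
Given `u` let `P v := |v - u| ≤ 1/8 ∨ ∃ k : ℤ, |u - 4 * k| ≤ 1/4 ∧ |v - 4 * k| ≤ 3/8`.
`P u` holds, `P v` implies `|v - u| ≤ 5/8 ≤ 1`. Step: let `P v`, `|v' - v| ≤ 1/8`,
`|T v' - T u| ≤ 1/8`.
Case A: `|v - u| ≤ 1/8`. Then `|v' - u| ≤ 1/4`. If some `p = 4 * k` lies between `u` and `v'`
(inclusive) then `|u - p| ≤ 1/4` and `|v' - p| ≤ 1/4`, so `P v'`. Otherwise `T` is affine with slope
`±1` between `u` and `v'`, hence `|v' - u| = |T v' - T u| ≤ 1/8`.
Case B: `|u - p| ≤ 1/4`, `|v - p| ≤ 3/8`, `p = 4 * k`. Then `|v' - p| ≤ 1/2 ≤ 4`, so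
`|T v' - T u| = ||v' - p| - |u - p||` (both parities), hence `|v' - p| ≤ 1/4 + 1/8 = 3/8`.
-/

set_option autoImplicit false

namespace Pool.Agent.Helper65.TH

private noncomputable def fT (t : ℝ) : ℝ := |t - 8 * (round (t / 8) : ℤ)|

private theorem fT_le (t : ℝ) (z : ℤ) : fT t ≤ |t - 8 * z| := by
  have h := round_le (t / 8) z
  unfold fT
  have e1 : t - 8 * ((round (t / 8) : ℤ) : ℝ) = 8 * (t / 8 - (round (t / 8) : ℤ)) := by ring
  have e2 : t - 8 * (z : ℝ) = 8 * (t / 8 - z) := by ring
  rw [e1, e2, abs_mul, abs_mul, abs_of_pos (show (0 : ℝ) < 8 by norm_num)]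
  linarith

private theorem fT_le4 (t : ℝ) : fT t ≤ 4 := by
  have h := abs_sub_round (t / 8)
  unfold fT
  have e1 : t - 8 * ((round (t / 8) : ℤ) : ℝ) = 8 * (t / 8 - (round (t / 8) : ℤ)) := by ring
  rw [e1, abs_mul, abs_of_pos (show (0 : ℝ) < 8 by norm_num)]
  linarith

private theorem fT_even (j : ℤ) {v : ℝ} (hv : |v - 8 * j| ≤ 4) : fT v = |v - 8 * j| := by
  refine le_antisymm (fT_le v j) ?_
  unfold fT
  set m : ℤ := round (v / 8) with hm
  rcases lt_trichotomy m j with h | h | h
  · have h1 : (m : ℝ) + 1 ≤ j := by exact_mod_cast h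
    have h2 := abs_le.1 hv
    have h3 := le_abs_self (v - 8 * (m : ℝ))
    rcases abs_cases (v - 8 * (j : ℝ)) with h4 | h4 <;> linarith
  · rw [h]
  · have h1 : (j : ℝ) + 1 ≤ m := by exact_mod_cast h
    have h2 := abs_le.1 hv
    have h3 := neg_le_abs (v - 8 * (m : ℝ))
    rcases abs_cases (v - 8 * (j : ℝ)) with h4 | h4 <;> linarith

private theorem fT_odd (j : ℤ) {v : ℝ} (hv : |v - (8 * j + 4)| ≤ 4) : fT v = 4 - |v - (8 * j + 4)| := by
  have h2 := abs_le.1 hv
  refine le_antisymm ?_ ?_
  · have h3 := fT_le v j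
    have h4 := fT_le v (j + 1)
    push_cast at h4
    rw [abs_of_nonneg (by linarith)] at h3
    rw [abs_of_nonpos (by linarith)] at h4
    rcases abs_cases (v - (8 * (j : ℝ) + 4)) with h5 | h5 <;> linarith
  · unfold fT
    set m : ℤ := round (v / 8) with hm
    rcases le_or_gt m j with h | h
    · have h1 : (m : ℝ) ≤ j := by exact_mod_cast h
      have h3 := le_abs_self (v - 8 * (m : ℝ))
      have h4 := neg_abs_le (v - (8 * (j : ℝ) + 4))
      linarith
    · have h1 : (j : ℝ) + 1 ≤ m := by exact_mod_cast h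
      have h3 := neg_le_abs (v - 8 * (m : ℝ))
      have h4 := le_abs_self (v - (8 * (j : ℝ) + 4))
      linarith

private theorem fT_key (k : ℤ) {u v : ℝ} (hu : |u - 4 * k| ≤ 4) (hv : |v - 4 * k| ≤ 4) :
    |fT v - fT u| = |(|v - 4 * k| - |u - 4 * k|)| := by
  rcases Int.even_or_odd' k with ⟨j, hj | hj⟩
  · have e : (4 : ℝ) * k = 8 * j := by
      rw [hj]
      push_cast
      ring
    rw [e] at hu hv ⊢
    rw [fT_even j hu, fT_even j hv]
  · have e : (4 : ℝ) * k = 8 * j + 4 := by
      rw [hj]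
      push_cast
      ring
    rw [e] at hu hv ⊢
    rw [fT_odd j hu, fT_odd j hv, ← abs_neg]
    congr 1
    ring

theorem exists_fold : ∃ T : ℝ → ℝ, (∀ t, 0 ≤ T t ∧ T t ≤ 4) ∧ (∀ s t, |T s - T t| ≤ |s - t|) ∧
    ∀ u : ℝ, ∃ P : ℝ → Prop, P u ∧ (∀ v, P v → |v - u| ≤ 1) ∧
      ∀ v v', P v → |v' - v| ≤ 1 / 8 → |T v' - T u| ≤ 1 / 8 → P v' := by
  have hlip : ∀ s t, fT s - fT t ≤ |s - t| := by
    intro s t
    have h1 := fT_le s (round (t / 8))
    have h2 : |s - 8 * ((round (t / 8) : ℤ) : ℝ)| ≤ |s - t| + fT t := by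
      unfold fT
      have e : s - 8 * ((round (t / 8) : ℤ) : ℝ) = (s - t) + (t - 8 * ((round (t / 8) : ℤ) : ℝ)) := by ring
      rw [e]
      exact abs_add_le _ _
    linarith
  refine ⟨fT, fun t => ⟨abs_nonneg _, fT_le4 t⟩, ?_, ?_⟩
  · intro s t
    rw [abs_le]
    have h1 := hlip s t
    have h2 := hlip t s
    rw [abs_sub_comm] at h2
    constructor <;> linarith
  · intro u
    refine ⟨fun v => |v - u| ≤ 1 / 8 ∨ ∃ k : ℤ, |u - 4 * k| ≤ 1 / 4 ∧ |v - 4 * k| ≤ 3 / 8, ?_, ?_, ?_⟩
    · left
      simp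
    · rintro v (h | ⟨k, h1, h2⟩)
      · linarith
      · rw [abs_le] at h1 h2 ⊢
        constructor <;> linarith
    · rintro v v' (h | ⟨k, h1, h2⟩) hv hT
      · have h3 : |v' - u| ≤ 1 / 4 := by
          rw [abs_le] at h hv ⊢
          constructor <;> linarith
        have h4 := Int.floor_le (u / 4)
        have h5 := Int.lt_floor_add_one (u / 4)
        set k : ℤ := ⌊u / 4⌋ with hk
        rw [abs_le] at h3
        rcases le_or_gt v' (4 * k) with h6 | h6
        · right
          refine ⟨k, ?_, ?_⟩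
          · rw [abs_le]
            constructor <;> linarith
          · rw [abs_le]
            constructor <;> linarith
        · rcases le_or_gt (4 * (k : ℝ) + 4) v' with h7 | h7
          · right
            refine ⟨k + 1, ?_, ?_⟩
            · rw [abs_le]
              push_cast
              constructor <;> linarith
            · rw [abs_le]
              push_cast
              constructor <;> linarith
          · left
            have h8 := fT_key k (u := u) (v := v') (by rw [abs_le]; constructor <;> linarith)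
              (by rw [abs_le]; constructor <;> linarith)
            rw [abs_of_nonneg (show 0 ≤ v' - 4 * (k : ℝ) by linarith),
              abs_of_nonneg (show 0 ≤ u - 4 * (k : ℝ) by linarith)] at h8
            have h9 : v' - 4 * (k : ℝ) - (u - 4 * k) = v' - u := by ring
            rw [h9] at h8
            rw [← h8]
            exact hT
      · right
        have h3 : |v' - 4 * (k : ℝ)| ≤ 1 / 2 := by
          rw [abs_le] at h2 hv ⊢
          constructor <;> linarith
        refine ⟨k, h1, ?_⟩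
        have h4 := fT_key k (u := u) (v := v') (by linarith) (by linarith)
        rw [h4] at hT
        have h5 := le_abs_self (|v' - 4 * (k : ℝ)| - |u - 4 * k|)
        linarith

end Pool.Agent.Helper65.TH
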