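import Pool.Agent.Helper65.TH.Basic

/-!
TH-08. The global layer of one colour.

Notation: `π : G → G ⧸ M`, `σ : G ⧸ M → G` with `π (σ q) = q` (`Quotient.out`).

Proof. Given a finite `F' ⊆ M` and `ε > 0`, take `γ`, `E` from `h` (for `F'`, `ε`). Put
`c x i = χ (π x) * γ ((σ (τ (π x)))⁻¹ * x) i`, with values in `[0, 32]`.
If `χ (π x) ≠ 0` then the class of `x' = (σ (τ (π x)))⁻¹ * x` is `(τ (π x))⁻¹ * π x ∈ B`.
Pairs `(x * s, x)`, `s ∈ F`: if `χ (π x) = 0` or `χ (π (x * s)) = 0` then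
`|c (x * s) i - c x i| ≤ 32 * |χ (π (x * s)) - χ (π x)| ≤ 32 / ρ`. Otherwise `τ` is the same for
both, so the arguments of `γ` are `x' * s` and `x'` with both classes in `B`, and
`|χ' * γ (x' * s) i - χ * γ x' i| ≤ |χ' - χ| * 32 + |γ (x' * s) i - γ x' i| ≤ 32 / ρ + ε`.
Steps `s ∈ F' ⊆ M`: `π (x * s) = π x`, so the difference is `χ * |γ (x' * s) i - γ x' i| ≤ ε`.
Light: let `χ (π x) = 1`; all points `z` of a chain with steps in `C ≤ M` have `π z = π x`, so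
`c z i = γ (u * z) i` with `u = (σ (τ (π x)))⁻¹` fixed; the translated chain (`Chain.left`, after
adding `π z = π x` with `Chain.strengthen`) is a chain for `γ` starting at `u * x`, whose class is in
`B`; so `(u * x)⁻¹ * (u * y) = x⁻¹ * y ∈ E`.
-/

set_option autoImplicit false

namespace Pool.Agent.Helper65.TH

theorem lightK_global {G : Type*} [Group G] (M C : Subgroup G) [M.Normal] (hCM : C ≤ M) {b : ℕ}
    (B : Finset (G ⧸ M)) (F : Finset G)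
    (h : LightK M C b {p | ∃ s ∈ F, p.1 = p.2 * s ∧ (p.1 : G ⧸ M) ∈ B ∧ (p.2 : G ⧸ M) ∈ B} 0
      {x | (x : G ⧸ M) ∈ B})
    (ρ : ℕ) (hρ : 0 < ρ) (χ : G ⧸ M → ℝ) (τ : G ⧸ M → G ⧸ M)
    (hχ : ∀ q, 0 ≤ χ q ∧ χ q ≤ 1)
    (hχF : ∀ q : G ⧸ M, ∀ s ∈ F, |χ (q * (s : G ⧸ M)) - χ q| ≤ 1 / ρ)
    (hτ : ∀ q : G ⧸ M, ∀ s ∈ F, χ q ≠ 0 → χ (q * (s : G ⧸ M)) ≠ 0 →
      τ (q * (s : G ⧸ M)) = τ q)
    (hB : ∀ q, χ q ≠ 0 → (τ q)⁻¹ * q ∈ B) :
    LightK M C b {p | ∃ s ∈ F, p.1 = p.2 * s} (32 / ρ) {x | χ (x : G ⧸ M) = 1} := by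
  intro F' hF' ε hε
  obtain ⟨γ, E, hb, hr, hs, hl⟩ := h F' hF' ε hε
  -- the translation
  obtain ⟨w, hw⟩ : ∃ w : G ⧸ M → G, ∀ q, ((w q : G) : G ⧸ M) = q⁻¹ := by
    refine ⟨fun q => (Quotient.out q)⁻¹, fun q => ?_⟩
    rw [QuotientGroup.mk_inv, QuotientGroup.out_eq']
  -- here the classes stay in B
  have hmem : ∀ x : G, χ (x : G ⧸ M) ≠ 0 → ((w (τ (x : G ⧸ M)) * x : G) : G ⧸ M) ∈ B := by
    intro x hx
    rw [QuotientGroup.mk_mul, hw]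
    exact hB _ hx
  have hρ' : (0 : ℝ) < ρ := by exact_mod_cast hρ
  have h32 : (32 : ℝ) / ρ = 32 * (1 / ρ) := by ring
  have hpos : (0 : ℝ) < 1 / ρ := by positivity
  refine ⟨fun x i => χ (x : G ⧸ M) * γ (w (τ (x : G ⧸ M)) * x) i, E, ?_, ?_, ?_, ?_⟩
  · intro x i
    have h1 := hχ (x : G ⧸ M)
    have h2 := hb (w (τ (x : G ⧸ M)) * x) i
    refine ⟨mul_nonneg h1.1 h2.1, ?_⟩
    calc χ (x : G ⧸ M) * γ (w (τ (x : G ⧸ M)) * x) i
        ≤ 1 * γ (w (τ (x : G ⧸ M)) * x) i := mul_le_mul_of_nonneg_right h1.2 h2.1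
      _ ≤ 32 := by rw [one_mul]; exact h2.2
  · rintro ⟨p1, x⟩ ⟨s, hsF, hp⟩
    change p1 = x * s at hp
    subst hp
    intro i
    change |χ ((x * s : G) : G ⧸ M) * γ (w (τ ((x * s : G) : G ⧸ M)) * (x * s)) i -
      χ (x : G ⧸ M) * γ (w (τ (x : G ⧸ M)) * x) i| ≤ ε + 32 / ρ
    have hd := hχF (x : G ⧸ M) s hsF
    have hmul : ((x * s : G) : G ⧸ M) = (x : G ⧸ M) * (s : G ⧸ M) := QuotientGroup.mk_mul M x s
    rw [← hmul] at hd
    have b1 := hb (w (τ ((x * s : G) : G ⧸ M)) * (x * s)) i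
    have b2 := hb (w (τ (x : G ⧸ M)) * x) i
    by_cases h0 : χ (x : G ⧸ M) = 0
    · rw [h0, zero_mul, sub_zero, abs_mul, abs_of_nonneg b1.1]
      rw [h0, sub_zero] at hd
      have := mul_le_mul hd b1.2 b1.1 hpos.le
      linarith
    by_cases h1 : χ ((x * s : G) : G ⧸ M) = 0
    · rw [h1, zero_mul, zero_sub, abs_neg, abs_mul, abs_of_nonneg b2.1]
      rw [h1, zero_sub, abs_neg] at hd
      have := mul_le_mul hd b2.2 b2.1 hpos.le
      linarith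
    have hτ' : τ ((x * s : G) : G ⧸ M) = τ (x : G ⧸ M) := by
      rw [hmul]
      exact hτ _ s hsF h0 (by rw [← hmul]; exact h1)
    have m1 := hmem x h0
    have m2 := hmem (x * s) h1
    rw [hτ'] at m2 b1 ⊢
    have hn := hr (w (τ (x : G ⧸ M)) * (x * s), w (τ (x : G ⧸ M)) * x)
      ⟨s, hsF, by simp only [mul_assoc], m2, m1⟩ i
    simp only at hn
    have hx := hχ (x : G ⧸ M)
    have e1 : χ ((x * s : G) : G ⧸ M) * γ (w (τ (x : G ⧸ M)) * (x * s)) i -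
        χ (x : G ⧸ M) * γ (w (τ (x : G ⧸ M)) * x) i =
        (χ ((x * s : G) : G ⧸ M) - χ (x : G ⧸ M)) * γ (w (τ (x : G ⧸ M)) * (x * s)) i +
        χ (x : G ⧸ M) * (γ (w (τ (x : G ⧸ M)) * (x * s)) i - γ (w (τ (x : G ⧸ M)) * x) i) := by ring
    rw [e1]
    refine (abs_add_le _ _).trans ?_
    rw [abs_mul, abs_mul, abs_of_nonneg b1.1, abs_of_nonneg hx.1]
    have t1 := mul_le_mul hd b1.2 b1.1 hpos.le
    have t2 := mul_le_mul hx.2 hn (abs_nonneg _) zero_le_one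
    linarith
  · intro x s hsF i
    change |χ ((x * s : G) : G ⧸ M) * γ (w (τ ((x * s : G) : G ⧸ M)) * (x * s)) i -
      χ (x : G ⧸ M) * γ (w (τ (x : G ⧸ M)) * x) i| ≤ ε
    have hq : ((x * s : G) : G ⧸ M) = (x : G ⧸ M) := by
      rw [QuotientGroup.mk_mul_of_mem x (hF' s hsF)]
    rw [hq, ← mul_sub, abs_mul]
    have hx := hχ (x : G ⧸ M)
    have hn := hs (w (τ (x : G ⧸ M)) * x) s hsF i
    rw [mul_assoc] at hn
    rw [abs_of_nonneg hx.1]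
    have t2 := mul_le_mul hx.2 hn (abs_nonneg _) zero_le_one
    linarith
  · intro x hx y hxy
    change χ (x : G ⧸ M) = 1 at hx
    have hx0 : χ (x : G ⧸ M) ≠ 0 := by rw [hx]; exact one_ne_zero
    have hst := hxy.strengthen (R := fun z => (z : G ⧸ M) = (x : G ⧸ M)) rfl (by
      intro a b _ ha hs' _
      rw [← ha]
      have h1 : a⁻¹ * b ∈ M := hCM hs'.2
      exact ((QuotientGroup.eq).2 h1).symm)
    have hch := hst.1.left (P' := fun z => Near (γ z) (γ (w (τ (x : G ⧸ M)) * x)) 1)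
      (w (τ (x : G ⧸ M))) (by
        rintro b ⟨hb1, hb2⟩ i
        have h3 := hb1 i
        simp only [hb2, hx, one_mul] at h3
        exact h3)
    have h4 := hl (w (τ (x : G ⧸ M)) * x) (hmem x hx0) _ hch
    have h5 : (w (τ (x : G ⧸ M)) * x)⁻¹ * (w (τ (x : G ⧸ M)) * y) = x⁻¹ * y := by group
    rwa [h5] at h4

end Pool.Agent.Helper65.TH
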