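import Pool.Agent.Helper65.TH.Basic

/-!
TH-10. Theorem B: the extension theorem.

Notation: `π : G → Q` the homomorphism, `M = π.ker`.

Proof. Given a finite `F ⊆ G` and `ε > 0`. Apply `hQ` with `F.image π` and `ε`: `g₁`, `Ē ⊆ Q`. Choose
for every `y ∈ Q` an element `h y : G` such that `h 1 = 1` and such that for `y ∈ L.map π`: `h y ∈ L` and
`π (h y) = y`. Let `H` be the finite set of the `h y` for `y ∈ Ē ∪ {1}`, `y ∈ L.map π`. Let `F₂` be the
finite set of all `h`, `h⁻¹`, `h * s * h'⁻¹` (`h, h' ∈ H`, `s ∈ F`) together with `F`. Apply `hM`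
with `F₂` and `ε₂ = min (ε / 2) (1 / 8)`: `γ : G → Fin b → ℝ`, `E₂`. Put
`g x = Fin.append (g₁ (π x)) (fun i => 2 * γ x i) : Fin (a + b) → ℝ` and `E` the finite set of the
products `e * h`, `e ∈ E₂`, `h ∈ H`.
Steps: clear. Light: let `x = x_0, ..., x_k = y` be a chain with steps `s_j ∈ F ∩ L` and with
`Near (g x_j) (g x) 1`. Then the `π x_j` form a chain in `Q` with steps in `F.image π ∩ L.map π` for
`g₁`, so `y_j := (π x)⁻¹ * π x_j ∈ Ē`; also `y_j ∈ L.map π` and `y_0 = 1`. Let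
`z_j = x_j * (h y_j)⁻¹`; `z_0 = x`. Then `z_j⁻¹ * z_(j+1) = h y_j * s_j * (h y_(j+1))⁻¹ ∈ F₂`, it is
in `L` and its image under `π` is `y_j * π s_j * y_(j+1)⁻¹ = 1`, so it is in `L ⊓ M`. And
`|γ z_j i - γ x i| ≤ |γ x_j i - γ x i| + ε₂ ≤ 1/2 + 1/8 ≤ 1` (`(h y_j)⁻¹ ∈ F₂`). So the `z_j` form a
chain for `γ` (`Chain.rec'` with `R x_j := Chain (...) for g₁ (π x) (π x_j) ∧ Chain (...) for γ x z_j`) and
`x⁻¹ * z_k ∈ E₂`, hence `x⁻¹ * y = (x⁻¹ * z_k) * h y_k ∈ E`.
-/

set_option autoImplicit false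

namespace Pool.Agent.Helper65.TH

theorem near_append {a b : ℕ} {u u' : Fin a → ℝ} {v v' : Fin b → ℝ} {ε : ℝ} :
    Near (Fin.append u v) (Fin.append u' v') ε ↔ Near u u' ε ∧ Near v v' ε := by
  constructor
  · intro h
    refine ⟨fun i => ?_, fun i => ?_⟩
    · have := h (Fin.castAdd b i)
      rwa [Fin.append_left, Fin.append_left] at this
    · have := h (Fin.natAdd a i)
      rwa [Fin.append_right, Fin.append_right] at this
  · rintro ⟨h1, h2⟩ i
    refine Fin.addCases (fun j => ?_) (fun j => ?_) i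
    · rw [Fin.append_left, Fin.append_left]
      exact h1 j
    · rw [Fin.append_right, Fin.append_right]
      exact h2 j

theorem thin_ext {G Q : Type*} [Group G] [Group Q] (π : G →* Q) (L : Subgroup G) {a b : ℕ}
    (hQ : Thin (L.map π) a) (hM : Thin (L ⊓ π.ker) b) : Thin L (a + b) := by
  classical
  intro F ε hε
  obtain ⟨g₁, E₁, hs₁, hl₁⟩ := hQ (F.image π) ε hε
  have hlift : ∀ y : Q, ∃ h : G, (y = 1 → h = 1) ∧ (y ∈ L.map π → h ∈ L ∧ π h = y) := by
    intro y
    by_cases hy1 : y = 1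
    · exact ⟨1, fun _ => rfl, fun _ => ⟨L.one_mem, by rw [map_one, hy1]⟩⟩
    · by_cases hy : y ∈ L.map π
      · obtain ⟨h, hL, hπ⟩ := hy
        exact ⟨h, fun h' => absurd h' hy1, fun _ => ⟨hL, hπ⟩⟩
      · exact ⟨1, fun _ => rfl, fun h' => absurd h' hy⟩
  choose h hh1 hh using hlift
  set H : Finset G := E₁.image h with hH
  set F₂ : Finset G := H.image (fun z => z⁻¹) ∪
    (H ×ˢ F ×ˢ H).image (fun p => p.1 * p.2.1 * p.2.2⁻¹) ∪ F with hF₂
  have hε2 : 0 < min (ε / 2) (1 / 8) := lt_min (by linarith) (by norm_num)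
  obtain ⟨γ, E₂, hs₂, hl₂⟩ := hM F₂ (min (ε / 2) (1 / 8)) hε2
  refine ⟨fun x => Fin.append (g₁ (π x)) (fun i => 2 * γ x i),
    (E₂ ×ˢ H).image (fun p => p.1 * p.2), ?_, ?_⟩
  · intro x s hs
    rw [near_append]
    refine ⟨?_, fun i => ?_⟩
    · rw [map_mul]
      exact hs₁ (π x) (π s) (Finset.mem_image_of_mem π hs)
    · have hsF : s ∈ F₂ := by
        rw [hF₂]
        exact Finset.mem_union_right _ hs
      have h1 := hs₂ x s hsF i
      have h2 : 2 * γ (x * s) i - 2 * γ x i = 2 * (γ (x * s) i - γ x i) := by ring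
      rw [h2, abs_mul, abs_of_pos (by norm_num : (0 : ℝ) < 2)]
      have h3 := min_le_left (ε / 2) (1 / 8)
      linarith
  · intro x y hxy
    -- the invariant along the chain
    let R : G → Prop := fun z =>
      Chain {s | s ∈ F.image π ∧ s ∈ L.map π} (fun b => Near (g₁ b) (g₁ (π x)) 1) (π x) (π z) ∧
      Chain {s | s ∈ F₂ ∧ s ∈ L ⊓ π.ker} (fun b => Near (γ b) (γ x) 1) x
        (z * (h ((π x)⁻¹ * π z))⁻¹) ∧ (π x)⁻¹ * π z ∈ L.map π
    have hR : R y := by
      refine hxy.rec' (R := R) ?_ ?_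
      · refine ⟨Chain.refl _ _ _, ?_, ?_⟩
        · rw [inv_mul_cancel, hh1 1 rfl, inv_one, mul_one]
          exact Chain.refl _ _ _
        · rw [inv_mul_cancel]
          exact (L.map π).one_mem
      · rintro p q _ ⟨hc1, hc2, hm⟩ ⟨hsF, hsL⟩ hnear
        rw [near_append] at hnear
        have hstep : (π p)⁻¹ * π q = π (p⁻¹ * q) := by rw [map_mul, map_inv]
        have hc1' : Chain {s | s ∈ F.image π ∧ s ∈ L.map π}
            (fun b => Near (g₁ b) (g₁ (π x)) 1) (π x) (π q) := by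
          refine hc1.step ?_ hnear.1
          rw [hstep]
          exact ⟨Finset.mem_image_of_mem π hsF, Subgroup.mem_map_of_mem π hsL⟩
        have hm' : (π x)⁻¹ * π q ∈ L.map π := by
          have h1 : (π x)⁻¹ * π q = ((π x)⁻¹ * π p) * ((π p)⁻¹ * π q) := by group
          rw [h1, hstep]
          exact (L.map π).mul_mem hm (Subgroup.mem_map_of_mem π hsL)
        have hp : h ((π x)⁻¹ * π p) ∈ H := Finset.mem_image_of_mem h (hl₁ _ _ hc1)
        have hq : h ((π x)⁻¹ * π q) ∈ H := Finset.mem_image_of_mem h (hl₁ _ _ hc1')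
        obtain ⟨hpL, hpπ⟩ := hh _ hm
        obtain ⟨hqL, hqπ⟩ := hh _ hm'
        refine ⟨hc1', hc2.step ?_ ?_, hm'⟩
        · have h1 : (p * (h ((π x)⁻¹ * π p))⁻¹)⁻¹ * (q * (h ((π x)⁻¹ * π q))⁻¹) =
              h ((π x)⁻¹ * π p) * (p⁻¹ * q) * (h ((π x)⁻¹ * π q))⁻¹ := by group
          rw [h1]
          refine ⟨?_, ?_, ?_⟩
          · rw [hF₂]
            refine Finset.mem_union_left _ (Finset.mem_union_right _ ?_)
            rw [Finset.mem_image]
            exact ⟨(h ((π x)⁻¹ * π p), p⁻¹ * q, h ((π x)⁻¹ * π q)),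
              by rw [Finset.mem_product, Finset.mem_product]; exact ⟨hp, hsF, hq⟩, rfl⟩
          · exact L.mul_mem (L.mul_mem hpL hsL) (L.inv_mem hqL)
          · change π _ = 1
            rw [map_mul, map_mul, map_inv, hpπ, hqπ, ← hstep]
            group
        · have h1 : (h ((π x)⁻¹ * π q))⁻¹ ∈ F₂ := by
            rw [hF₂]
            exact Finset.mem_union_left _ (Finset.mem_union_left _
              (Finset.mem_image_of_mem (fun z => z⁻¹) hq))
          intro i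
          have h2 := hs₂ q _ h1 i
          have h3 := hnear.2 i
          have h4 : 2 * γ q i - 2 * γ x i = 2 * (γ q i - γ x i) := by ring
          rw [h4, abs_mul, abs_of_pos (by norm_num : (0 : ℝ) < 2)] at h3
          have h5 := min_le_right (ε / 2) (1 / 8 : ℝ)
          have h6 : γ (q * (h ((π x)⁻¹ * π q))⁻¹) i - γ x i =
              (γ (q * (h ((π x)⁻¹ * π q))⁻¹) i - γ q i) + (γ q i - γ x i) := by ring
          rw [h6]
          refine (abs_add_le _ _).trans ?_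
          linarith
    obtain ⟨hc1, hc2, hm⟩ := hR
    have hy : h ((π x)⁻¹ * π y) ∈ H := Finset.mem_image_of_mem h (hl₁ _ _ hc1)
    have he := hl₂ _ _ hc2
    rw [Finset.mem_image]
    refine ⟨(x⁻¹ * (y * (h ((π x)⁻¹ * π y))⁻¹), h ((π x)⁻¹ * π y)), ?_, ?_⟩
    · rw [Finset.mem_product]
      exact ⟨he, hy⟩
    · group

end Pool.Agent.Helper65.TH
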