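import Pool.Agent.Helper65.TH.ThmA
import Pool.Agent.Helper65.TH.ThmB
import Pool.Agent.Helper65.TH.ThinAsdim
import Pool.Agent.Helper65.TH.AsdimSub
import Pool.Agent.Helper65.TH.ZExt

/-!
TH-23. The property `HThin` is closed under extensions.

Proof. `locAsdim_of_hthin`: a finitely generated `H` has `HirschLE H k`, so `Thin H k`, and
`asdim_of_thin_subgroup`.
`HThin.ext`: assume `LocHirsch G`; let `L` with `HirschLE L k`. `LocHirsch f.ker`
(`locHirsch_of_injective`, `Subgroup.subtype`) and `LocHirsch Q` (`locHirsch_of_surjective`), so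
`LocAsdim Q` (`locAsdim_of_hthin`) and `LocAsdim (G ⧸ f.ker)` (`LocAsdim.of_injective` with
`QuotientGroup.quotientKerEquivOfSurjective`). By `ZChain.ext` with `b = 0` and `ZChain.mono` (or
`ZChain.ext` with `a = 0`) not both ... : the set of the `a` with `ZChain a (L.map f)` contains `0` and
is bounded by `k` (`ZChain a (L.map f)` implies `ZChain a L`, and `ZChain.le`), so there is a largest
one: `ZChain a (L.map f)` and `HirschLE (L.map f) a` (e.g. `Nat.findGreatest`, or induction); similarly
`b` for `L ⊓ f.ker`. By `ZChain.ext` `ZChain (a + b) L`, so `a + b ≤ k`. From `HThin Q`: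
`Thin (L.map f) a`. `HirschLE ((L ⊓ f.ker).subgroupOf f.ker) b` because `ZChain.map_injective` maps
it onto `L ⊓ f.ker`; from `HThin f.ker`: `Thin ((L ⊓ f.ker).subgroupOf f.ker) b`, and by
`thin_of_normal` `Thin (L ⊓ f.ker) b`. By `thin_ext` `Thin L (a + b)`, and `Thin.mono_right`.
-/

set_option autoImplicit false

namespace Pool.Agent.Helper65.TH

theorem locAsdim_of_hthin {G : Type*} [Group G] (h : HThin G) (hL : LocHirsch G) :
    LocAsdim G := by
  intro K hK
  obtain ⟨k, hk⟩ := hL K hK
  exact ⟨2 ^ k, asdim_of_thin_subgroup (h hL K k hk)⟩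

private theorem exists_last (P : ℕ → Prop) (h0 : P 0) (k : ℕ) (hb : ∀ j, P j → j ≤ k) :
    ∃ a, P a ∧ ¬ P (a + 1) := by
  by_contra hc
  push Not at hc
  have h1 : ∀ n, P n := fun n => Nat.rec h0 (fun n hn => hc n hn) n
  have h2 := hb (k + 1) (h1 (k + 1))
  omega

theorem HThin.ext {G Q : Type*} [Group G] [Group Q] (f : G →* Q)
    (hf : Function.Surjective f) (hM : HThin f.ker) (hQ : HThin Q) : HThin G := by
  intro hL L k hk
  have hLM : LocHirsch f.ker := locHirsch_of_injective f.ker.subtype f.ker.subtype_injective hL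
  have hLQ : LocHirsch Q := locHirsch_of_surjective f hf hL
  have hAQ : LocAsdim Q := locAsdim_of_hthin hQ hLQ
  have hAG : LocAsdim (G ⧸ f.ker) :=
    hAQ.of_injective (QuotientGroup.quotientKerEquivOfSurjective f hf).toMonoidHom
      (QuotientGroup.quotientKerEquivOfSurjective f hf).injective
  have hbd : ∀ j, ZChain j L → j ≤ k := by
    intro j hj
    by_contra hc
    exact hk (hj.le (by omega))
  obtain ⟨a, ha, ha'⟩ := exists_last (fun a => ZChain a (L.map f)) trivial k (by
    intro j hj
    exact hbd j (ZChain.ext f (a := j) (b := 0) hj trivial))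
  obtain ⟨b, hb, hb'⟩ := exists_last (fun b => ZChain b (L ⊓ f.ker)) trivial k (by
    intro j hj
    exact hbd j (hj.mono inf_le_left))
  have hab : a + b ≤ k := hbd _ (ZChain.ext f ha hb)
  have h1 : Thin (L.map f) a := hQ hLQ (L.map f) a ha'
  have h2 : HirschLE ((L ⊓ f.ker).subgroupOf f.ker) b := by
    intro hz
    have h3 := hz.map_injective f.ker.subtype f.ker.subtype_injective
    rw [Subgroup.subgroupOf_map_subtype, inf_assoc, inf_idem] at h3
    exact hb' h3
  have h3 : Thin (L ⊓ f.ker) b := thin_of_normal f.ker (L ⊓ f.ker) inf_le_right hAG (hM hLM _ b h2)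
  exact (thin_ext f L h1 h3).mono_right hab

end Pool.Agent.Helper65.TH
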