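import Pool.Agent.Helper65.TH.Mono
import Pool.Agent.Helper61.Apc.Core

/-!
TH-31. Lengths and thinness.

Proof. Write `d a b = gdist ℓ a b = ℓ (a⁻¹ * b)`, a pseudometric (symmetric, triangle inequality, `ℓ ≥ 0`;
see `IsLength.symm`, `IsLength.tri` in `Pool/Agent/Helper61/Apc/Core.lean`), invariant under left
multiplication. Given a finite `F` and `ε > 0` let `m ≥ 0` bound `ℓ s` for `s ∈ F`, and choose `w > 0` with
`3 * m ≤ ε * w`. `Dim` with `r = 2 * w + m` gives `D` and `A : Fin t → Set Γ`. Put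
`χ i x = max 0 (1 - (inf over a ∈ A i of d x a) / w)` (if `A i` is empty put `χ i x = 0`) and
`g x i = 3 * χ i x`. Steps: the infimum changes by at most `d (x * s) x = ℓ s ≤ m`
(`ℓ (s⁻¹) = ℓ s`), so `g` changes by at
most `3 * m / w ≤ ε`. Light: let `x` be given, `x ∈ A i`, and a chain from `x` with steps in `F ∩ C` and
`|g b i - g x i| ≤ 1`; `g x i = 3`, so `χ i b ≥ 2/3 > 0` and there is `a_b ∈ A i` with `d b a_b < w`
(`a_x = x`). For consecutive points `d a_b a_b' ≤ 2 * w + m = r`, so the `a_b` form an `r`-chain in `A i` from `x`,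
hence `d x a_b ≤ D` and `ℓ (x⁻¹ * b) ≤ D + w`. Also `x⁻¹ * b ∈ C` (`Chain.mem_subgroup`). So
`x⁻¹ * y` is in the finite set of `hfin (D + w)`.
-/

set_option autoImplicit false

namespace Pool.Agent.Helper65.TH

open Pool.Agent.Helper61.Apc

private theorem len_nonneg {Γ : Type*} [Group Γ] {ℓ : Γ → ℝ} (hℓ : IsLength ℓ) (g : Γ) : 0 ≤ ℓ g := by
  have h1 := hℓ.mul 1 1
  rw [mul_one] at h1
  have h2 := hℓ.mul g g⁻¹
  rw [mul_inv_cancel, hℓ.inv] at h2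
  linarith

private theorem inf_step {Γ : Type*} [Group Γ] {ℓ : Γ → ℝ} (hℓ : IsLength ℓ) (A : Set Γ) (x s : Γ) :
    (⨅ a : A, ℓ ((x * s)⁻¹ * a)) ≤ (⨅ a : A, ℓ (x⁻¹ * a)) + ℓ s := by
  have hbdd : ∀ x : Γ, BddBelow (Set.range fun a : A => ℓ (x⁻¹ * a)) := fun x =>
    ⟨0, by rintro _ ⟨a, rfl⟩; exact len_nonneg hℓ _⟩
  rcases isEmpty_or_nonempty A with hA | hA
  · rw [Real.iInf_of_isEmpty, Real.iInf_of_isEmpty, zero_add]
    exact len_nonneg hℓ s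
  · rw [← sub_le_iff_le_add]
    apply le_ciInf
    intro a
    have h1 := ciInf_le (hbdd (x * s)) a
    have h2 := hℓ.mul s⁻¹ (x⁻¹ * a)
    rw [hℓ.inv] at h2
    have h3 : (x * s)⁻¹ * (a : Γ) = s⁻¹ * (x⁻¹ * a) := by group
    rw [← h3] at h2
    linarith

private theorem inf_abs {Γ : Type*} [Group Γ] {ℓ : Γ → ℝ} (hℓ : IsLength ℓ) (A : Set Γ) (x s : Γ) :
    |(⨅ a : A, ℓ ((x * s)⁻¹ * a)) - (⨅ a : A, ℓ (x⁻¹ * a))| ≤ ℓ s := by
  have h1 := inf_step hℓ A x s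
  have h2 := inf_step hℓ A (x * s) s⁻¹
  rw [mul_inv_cancel_right, hℓ.inv] at h2
  rw [abs_le]
  constructor <;> linarith

theorem thin_of_length {Γ : Type*} [Group Γ] (ℓ : Γ → ℝ) (hℓ : IsLength ℓ) (t : ℕ)
    (hdim : Dim (gdist ℓ) t) (C : Subgroup Γ) (hfin : ∀ ρ : ℝ, {h : Γ | h ∈ C ∧ ℓ h ≤ ρ}.Finite) :
    Thin C t := by
  classical
  intro F ε hε
  obtain ⟨m, hm⟩ : ∃ m, m = ∑ g ∈ F, |ℓ g| := ⟨_, rfl⟩
  have hm0 : 0 ≤ m := by
    rw [hm]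
    exact Finset.sum_nonneg fun _ _ => abs_nonneg _
  have hml : ∀ s ∈ F, ℓ s ≤ m := fun s hs => by
    rw [hm]
    exact le_sum_abs hs
  obtain ⟨w, hw⟩ : ∃ w, w = max (3 * m / ε) (2 * ℓ 1) + 1 := ⟨_, rfl⟩
  have hw1 : 3 * m / ε ≤ w := by
    rw [hw]
    linarith [le_max_left (3 * m / ε) (2 * ℓ 1)]
  have hw2 : 2 * ℓ 1 + 1 ≤ w := by
    rw [hw]
    linarith [le_max_right (3 * m / ε) (2 * ℓ 1)]
  have hl1 := len_nonneg hℓ 1
  have hw0 : 0 < w := by linarith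
  have hmw : 3 * m / w ≤ ε := by
    rw [div_le_iff₀ hw0]
    rw [div_le_iff₀ hε] at hw1
    linarith
  obtain ⟨D, A, hcov, hb⟩ := hdim (2 * w + m)
  have hbdd : ∀ (i : Fin t) (x : Γ), BddBelow (Set.range fun a : A i => ℓ (x⁻¹ * a)) := fun i x =>
    ⟨0, by rintro _ ⟨a, rfl⟩; exact len_nonneg hℓ _⟩
  refine ⟨fun x i => 3 * max (1 - (⨅ a : A i, ℓ (x⁻¹ * a)) / w) 0, (hfin (D + w)).toFinset, ?_, ?_⟩
  · intro x s hs i
    show |3 * max (1 - (⨅ a : A i, ℓ ((x * s)⁻¹ * a)) / w) 0 -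
      3 * max (1 - (⨅ a : A i, ℓ (x⁻¹ * a)) / w) 0| ≤ ε
    rw [← mul_sub, abs_mul, abs_of_pos (by norm_num : (0 : ℝ) < 3)]
    have h1 := abs_max_sub_max_le_abs (1 - (⨅ a : A i, ℓ ((x * s)⁻¹ * a)) / w)
      (1 - (⨅ a : A i, ℓ (x⁻¹ * a)) / w) 0
    have h2 : |(1 - (⨅ a : A i, ℓ ((x * s)⁻¹ * a)) / w) - (1 - (⨅ a : A i, ℓ (x⁻¹ * a)) / w)| ≤
        m / w := by
      have h3 : (1 - (⨅ a : A i, ℓ ((x * s)⁻¹ * a)) / w) - (1 - (⨅ a : A i, ℓ (x⁻¹ * a)) / w) =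
          -(((⨅ a : A i, ℓ ((x * s)⁻¹ * a)) - (⨅ a : A i, ℓ (x⁻¹ * a))) / w) := by ring
      rw [h3, abs_neg, abs_div, abs_of_pos hw0]
      exact div_le_div_of_nonneg_right ((inf_abs hℓ (A i) x s).trans (hml s hs)) hw0.le
    have h4 : 3 * (m / w) = 3 * m / w := by ring
    linarith
  · intro x y hxy
    obtain ⟨i, hi⟩ := hcov x
    rw [Set.Finite.mem_toFinset]
    refine ⟨hxy.mem_subgroup C fun s hs => hs.2, ?_⟩
    have hne : Nonempty (A i) := ⟨⟨x, hi⟩⟩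
    have hgx : 3 / 2 ≤ 3 * max (1 - (⨅ a : A i, ℓ (x⁻¹ * a)) / w) 0 := by
      have h1 := ciInf_le (hbdd i x) ⟨x, hi⟩
      have h2 : ℓ (x⁻¹ * x) = ℓ 1 := by rw [inv_mul_cancel]
      rw [h2] at h1
      have h3 : (⨅ a : A i, ℓ (x⁻¹ * a)) / w ≤ 1 / 2 := by
        rw [div_le_iff₀ hw0]
        linarith
      have h4 := le_max_left (1 - (⨅ a : A i, ℓ (x⁻¹ * a)) / w) 0
      linarith
    have key : ∃ a ∈ A i, ℓ (y⁻¹ * a) < w ∧
        Relation.ReflTransGen (Step (gdist ℓ) (2 * w + m) (A i)) x a := by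
      refine hxy.rec' (R := fun b => ∃ a ∈ A i, ℓ (b⁻¹ * a) < w ∧
        Relation.ReflTransGen (Step (gdist ℓ) (2 * w + m) (A i)) x a) ?_ ?_
      · refine ⟨x, hi, ?_, Relation.ReflTransGen.refl⟩
        rw [inv_mul_cancel]
        linarith
      · rintro b c _ ⟨a, ha, hba, hch⟩ hs hP
        have hPi : |3 * max (1 - (⨅ a : A i, ℓ (c⁻¹ * a)) / w) 0 -
          3 * max (1 - (⨅ a : A i, ℓ (x⁻¹ * a)) / w) 0| ≤ 1 := hP i
        have h1 := (abs_le.1 hPi).1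
        have h2 : 0 < max (1 - (⨅ a : A i, ℓ (c⁻¹ * a)) / w) 0 := by linarith
        have h3 : 0 < 1 - (⨅ a : A i, ℓ (c⁻¹ * a)) / w := by
          rcases lt_max_iff.1 h2 with h | h
          · exact h
          · exact absurd h (lt_irrefl _)
        have h4 : (⨅ a : A i, ℓ (c⁻¹ * a)) < w := by
          have : (⨅ a : A i, ℓ (c⁻¹ * a)) / w < 1 := by linarith
          rwa [div_lt_one hw0] at this
        obtain ⟨a', ha'⟩ := exists_lt_of_ciInf_lt h4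
        refine ⟨a', a'.2, ha', hch.tail ⟨a'.2, ?_⟩⟩
        have e1 := hℓ.tri a b a'
        have e2 := hℓ.tri b c a'
        have e3 : gdist ℓ a b = ℓ (b⁻¹ * a) := by
          rw [hℓ.symm]
          rfl
        have e4 : gdist ℓ b c ≤ m := hml _ hs.1
        have e5 : gdist ℓ c a' = ℓ (c⁻¹ * a') := rfl
        linarith
    obtain ⟨a, ha, hya, hch⟩ := key
    have h1 := hb i x hi a hch
    have h2 := hℓ.tri x a y
    have h3 : gdist ℓ a y = ℓ (y⁻¹ * a) := by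
      rw [hℓ.symm]
      rfl
    have h4 : gdist ℓ x y = ℓ (x⁻¹ * y) := rfl
    linarith

end Pool.Agent.Helper65.TH
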