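import Pool.Agent.Helper65.TH.ThmA
import Pool.Agent.Helper65.TH.ThmB
import Pool.Agent.Helper65.TH.AsdimThin
import Pool.Agent.Helper65.TH.ThinAsdim

/-!
TH-17. Extensions and locally finite asymptotic dimension.

Proof. Let `H ≤ G` be finitely generated, and `M' = M.subgroupOf H`, a normal subgroup of `H`. By `hM`
and `AsdimLT.of_injective` (the map `M' → H ⊓ M`) `AsdimLT M' t₁` for some `t₁`. The group `H ⧸ M'`
embeds into `G ⧸ M` with finitely generated image (it is a quotient of `H`), so by `hQ` and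
`AsdimLT.of_injective` `AsdimLT (H ⧸ M') t₂`, and so `LocAsdim (H ⧸ M')`. By `thin_of_asdim`
`Thin (M'.subgroupOf M') t₁` and by `thin_of_normal` `Thin M' t₁` (in `H`). Also
`Thin (⊤ : Subgroup (H ⧸ M')) t₂` (`thin_of_asdim`). Apply `thin_ext` to `π = QuotientGroup.mk' M'` and
`L = ⊤`: `L.map π ≤ ⊤` and `L ⊓ π.ker = M'`; so `Thin (⊤ : Subgroup H) (t₂ + t₁)` and
`asdim_of_thin`.
-/

set_option autoImplicit false

namespace Pool.Agent.Helper65.TH

theorem locAsdim_ext {G : Type*} [Group G] (M : Subgroup G) [M.Normal]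
    (hM : ∀ H : Subgroup G, H.FG → ∃ t, AsdimLT (H ⊓ M : Subgroup G) t)
    (hQ : LocAsdim (G ⧸ M)) : LocAsdim G := by
  intro H hH
  have hHfg : Group.FG H := (Group.fg_iff_subgroup_fg H).mpr hH
  obtain ⟨t₁, ht₁⟩ := hM H hH
  -- the normal subgroup of `H`
  have h1 : AsdimLT (M.subgroupOf H) t₁ := by
    let f : M.subgroupOf H →* (H ⊓ M : Subgroup G) :=
      (H.subtype.comp (M.subgroupOf H).subtype).codRestrict (H ⊓ M) fun x => ⟨x.1.2, x.2⟩
    have hf : Function.Injective f := by
      intro x y hxy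
      have h := congrArg (fun z : (H ⊓ M : Subgroup G) => (z : G)) hxy
      exact Subtype.ext (Subtype.ext h)
    exact ht₁.of_injective f hf
  -- the quotient
  have h2 : LocAsdim (H ⧸ M.subgroupOf H) := by
    let f : H ⧸ M.subgroupOf H →* G ⧸ M := QuotientGroup.map (M.subgroupOf H) M H.subtype le_rfl
    have hf : Function.Injective f := by
      rw [injective_iff_map_eq_one]
      intro a ha
      induction a using QuotientGroup.induction_on with
      | H x =>
        have h3 : ((x : G) : G ⧸ M) = 1 := ha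
        rw [QuotientGroup.eq_one_iff] at h3 ⊢
        exact h3
    exact hQ.of_injective f hf
  have h3 : (⊤ : Subgroup (H ⧸ M.subgroupOf H)).FG := Group.FG.out
  obtain ⟨t₂, ht₂⟩ := h2 ⊤ h3
  have h4 : AsdimLT (H ⧸ M.subgroupOf H) t₂ :=
    ht₂.of_injective (Subgroup.topEquiv.symm : H ⧸ M.subgroupOf H ≃* _).toMonoidHom
      Subgroup.topEquiv.symm.injective
  have h5 : Thin (M.subgroupOf H) t₁ :=
    thin_of_normal (M.subgroupOf H) (M.subgroupOf H) le_rfl h2 (thin_of_asdim h1 _)
  have h6 : Thin (⊤ : Subgroup H) (t₂ + t₁) := by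
    refine thin_ext (QuotientGroup.mk' (M.subgroupOf H)) ⊤ (thin_of_asdim h4 _) ?_
    rw [top_inf_eq, QuotientGroup.ker_mk']
    exact h5
  exact ⟨_, asdim_of_thin h6⟩

end Pool.Agent.Helper65.TH
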