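import Pool.Agent.Helper65.TH.Defs

/-!
TH-21. Chains of kernels: first properties.

Proof. `mono`: for `k + 1` use the same `M`. `le`: it is enough to show
`ZChain (k + 1) H → ZChain k H` for all `H` by induction on `k` (`k = 0`: trivial; step: keep `M` and
`f` and apply the induction hypothesis to the kernel). `map_injective`: induction on `k`; for `M ≤ H`,
`f₀ : M →* Multiplicative ℤ` take `M.map f` and `f₀ ∘ e⁻¹`, where `e : M ≃* M.map f`
(`Subgroup.equivMapOfInjective`); its kernel, as a subgroup of `G'`, is the image under `f` of the kernel of `f₀`,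
as a subgroup of `G`. `zchain_one_int`: `M = L` and `f` the inclusion. `not_zchain_one_of_finite`: a
homomorphism from a finite group to `Multiplicative ℤ` is trivial (its values have finite order).
-/

set_option autoImplicit false

namespace Pool.Agent.Helper65.TH

theorem ZChain.mono {G : Type*} [Group G] {k : ℕ} {H H' : Subgroup G} (h : ZChain k H)
    (hH : H ≤ H') : ZChain k H' := by
  cases k with
  | zero => exact trivial
  | succ k =>
    obtain ⟨M, hM, f, hf, hk⟩ := h
    exact ⟨M, hM.trans hH, f, hf, hk⟩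

private theorem zchain_pred {G : Type*} [Group G] (k : ℕ) :
    ∀ H : Subgroup G, ZChain (k + 1) H → ZChain k H := by
  induction k with
  | zero =>
    intro H _
    exact trivial
  | succ k ih =>
    rintro H ⟨M, hM, f, hf, hk⟩
    exact ⟨M, hM, f, hf, ih _ hk⟩

theorem ZChain.le {G : Type*} [Group G] {j k : ℕ} {H : Subgroup G} (h : ZChain k H)
    (hjk : j ≤ k) : ZChain j H := by
  induction k, hjk using Nat.le_induction with
  | base => exact h
  | succ k _ ih => exact ih (zchain_pred k H h)

theorem ZChain.map_injective {G G' : Type*} [Group G] [Group G'] (f : G →* G')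
    (hf : Function.Injective f) {k : ℕ} {H : Subgroup G} (h : ZChain k H) :
    ZChain k (H.map f) := by
  induction k generalizing H with
  | zero => exact trivial
  | succ k ih =>
    obtain ⟨M, hM, f₀, ⟨x, hx⟩, hk⟩ := h
    let e : M ≃* M.map f := M.equivMapOfInjective f hf
    refine ⟨M.map f, Subgroup.map_mono hM, f₀.comp e.symm.toMonoidHom, ⟨e x, ?_⟩, ?_⟩
    · change f₀ (e.symm (e x)) ≠ 1
      rw [MulEquiv.symm_apply_apply]
      exact hx
    · have h1 := ih hk
      refine h1.mono ?_
      rintro _ ⟨y, ⟨z, hz, rfl⟩, rfl⟩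
      refine ⟨e z, ?_, ?_⟩
      · change f₀ (e.symm (e z)) = 1
        rw [MulEquiv.symm_apply_apply]
        exact hz
      · rfl

theorem zchain_one_int (L : Subgroup (Multiplicative ℤ)) (hL : L ≠ ⊥) : ZChain 1 L := by
  obtain ⟨x, hx1⟩ := (Subgroup.ne_bot_iff_exists_ne_one).1 hL
  exact ⟨L, le_rfl, L.subtype, ⟨x, fun h => hx1 (Subtype.ext h)⟩, trivial⟩

theorem not_zchain_one_of_finite {G : Type*} [Group G] (L : Subgroup G) (h : Finite L) :
    ¬ ZChain 1 L := by
  rintro ⟨M, hM, f, ⟨x, hx⟩, _⟩
  have : Finite M := Finite.of_injective (Subgroup.inclusion hM) (Subgroup.inclusion_injective hM)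
  have h1 : IsOfFinOrder x := isOfFinOrder_of_finite x
  have h2 : IsOfFinOrder (f x) := f.isOfFinOrder h1
  obtain ⟨n, hn, h3⟩ := isOfFinOrder_iff_pow_eq_one.1 h2
  apply hx
  have h4 : n • (Multiplicative.toAdd (f x)) = 0 := by
    rw [← toAdd_pow, h3]
    rfl
  have h5 : Multiplicative.toAdd (f x) = 0 := by
    rw [nsmul_eq_mul] at h4
    rcases mul_eq_zero.1 h4 with h6 | h6
    · exact absurd (by exact_mod_cast h6) hn.ne'
    · exact h6
  exact h5

end Pool.Agent.Helper65.TH
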