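import Pool.Agent.Helper65.TH.Defs
import Pool.Agent.Helper65.TH.ZChainB

/-!
TH-33. Locally finite quotients.

Proof. `ea_of_locallyFinite`: `G` is the directed union of its finitely generated subgroups, which
are finite (for a finitely generated `K = closure F` use `h F`): `EA.union`, `EA.finite`.
`locHirsch_of_locallyFinite`: a finitely generated subgroup is finite and `HirschLE H 0`: a homomorphism
from a finite group to `Multiplicative ℤ` is trivial (elements of finite order).
`fg_inf_of_locallyFinite_quotient`: `H` is finitely generated and `M.subgroupOf H` has finite index in `H`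
(the quotient `H ⧸ M.subgroupOf H` embeds into the image of `H` in `G ⧸ M`, which is finitely generated, hence
finite), so `M.subgroupOf H` is finitely generated (Schreier: in Mathlib `Subgroup.fg_of_index_ne_zero`,
an instance for subgroups of finite index of finitely generated groups), and so is its image `H ⊓ M` in
`G`.
-/

set_option autoImplicit false

namespace Pool.Agent.Helper65.TH

universe u

private theorem locFin_fg {G : Type*} [Group G]
    (h : ∀ F : Finset G, (Subgroup.closure (F : Set G) : Set G).Finite) (K : Subgroup G)
    (hK : K.FG) : Finite K := by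
  obtain ⟨F, rfl⟩ := hK
  exact (h F).to_subtype

theorem ea_of_locallyFinite (G : Type u) [Group G]
    (h : ∀ F : Finset G, (Subgroup.closure (F : Set G) : Set G).Finite) : EA G := by
  classical
  refine EA.union G {K : Subgroup G | K.FG} ?_ ?_ ?_
  · intro K hK K' hK'
    exact ⟨K ⊔ K', Subgroup.FG.sup hK hK', le_sup_left, le_sup_right⟩
  · intro x
    refine ⟨Subgroup.closure (({x} : Finset G) : Set G), ⟨{x}, rfl⟩, ?_⟩
    apply Subgroup.subset_closure
    simp
  · intro K hK
    exact EA.finite K (locFin_fg h K hK)

theorem locHirsch_of_locallyFinite (G : Type u) [Group G]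
    (h : ∀ F : Finset G, (Subgroup.closure (F : Set G) : Set G).Finite) : LocHirsch G :=
  fun H hH => ⟨0, not_zchain_one_of_finite H (locFin_fg h H hH)⟩

theorem fg_inf_of_locallyFinite_quotient {G : Type*} [Group G] (M : Subgroup G) [M.Normal]
    (h : ∀ F : Finset (G ⧸ M), (Subgroup.closure (F : Set (G ⧸ M)) : Set (G ⧸ M)).Finite)
    (H : Subgroup G) (hH : H.FG) : (H ⊓ M).FG := by
  classical
  have hfg : Group.FG H := (Group.fg_iff_subgroup_fg H).2 hH
  have hker : ((QuotientGroup.mk' M).comp H.subtype).ker = M.subgroupOf H := by
    ext x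
    rw [MonoidHom.mem_ker, Subgroup.mem_subgroupOf]
    exact QuotientGroup.eq_one_iff (x : G)
  have hrange : ((QuotientGroup.mk' M).comp H.subtype).range = H.map (QuotientGroup.mk' M) := by
    rw [MonoidHom.range_comp, Subgroup.range_subtype]
  have hfin : Finite (H.map (QuotientGroup.mk' M)) := by
    apply locFin_fg h
    obtain ⟨S, hS⟩ := hH
    refine ⟨S.image (QuotientGroup.mk' M), ?_⟩
    rw [Finset.coe_image, ← MonoidHom.map_closure, hS]
  have hidx : (M.subgroupOf H).index ≠ 0 := by
    rw [← hker, Subgroup.index_ker, hrange]
    exact Nat.card_pos.ne'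
  have hfi : (M.subgroupOf H).FiniteIndex := ⟨hidx⟩
  have h1 : Group.FG (M.subgroupOf H) := inferInstance
  have h2 : (M.subgroupOf H).FG := (Group.fg_iff_subgroup_fg _).1 h1
  obtain ⟨S, hS⟩ := h2
  refine ⟨S.image H.subtype, ?_⟩
  rw [Finset.coe_image, ← MonoidHom.map_closure, hS, Subgroup.subgroupOf_map_subtype, inf_comm]

end Pool.Agent.Helper65.TH
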