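import Pool.Agent.Helper65.TH.Basic

/-!
TH-05. The local piece over one coset.

Notation: `π = QuotientGroup.mk : G → G ⧸ M`, `w : G ⧸ M → G` with `π (w q) = q`
(`Quotient.out`). For `x : G` let `A x = w_β⁻¹ * x * (w_{π x})⁻¹ * w_β`, which is in `M` because `M` is
normal and `x * (w_{π x})⁻¹ ∈ M`.

Proof. Given a finite `F' ⊆ M` and `ε > 0`. The following are finite subsets of `M`:
`D₁ = {w_β⁻¹ * w_q * s * w_q⁻¹ * w_β | q ∈ B, s ∈ F'}` and
`D₂ = {w_β⁻¹ * w_q * s * w_q'⁻¹ * w_β | q, q' ∈ B, s ∈ F, q' = q * π s}` (for the last one: its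
class is `β⁻¹ q (π s) q'⁻¹ β = 1`). Apply `hC : Thin (C.subgroupOf M) b` with the finite set
`D₁ ∪ D₂ ∪ F'` (as a finite subset of the group `M`) and `ε`: `g : M → Fin b → ℝ` and `E₀`. Put
`γ x = g (A x)` if `π x ∈ B`, and `γ x = 0` otherwise; `E = E₀` (image in `G`).
Pairs `(x * s, x)`, `s ∈ F`, both classes in `B`: `(A x)⁻¹ * A (x * s)
= w_β⁻¹ * w_{π x} * s * (w_{π (x s)})⁻¹ * w_β ∈ D₂`.
Steps `s ∈ F' ⊆ M`: `π (x * s) = π x`; if `π x ∉ B` both values are `0`; if `π x ∈ B`: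
`(A x)⁻¹ * A (x * s) = w_β⁻¹ * w_{π x} * s * (w_{π x})⁻¹ * w_β ∈ D₁`.
Light: let `π x = β`. All points `z` of a chain with steps in `C ≤ M` have `π z = β`, and for such
points `A z = w_β⁻¹ * z`, so that the chain is mapped to a chain in `M` with steps
`(A z)⁻¹ * A z' = z⁻¹ * z' ∈ F' ∩ C` (`Chain.map` after adding `π z = β` with
`Chain.strengthen`); hence `(A x)⁻¹ * A y = x⁻¹ * y ∈ E₀`. If `β ∉ B` the lightness is not needed.
-/

set_option autoImplicit false

namespace Pool.Agent.Helper65.TH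

theorem lightU_local {G : Type*} [Group G] (M C : Subgroup G) [M.Normal] (hCM : C ≤ M) {b : ℕ}
    (hC : Thin (C.subgroupOf M) b) (B : Finset (G ⧸ M)) (F : Finset G) (β : G ⧸ M)
    (hβ : β ∈ B) :
    LightU M C b {p | ∃ s ∈ F, p.1 = p.2 * s ∧ (p.1 : G ⧸ M) ∈ B ∧ (p.2 : G ⧸ M) ∈ B} 0
      {x | (x : G ⧸ M) = β} := by
  classical
  intro F' hF' ε hε
  set w : G ⧸ M → G := fun q => Quotient.out q with hw
  have hwq : ∀ q : G ⧸ M, ((w q : G) : G ⧸ M) = q := fun q => QuotientGroup.out_eq' q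
  set A : G → G := fun x => (w β)⁻¹ * x * (w (x : G ⧸ M))⁻¹ * w β with hA
  have hAM : ∀ x, A x ∈ M := by
    intro x
    rw [← QuotientGroup.eq_one_iff]
    simp only [hA, QuotientGroup.mk_mul, QuotientGroup.mk_inv, hwq]
    group
  set a : G → M := fun x => ⟨A x, hAM x⟩ with ha
  set toM : G → M := fun x => if h : x ∈ M then ⟨x, h⟩ else 1 with htoM
  have htoM' : ∀ x, x ∈ M → ((toM x : M) : G) = x := by
    intro x hx
    simp only [htoM, dif_pos hx]
  set D : Finset M := ((B ×ˢ F').image fun p => toM ((w β)⁻¹ * w p.1 * p.2 * (w p.1)⁻¹ * w β)) ∪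
    ((((B ×ˢ B) ×ˢ F).image fun p => toM ((w β)⁻¹ * w p.1.1 * p.2 * (w p.1.2)⁻¹ * w β)) ∪
      F'.image toM) with hD
  obtain ⟨g, E₀, hg, hl⟩ := hC D ε hε
  set γ : G → Fin b → ℝ := fun x => if (x : G ⧸ M) ∈ B then g (a x) else 0 with hγ
  have key : ∀ x s : G, a (x * s) = a x *
      toM ((w β)⁻¹ * w (x : G ⧸ M) * s * (w ((x * s : G) : G ⧸ M))⁻¹ * w β) := by
    intro x s
    have e : (w β)⁻¹ * w (x : G ⧸ M) * s * (w ((x * s : G) : G ⧸ M))⁻¹ * w β =
        (A x)⁻¹ * A (x * s) := by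
      simp only [hA]
      group
    apply Subtype.ext
    rw [Subgroup.coe_mul, htoM' _ (by rw [e]; exact M.mul_mem (M.inv_mem (hAM x)) (hAM _)), e]
    simp only [ha]
    group
  refine ⟨γ, E₀.image Subtype.val, ?_, ?_, ?_⟩
  · rintro ⟨p1, p2⟩ ⟨s, hs, hp, hB1, hB2⟩
    simp only at hp hB1 hB2 ⊢
    rw [add_zero]
    simp only [hγ, if_pos hB1, if_pos hB2]
    rw [hp, key]
    refine hg _ _ ?_
    rw [← hp]
    refine Finset.mem_union_right _ (Finset.mem_union_left _ (Finset.mem_image.2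
      ⟨(((p2 : G ⧸ M), (p1 : G ⧸ M)), s), ?_, rfl⟩))
    simp only [Finset.mem_product]
    exact ⟨⟨hB2, hB1⟩, hs⟩
  · intro x s hs
    have e : ((x * s : G) : G ⧸ M) = (x : G ⧸ M) := by
      rw [QuotientGroup.mk_mul, (QuotientGroup.eq_one_iff s).2 (hF' s hs), mul_one]
    by_cases hB : (x : G ⧸ M) ∈ B
    · simp only [hγ, e, if_pos hB]
      rw [key]
      refine hg _ _ ?_
      rw [e]
      refine Finset.mem_union_left _ (Finset.mem_image.2 ⟨((x : G ⧸ M), s), ?_, rfl⟩)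
      simp only [Finset.mem_product]
      exact ⟨hB, hs⟩
    · simp only [hγ, e, if_neg hB]
      exact Near.refl _ hε.le
  · intro x hx y hxy
    have hx' : (x : G ⧸ M) = β := hx
    have hAβ : ∀ z : G, (z : G ⧸ M) = β → A z = (w β)⁻¹ * z := by
      intro z hz
      simp only [hA, hz]
      group
    obtain ⟨h1, hy⟩ := hxy.strengthen (R := fun z => (z : G ⧸ M) = β) hx' (by
      intro z z' _ hz hs _
      have h2 : z⁻¹ * z' ∈ M := hCM hs.2
      have h3 : (z : G ⧸ M) = (z' : G ⧸ M) := QuotientGroup.eq.2 h2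
      rw [← h3, hz])
    have h2 : Chain {s | s ∈ D ∧ s ∈ C.subgroupOf M} (fun b => Near (g b) (g (a x)) 1) (a x)
        (a y) := by
      refine Chain.map a ?_ h1
      intro z z' hs hP
      obtain ⟨hsF, hsC⟩ := hs
      have hsM : z⁻¹ * z' ∈ M := hCM hsC
      have h3 : (z : G ⧸ M) = (z' : G ⧸ M) := QuotientGroup.eq.2 hsM
      have hz : (z : G ⧸ M) = β := h3.trans hP.2
      have e : (a z)⁻¹ * a z' = toM (z⁻¹ * z') := by
        apply Subtype.ext
        rw [htoM' _ hsM]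
        simp only [ha, Subgroup.coe_mul, Subgroup.coe_inv]
        rw [hAβ z hz, hAβ z' hP.2]
        group
      refine ⟨⟨?_, ?_⟩, ?_⟩
      · rw [e]
        exact Finset.mem_union_right _ (Finset.mem_union_right _ (Finset.mem_image_of_mem _ hsF))
      · rw [e, Subgroup.mem_subgroupOf, htoM' _ hsM]
        exact hsC
      · have h4 := hP.1
        simp only [hγ, if_pos (show (z' : G ⧸ M) ∈ B from hP.2 ▸ hβ),
          if_pos (show (x : G ⧸ M) ∈ B from hx' ▸ hβ)] at h4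
        exact h4
    have h3 := hl _ _ h2
    refine Finset.mem_image.2 ⟨_, h3, ?_⟩
    simp only [ha, Subgroup.coe_mul, Subgroup.coe_inv]
    rw [hAβ x hx', hAβ y hy]
    group

end Pool.Agent.Helper65.TH
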