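import Pool.Agent.Helper65.TH.Unions
import Pool.Agent.Helper65.TH.LocalOne

/-!
TH-06. The local piece over a finite set of cosets.

Proof. `lightU_local` and `lightK_of_lightU` (with `κ = 0`, `8 * 0 = 0`) give `LightK ... 0
{x | x = β}` for every `β ∈ B`; then `lightK_biUnion`.
-/

set_option autoImplicit false

namespace Pool.Agent.Helper65.TH

theorem lightK_local {G : Type*} [Group G] (M C : Subgroup G) [M.Normal] (hCM : C ≤ M) {b : ℕ}
    (hC : Thin (C.subgroupOf M) b) (B : Finset (G ⧸ M)) (F : Finset G) :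
    LightK M C b {p | ∃ s ∈ F, p.1 = p.2 * s ∧ (p.1 : G ⧸ M) ∈ B ∧ (p.2 : G ⧸ M) ∈ B} 0
      {x | (x : G ⧸ M) ∈ B} := by
  have h1 : ∀ β ∈ B,
      LightK M C b {p | ∃ s ∈ F, p.1 = p.2 * s ∧ (p.1 : G ⧸ M) ∈ B ∧ (p.2 : G ⧸ M) ∈ B} 0
        {x | (x : G ⧸ M) = β} := by
    intro β hβ
    have h2 := lightK_of_lightU le_rfl (lightU_local M C hCM hC B F β hβ)
    simpa only [mul_zero] using h2
  have h3 := lightK_biUnion hCM B (fun β => {x : G | (x : G ⧸ M) = β}) h1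
  refine h3.mono le_rfl ?_ le_rfl
  intro x hx
  simp only [Set.mem_iUnion]
  exact ⟨(x : G ⧸ M), hx, rfl⟩

end Pool.Agent.Helper65.TH
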