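import Pool.Agent.Helper65.TH.Basic

/-!
TH-11. Monotonicity and restriction of thinness.

Proof. `mono_right`: write `N' = N + k` and replace `g` by `Fin.append (g x) (fun _ => 0)`.
`mono_left`: a chain with steps in `F ∩ L'` is a chain with steps in `F ∩ L` (`Chain.mono`).
`comap`: given a finite `F ⊆ H` and `ε`, apply `h` with `F.image f`; take `g ∘ f` and the finite set
`{y | f y ∈ E}` (`Finset.preimage`, `f` injective); chains are mapped by `f` (`Chain.map`).
`map_equiv`: apply `comap` to `e.symm`.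
-/

set_option autoImplicit false

namespace Pool.Agent.Helper65.TH

theorem Thin.mono_right {G : Type*} [Group G] {L : Subgroup G} {N N' : ℕ} (h : Thin L N)
    (hN : N ≤ N') : Thin L N' := by
  obtain ⟨k, rfl⟩ := Nat.exists_eq_add_of_le hN
  intro F ε hε
  obtain ⟨g, E, hs, hl⟩ := h F ε hε
  refine ⟨fun x => Fin.append (g x) (fun _ => 0), E, ?_, ?_⟩
  · intro x s hsF i
    refine Fin.addCases (fun j => ?_) (fun j => ?_) i
    · show |Fin.append (g (x * s)) (fun _ => 0) (Fin.castAdd k j) -
        Fin.append (g x) (fun _ => 0) (Fin.castAdd k j)| ≤ ε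
      rw [Fin.append_left, Fin.append_left]
      exact hs x s hsF j
    · show |Fin.append (g (x * s)) (fun _ => (0 : ℝ)) (Fin.natAdd N j) -
        Fin.append (g x) (fun _ => (0 : ℝ)) (Fin.natAdd N j)| ≤ ε
      rw [Fin.append_right, Fin.append_right, sub_self, abs_zero]
      exact hε.le
  · intro x y hxy
    refine hl x y (hxy.mono (Set.Subset.refl _) ?_)
    intro b hb j
    have h1 : |Fin.append (g b) (fun _ => (0 : ℝ)) (Fin.castAdd k j) -
        Fin.append (g x) (fun _ => (0 : ℝ)) (Fin.castAdd k j)| ≤ 1 := hb (Fin.castAdd k j)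
    rwa [Fin.append_left, Fin.append_left] at h1

theorem Thin.mono_left {G : Type*} [Group G] {L L' : Subgroup G} {N : ℕ} (h : Thin L N)
    (hL : L' ≤ L) : Thin L' N := by
  intro F ε hε
  obtain ⟨g, E, hs, hl⟩ := h F ε hε
  refine ⟨g, E, hs, fun x y hxy => hl x y (hxy.mono ?_ (fun _ hb => hb))⟩
  intro s hs'
  exact ⟨hs'.1, hL hs'.2⟩

theorem Thin.comap {G H : Type*} [Group G] [Group H] (f : H →* G) (hf : Function.Injective f)
    {L : Subgroup G} {N : ℕ} (h : Thin L N) : Thin (L.comap f) N := by
  classical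
  intro F ε hε
  obtain ⟨g, E, hs, hl⟩ := h (F.image f) ε hε
  refine ⟨fun x => g (f x), E.preimage f hf.injOn, ?_, ?_⟩
  · intro x s hsF
    show Near (g (f (x * s))) (g (f x)) ε
    rw [map_mul]
    exact hs (f x) (f s) (Finset.mem_image_of_mem f hsF)
  · intro x y hxy
    rw [Finset.mem_preimage, map_mul, map_inv]
    refine hl (f x) (f y) (hxy.map f ?_)
    intro a b hab hb
    refine ⟨⟨?_, ?_⟩, hb⟩
    · rw [← map_inv, ← map_mul]
      exact Finset.mem_image_of_mem f hab.1
    · rw [← map_inv, ← map_mul]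
      exact hab.2

theorem Thin.map_equiv {G H : Type*} [Group G] [Group H] (e : G ≃* H)
    {L : Subgroup G} {N : ℕ} (h : Thin L N) : Thin (L.map (e : G →* H)) N := by
  have h1 := h.comap (e.symm : H →* G) e.symm.injective
  have h2 : L.comap (e.symm : H →* G) = L.map (e : G →* H) := by
    ext x
    rw [Subgroup.mem_comap, Subgroup.mem_map]
    constructor
    · intro hx
      exact ⟨e.symm x, hx, by simp⟩
    · rintro ⟨y, hy, rfl⟩
      simpa using hy
  rwa [h2] at h1

end Pool.Agent.Helper65.TH
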