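import Pool.Agent.Helper65.TH.EAB
import Pool.Agent.Helper65.TH.LocExt

/-!
TH-29. Permanence: quotients which are elementary amenable with finitely generated subgroups of
finite Hirsch length.

Proof. `HThin (G ⧸ M)` by `EA.hthin`, `LocAsdim (G ⧸ M)` by `locAsdim_of_hthin`. Let `H ≤ G` be
finitely generated, `π = QuotientGroup.mk' M`. `H.map π` is finitely generated, so `HirschLE (H.map π) a` for some `a`
and `Thin (H.map π) a`. By `hK` there are `K ≤ M` with `H ⊓ M ≤ K` and `b` with `Thin (K.subgroupOf M) b`, so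
`Thin K b` by `thin_of_normal`, `Thin (H ⊓ M) b` by `Thin.mono_left`, and `Thin H (a + b)` by `thin_ext`
(`π.ker = M`). `LocAsdim G` by `locAsdim_ext`: `H ⊓ M ≤ K` and `AsdimLT K _`, from
`asdim_of_thin_subgroup` (`Thin K b` in `G`), with `AsdimLT.of_injective`.
-/

set_option autoImplicit false

namespace Pool.Agent.Helper65.TH

theorem permanence {G : Type*} [Group G] (M : Subgroup G) [M.Normal]
    (hQ : HThin (G ⧸ M)) (hH : LocHirsch (G ⧸ M))
    (hK : ∀ H : Subgroup G, H.FG → ∃ K : Subgroup G, K ≤ M ∧ H ⊓ M ≤ K ∧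
      ∃ b, Thin (K.subgroupOf M) b) :
    LocAsdim G ∧ ∀ H : Subgroup G, H.FG → ∃ N, Thin H N := by
  classical
  have hAQ : LocAsdim (G ⧸ M) := locAsdim_of_hthin hQ hH
  have hM : ∀ H : Subgroup G, H.FG → ∃ b, Thin (H ⊓ M) b := by
    intro H hHfg
    obtain ⟨K, hKM, hHK, b, hb⟩ := hK H hHfg
    exact ⟨b, (thin_of_normal M K hKM hAQ hb).mono_left hHK⟩
  refine ⟨locAsdim_ext M (fun H hHfg => ?_) hAQ, fun H hHfg => ?_⟩
  · obtain ⟨b, hb⟩ := hM H hHfg
    exact ⟨2 ^ b, asdim_of_thin_subgroup hb⟩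
  · obtain ⟨b, hb⟩ := hM H hHfg
    have hfg : (H.map (QuotientGroup.mk' M)).FG := by
      obtain ⟨S, hS⟩ := hHfg
      refine ⟨S.image (QuotientGroup.mk' M), ?_⟩
      rw [Finset.coe_image, ← MonoidHom.map_closure, hS]
    obtain ⟨a, ha⟩ := hH _ hfg
    refine ⟨a + b, thin_ext (QuotientGroup.mk' M) H (hQ hH _ a ha) ?_⟩
    rw [QuotientGroup.ker_mk']
    exact hb

end Pool.Agent.Helper65.TH
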