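import Pool.Agent.Helper65.TH.LocalB
import Pool.Agent.Helper65.TH.Cover
import Pool.Agent.Helper65.TH.Global

/-!
TH-09. Theorem A: thinness in a normal subgroup implies thinness in the group.

Proof. Given a finite `F ⊆ G` and `ε > 0`. Let `F₀ = F.image QuotientGroup.mk` (a finite subset of
`G ⧸ M`); its closure is finitely generated, so `hQ` gives `t` with
`AsdimLT (Subgroup.closure F₀) t`. Choose `ρ ≥ 1` with `1056 ^ t * (32 / ρ) ≤ ε / 2`. `exists_cover`
gives `χ, τ, B`. By `lightK_local` (for `B`, `F`) and `lightK_global` (for every colour `i : Fin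
t`) and `lightK_iUnion` we get `LightK M C b {p | ∃ s ∈ F, p.1 = p.2 * s} (1056 ^ t * (32 / ρ))
(⋃ i, {x | χ i x = 1})`, and the union is everything. Apply it to `F.filter (· ∈ M)` and `ε / 2`:
`γ`, `E`. For `s ∈ F`: `Near (γ (x * s)) (γ x) (ε / 2 + ε / 2)`. The chains with steps in `F ∩ C` are
chains with steps in `(F.filter (· ∈ M)) ∩ C`, as `C ≤ M`.
-/

set_option autoImplicit false

namespace Pool.Agent.Helper65.TH

theorem thin_of_normal {G : Type*} [Group G] (M C : Subgroup G) [M.Normal] (hCM : C ≤ M)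
    (hQ : LocAsdim (G ⧸ M)) {b : ℕ} (hC : Thin (C.subgroupOf M) b) : Thin C b := by
  classical
  intro F ε hε
  obtain ⟨t, ht⟩ := hQ (Subgroup.closure ((F.image (QuotientGroup.mk : G → G ⧸ M) : Finset (G ⧸ M)) : Set (G ⧸ M)))
    ⟨_, rfl⟩
  obtain ⟨ρ, hρ⟩ := exists_nat_ge (1056 ^ t * 64 / ε)
  have hρ0 : (0 : ℝ) < ρ := lt_of_lt_of_le (by positivity) hρ
  have hρ1 : 0 < ρ := by exact_mod_cast hρ0
  obtain ⟨χ, τ, B, hχ, hcov, hχF, hτ, hB⟩ := exists_cover _ t ht ρ hρ1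
  have hloc := lightK_local M C hCM hC B F
  have hglob : ∀ i : Fin t, LightK M C b {p | ∃ s ∈ F, p.1 = p.2 * s} (32 / ρ)
      {x | χ i (x : G ⧸ M) = 1} := fun i =>
    lightK_global M C hCM B F hloc ρ hρ1 (χ i) (τ i) (hχ i)
      (fun q s hs => hχF i q s (Finset.mem_image_of_mem _ hs))
      (fun q s hs => hτ i q s (Finset.mem_image_of_mem _ hs)) (hB i)
  have hU := lightK_iUnion hCM (by positivity) t _ hglob
  obtain ⟨γ, E, _, hR, _, hl⟩ := hU (F.filter (· ∈ M)) (fun s hs => (Finset.mem_filter.mp hs).2)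
    (ε / 2) (by positivity)
  refine ⟨γ, E, ?_, ?_⟩
  · intro x s hs
    refine (hR (x * s, x) ⟨s, hs, rfl⟩).mono ?_
    have h1 : 1056 ^ t * (32 / (ρ : ℝ)) ≤ ε / 2 := by
      rw [div_le_iff₀ hε] at hρ
      have h2 : 1056 ^ t * (32 / (ρ : ℝ)) = 1056 ^ t * 32 / ρ := by ring
      rw [h2, div_le_iff₀ hρ0]
      nlinarith
    linarith
  · intro x y hxy
    refine hl x ?_ y (hxy.mono ?_ fun _ h => h)
    · obtain ⟨i, hi⟩ := hcov (x : G ⧸ M)
      exact Set.mem_iUnion.mpr ⟨i, hi⟩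
    · rintro s ⟨hs, hsC⟩
      exact ⟨Finset.mem_filter.mpr ⟨hs, hCM hsC⟩, hsC⟩

end Pool.Agent.Helper65.TH
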