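import Pool.Agent.Helper65.TH.TDefs
import Pool.Agent.Helper65.TH.ThmA
import Pool.Agent.Helper65.TH.ThmB
import Pool.Agent.Helper65.TH.AsdimThin
import Pool.Agent.Helper65.TH.ThinAsdim

/-!
TH-35. Extensions and the property `TThin`.

Proof. `TThin.locAsdim`: `asdim_of_thin_subgroup`. `tthin_of_asdim`: `thin_of_asdim`.
`tthin_kernel`, `tthin_ext`: let `π = QuotientGroup.mk' M` (`π.ker = M`) and `H ≤ G` finitely
generated. `H.map π` is finitely generated, so `Thin (H.map π) a` for some `a`. `LocAsdim (G ⧸ M)` by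
`TThin.locAsdim`. Kernel case: `Thin ((H ⊓ M).subgroupOf M) t` by `thin_of_asdim`, so
`Thin (H ⊓ M) t` by `thin_of_normal`. Second case: let `K` be as in `hfg`; `K.subgroupOf M` is
finitely generated (it is isomorphic to `K` as `K ≤ M`; e.g. `Subgroup.fg_iff_...` or map the
generators), so `Thin (K.subgroupOf M) b`, `Thin K b` by `thin_of_normal`, `Thin (H ⊓ M) b` by
`Thin.mono_left`. Then `thin_ext`.
-/

set_option autoImplicit false

namespace Pool.Agent.Helper65.TH

theorem TThin.locAsdim {G : Type*} [Group G] (h : TThin G) : LocAsdim G := by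
  intro H hH
  obtain ⟨N, hN⟩ := h H hH
  exact ⟨2 ^ N, asdim_of_thin_subgroup hN⟩

theorem tthin_of_asdim {G : Type*} [Group G] {t : ℕ} (h : AsdimLT G t) : TThin G :=
  fun H _ => ⟨t, thin_of_asdim h H⟩

private theorem text_fg_map {G Q : Type*} [Group G] [Group Q] (f : G →* Q) {H : Subgroup G}
    (hH : H.FG) : (H.map f).FG := by
  classical
  obtain ⟨S, hS⟩ := hH
  refine ⟨S.image f, ?_⟩
  rw [Finset.coe_image, ← MonoidHom.map_closure, hS]

theorem fg_subgroupOf_of_le {G : Type*} [Group G] {K M : Subgroup G} (hK : K.FG) (hKM : K ≤ M) :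
    (K.subgroupOf M).FG := by
  classical
  obtain ⟨S, hS⟩ := hK
  have hSM : ∀ s ∈ S, s ∈ M := fun s hs => hKM (hS ▸ Subgroup.subset_closure hs)
  refine ⟨S.subtype (fun s => s ∈ M), ?_⟩
  apply Subgroup.map_injective M.subtype_injective
  rw [MonoidHom.map_closure, Subgroup.map_subgroupOf_eq_of_le hKM, ← hS]
  congr 1
  ext s
  simp only [Set.mem_image, Finset.mem_coe, Finset.mem_subtype]
  constructor
  · rintro ⟨x, hx, rfl⟩
    exact hx
  · intro hs
    exact ⟨⟨s, hSM s hs⟩, hs, rfl⟩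

theorem tthin_kernel {G : Type*} [Group G] (M : Subgroup G) [M.Normal] (t : ℕ)
    (hM : AsdimLT M t) (h : TThin (G ⧸ M)) : TThin G := by
  intro H hH
  obtain ⟨a, ha⟩ := h (H.map (QuotientGroup.mk' M)) (text_fg_map _ hH)
  have h1 : Thin (H ⊓ M) t := thin_of_normal M (H ⊓ M) inf_le_right h.locAsdim (thin_of_asdim hM _)
  refine ⟨a + t, thin_ext (QuotientGroup.mk' M) H ha ?_⟩
  rw [QuotientGroup.ker_mk']
  exact h1

theorem tthin_ext {G : Type*} [Group G] (M : Subgroup G) [M.Normal] (hM : TThin M)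
    (h : TThin (G ⧸ M))
    (hfg : ∀ H : Subgroup G, H.FG → ∃ K : Subgroup G, K.FG ∧ K ≤ M ∧ H ⊓ M ≤ K) : TThin G := by
  intro H hH
  obtain ⟨a, ha⟩ := h (H.map (QuotientGroup.mk' M)) (text_fg_map _ hH)
  obtain ⟨K, hK, hKM, hHK⟩ := hfg H hH
  obtain ⟨b, hb⟩ := hM (K.subgroupOf M) (fg_subgroupOf_of_le hK hKM)
  have h1 : Thin K b := thin_of_normal M K hKM h.locAsdim hb
  refine ⟨a + b, thin_ext (QuotientGroup.mk' M) H ha ?_⟩
  rw [QuotientGroup.ker_mk']
  exact h1.mono_left hHK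

end Pool.Agent.Helper65.TH
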