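import Pool.Agent.Helper65.TH.TDefs
import Pool.Agent.Helper65.TH.ThmA
import Pool.Agent.Helper65.TH.Local

/-!
TH-36. Towers with normal steps and the property `TThin`.

Proof. (This generalises `Towers.lean`; same proof with another start.) Let `L ≤ G` be finitely
generated, `L ≤ H n` (`exists_mem_of_fg` with `S = Set.range H`). `L.subgroupOf (H n)` is finitely generated, so
`Thin (L.subgroupOf (H n)) N` for some `N`. Claim: for all `m ≥ n` `Thin (L.subgroupOf (H m)) N`
(induction). Step: let `M = (H m).subgroupOf (H (m + 1))`, normal in `H (m + 1)`,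
`C = L.subgroupOf (H (m + 1)) ≤ M`; there is an injective homomorphism `M → H m` (elements of `M` are
elements of `G` in `H m`), and `(L.subgroupOf (H m)).comap` of it is `C.subgroupOf M`, so
`Thin (C.subgroupOf M) N` by `Thin.comap`; then `thin_of_normal` with `hquot m`. Conclude with
`thin_of_union`, for the set `S = {K | ∃ m ≥ n, K = H m}` (directed, and it covers `G`, as `H` is
monotone).
-/

set_option autoImplicit false

namespace Pool.Agent.Helper65.TH

private theorem ttower_fg {G : Type*} [Group G] {K M : Subgroup G} (hK : K.FG) (hKM : K ≤ M) :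
    (K.subgroupOf M).FG := by
  classical
  obtain ⟨S, hS⟩ := hK
  have hSM : ∀ s ∈ S, s ∈ M := fun s hs => hKM (hS ▸ Subgroup.subset_closure hs)
  refine ⟨S.subtype (fun s => s ∈ M), ?_⟩
  apply Subgroup.map_injective M.subtype_injective
  rw [MonoidHom.map_closure, Subgroup.map_subgroupOf_eq_of_le hKM, ← hS]
  congr 1
  ext s
  simp only [Set.mem_image, Finset.mem_coe, Finset.mem_subtype]
  constructor
  · rintro ⟨x, hx, rfl⟩
    exact hx
  · intro hs
    exact ⟨⟨s, hSM s hs⟩, hs, rfl⟩

theorem tthin_tower {G : Type*} [Group G] (H : ℕ → Subgroup G) (hmono : Monotone H)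
    (hcov : ∀ x, ∃ n, x ∈ H n) [∀ n, ((H n).subgroupOf (H (n + 1))).Normal]
    (hquot : ∀ n, LocAsdim (H (n + 1) ⧸ (H n).subgroupOf (H (n + 1))))
    (h : ∀ n, TThin (H n)) : TThin G := by
  intro L hL
  obtain ⟨_, ⟨n, rfl⟩, hLn⟩ := exists_mem_of_fg (Set.range H) (by
    rintro _ ⟨a, rfl⟩ _ ⟨b, rfl⟩
    exact ⟨H (max a b), ⟨_, rfl⟩, hmono (le_max_left a b), hmono (le_max_right a b)⟩) (by
    intro x
    obtain ⟨n, hn⟩ := hcov x
    exact ⟨H n, ⟨n, rfl⟩, hn⟩) L hL
  obtain ⟨N, hN⟩ := h n (L.subgroupOf (H n)) (ttower_fg hL hLn)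
  have claim : ∀ m, n ≤ m → Thin (L.subgroupOf (H m)) N := by
    intro m hm
    induction m, hm using Nat.le_induction with
    | base => exact hN
    | succ m hm ih =>
      have hle : H m ≤ H (m + 1) := hmono (Nat.le_succ m)
      have hLm : L ≤ H m := hLn.trans (hmono hm)
      refine thin_of_normal ((H m).subgroupOf (H (m + 1))) (L.subgroupOf (H (m + 1))) ?_ (hquot m) ?_
      · intro x hx
        exact hLm hx
      · exact ih.comap (Subgroup.subgroupOfEquivOfLe hle).toMonoidHom
          (Subgroup.subgroupOfEquivOfLe hle).injective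
  refine ⟨N, thin_of_union {K | ∃ m, n ≤ m ∧ K = H m} ?_ ?_ L N ?_⟩
  · rintro _ ⟨a, ha, rfl⟩ _ ⟨b, hb, rfl⟩
    exact ⟨H (max a b), ⟨_, ha.trans (le_max_left a b), rfl⟩, hmono (le_max_left a b),
      hmono (le_max_right a b)⟩
  · intro x
    obtain ⟨k, hk⟩ := hcov x
    exact ⟨H (max n k), ⟨_, le_max_left n k, rfl⟩, hmono (le_max_right n k) hk⟩
  · rintro _ ⟨m, hm, rfl⟩
    exact claim m hm

end Pool.Agent.Helper65.TH
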