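import Pool.Agent.Helper65.TH.THoms
import Pool.Agent.Helper65.TH.TExt
import Pool.Agent.Helper65.TH.TTower

/-!
TH-37. All groups of the permanence class are `TThin`.
-/

set_option autoImplicit false

namespace Pool.Agent.Helper65.TH

universe u

theorem TC.tthin {G : Type u} [Group G] (h : TC G) : TThin G := by
  induction h with
  | asdim G t h => exact tthin_of_asdim h
  | homs G m Q f _ hfin ih => exact tthin_of_homs m Q f ih hfin
  | kernel G M t hM _ ih => exact tthin_kernel M t hM ih
  | ext G M _ _ hfg ihM ih => exact tthin_ext M ihM ih hfg
  | tower G H hmono hcov hquot _ ih => exact tthin_tower H hmono hcov hquot ih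

end Pool.Agent.Helper65.TH
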