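import Pool.Agent.Helper65.TH.Defs

/-!
The permanence class.
-/

set_option autoImplicit false

namespace Pool.Agent.Helper65.TH

universe u

/-- every finitely generated subgroup is thin -/
def TThin (G : Type*) [Group G] : Prop := ∀ H : Subgroup G, H.FG → ∃ N : ℕ, Thin H N

/-- The smallest class of groups such that:
`asdim`: it contains all groups of finite asymptotic dimension;
`homs`: it contains `G` if for every finitely generated subgroup `L` there are finitely many
homomorphisms from `G` to groups in the class whose common kernel meets `L` in a finite set;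
`kernel`: it contains `G` if `G` has a normal subgroup `M` of finite asymptotic dimension with
`G ⧸ M` in the class;
`ext`: it contains `G` if `G` has a normal subgroup `M` such that `M` and `G ⧸ M` are in the class and
`H ⊓ M` is contained in a finitely generated subgroup of `M` for every finitely generated `H ≤ G`;
`tower`: it contains `G` if `G` is the union of an increasing sequence of subgroups `H n` in the
class such that `H n` is normal in `H (n + 1)` and the finitely generated subgroups of
`H (n + 1) ⧸ H n` have finite asymptotic dimension. -/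
inductive TC : (G : Type u) → [Group G] → Prop
  | asdim (G : Type u) [Group G] (t : ℕ) (h : AsdimLT G t) : TC G
  | homs (G : Type u) [Group G] (m : Subgroup G → ℕ) (Q : ∀ L : Subgroup G, Fin (m L) → Type u)
      [∀ L i, Group (Q L i)] (f : ∀ L i, G →* Q L i) (h : ∀ L i, TC (Q L i))
      (hfin : ∀ L : Subgroup G, L.FG → {g : G | g ∈ L ∧ ∀ i, f L i g = 1}.Finite) : TC G
  | kernel (G : Type u) [Group G] (M : Subgroup G) [M.Normal] (t : ℕ) (hM : AsdimLT M t)
      (h : TC (G ⧸ M)) : TC G
  | ext (G : Type u) [Group G] (M : Subgroup G) [M.Normal] (hM : TC M) (h : TC (G ⧸ M))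
      (hfg : ∀ H : Subgroup G, H.FG → ∃ K : Subgroup G, K.FG ∧ K ≤ M ∧ H ⊓ M ≤ K) : TC G
  | tower (G : Type u) [Group G] (H : ℕ → Subgroup G) (hmono : Monotone H)
      (hcov : ∀ x, ∃ n, x ∈ H n) [∀ n, ((H n).subgroupOf (H (n + 1))).Normal]
      (hquot : ∀ n, LocAsdim (H (n + 1) ⧸ (H n).subgroupOf (H (n + 1))))
      (h : ∀ n, TC (H n)) : TC G

end Pool.Agent.Helper65.TH
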