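import Pool.Agent.Helper65.TH.TDefs
import Pool.Agent.Helper65.TH.ThmB
import Pool.Agent.Helper65.TH.BaseT

/-!
TH-34. Finitely many homomorphisms with finite common kernel.

Proof. `thin_of_homs` by induction on `m`, for all `L`. `m = 0`: `L` is finite, `thin_of_finite`.
Step: let `π = f 0`, `L' = L ⊓ π.ker`. The induction hypothesis for `L'` and the remaining `m`
homomorphisms (`(L'.map (f i)) ≤ L.map (f i)`, so `Thin.mono_left`; the common kernel of the remaining
ones meets `L'` in the finite set of the hypothesis) gives `Thin (L ⊓ π.ker) b`; `thin_ext` gives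
`Thin L (a + b)` with `Thin (L.map π) a`.
`tthin_of_homs`: for finitely generated `L` the images `L.map (f i)` are finitely generated
(`Subgroup.FG.map`), so they are thin.
-/

set_option autoImplicit false

namespace Pool.Agent.Helper65.TH

universe u v

theorem thin_of_homs {G : Type v} [Group G] (m : ℕ) : ∀ (L : Subgroup G) (Q : Fin m → Type u)
    [∀ i, Group (Q i)] (f : ∀ i, G →* Q i), (∀ i, ∃ a, Thin (L.map (f i)) a) →
    {g : G | g ∈ L ∧ ∀ i, f i g = 1}.Finite → ∃ N, Thin L N := by
  induction m with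
  | zero =>
    intro L Q _ f _ hfin
    refine ⟨0, thin_of_finite L ?_⟩
    have h1 : (L : Set G).Finite := hfin.subset fun g hg => ⟨hg, fun i => i.elim0⟩
    exact h1.to_subtype
  | succ m ih =>
    intro L Q _ f hf hfin
    obtain ⟨a, ha⟩ := hf 0
    obtain ⟨b, hb⟩ := ih (L ⊓ (f 0).ker) (fun i => Q i.succ) (fun i => f i.succ) (by
      intro i
      obtain ⟨c, hc⟩ := hf i.succ
      exact ⟨c, hc.mono_left (Subgroup.map_mono inf_le_left)⟩) (by
      refine hfin.subset ?_
      rintro g ⟨hg, hg'⟩
      refine ⟨hg.1, fun i => ?_⟩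
      refine Fin.cases ?_ (fun j => ?_) i
      · exact hg.2
      · exact hg' j)
    exact ⟨a + b, thin_ext (f 0) L ha hb⟩

theorem tthin_of_homs {G : Type v} [Group G] (m : Subgroup G → ℕ)
    (Q : ∀ L : Subgroup G, Fin (m L) → Type u) [∀ L i, Group (Q L i)] (f : ∀ L i, G →* Q L i)
    (h : ∀ L i, TThin (Q L i))
    (hfin : ∀ L : Subgroup G, L.FG → {g : G | g ∈ L ∧ ∀ i, f L i g = 1}.Finite) : TThin G := by
  classical
  intro L hL
  refine thin_of_homs (m L) L (Q L) (f L) (fun i => h L i _ ?_) (hfin L hL)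
  obtain ⟨S, hS⟩ := hL
  refine ⟨S.image (f L i), ?_⟩
  rw [Finset.coe_image, ← MonoidHom.map_closure, hS]

end Pool.Agent.Helper65.TH
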