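import Pool.Agent.Helper65.TH.Basic

/-!
TH-03. Two layers.

Proof. Given a finite `F ⊆ M` and `ε > 0`. Put `ε' = min (ε / 132) (1 / 130)` and apply `h2` with `F`,
`ε'`: `γ₂`, `E₂`. Let `E₂' = E₂.filter (· ∈ M)` and let `F₁ = F ∪ E₂' ∪ (E₂' * F)` (products of
elements of `E₂'` and `F`; use `Finset.image₂` or the pointwise product), a finite subset of `M`.
Apply `h1` with `F₁` and `ε'`: `γ₁`, `E₁`. Put `γ x i = 130 * γ₁ x i + 2 * γ₂ x i` and
`E = E₁ ∪ E₂'`.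
Pairs: `130 * (ε' + κ) + 2 * (ε' + κ) ≤ ε + 132 * κ`. Steps: `132 * ε' ≤ ε`.
Light, `x ∈ S1`: along the chain `130 * |γ₁ b i - γ₁ x i| ≤ 1 + 2 * |γ₂ b i - γ₂ x i| ≤ 1 + 64`
(values of `γ₂` are in `[0, 32]`), so `Near (γ₁ b) (γ₁ x) 1` and `x⁻¹ * y ∈ E₁` (the steps are in
`F ⊆ F₁`).
Light, `x ∈ S2`: by induction along the chain `Near (γ₂ b) (γ₂ x) 1` for all points `b` of the
chain. Start: clear. Step from `a` to `b`, `a⁻¹ * b ∈ F ∩ C`: the chain up to `a` is a chain for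
`γ₂`, so `x⁻¹ * a ∈ E₂`, and it is in `C ≤ M`, so in `E₂'` (or `a = x`); hence `x⁻¹ * b ∈ E₂' * F ⊆ F₁`
and `|γ₁ b i - γ₁ x i| ≤ ε'`
(`b = x * (x⁻¹ * b)`); so `2 * |γ₂ b i - γ₂ x i| ≤ 1 + 130 * ε' ≤ 2`. (To have the chain up to
`a` available as a chain for `γ₂` prove by induction, with `Chain.rec'`, the statement
`R z := Chain {s | s ∈ F ∧ s ∈ C} (fun b => Near (γ₂ b) (γ₂ x) 1) x z`.) Then
`x⁻¹ * y ∈ E₂'`.
-/

set_option autoImplicit false

namespace Pool.Agent.Helper65.TH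

theorem lightU_two {G : Type*} [Group G] {M C : Subgroup G} (hCM : C ≤ M) {b : ℕ}
    {Rg : Set (G × G)} {κ : ℝ} {S1 S2 : Set G} (hκ : 0 ≤ κ) (h1 : LightK M C b Rg κ S1)
    (h2 : LightK M C b Rg κ S2) : LightU M C b Rg (132 * κ) (S1 ∪ S2) := by
  classical
  intro F hF ε hε
  set ε' : ℝ := min (ε / 132) (1 / 130) with hε'
  have hε0 : 0 < ε' := lt_min (by linarith) (by norm_num)
  have hε1 : 132 * ε' ≤ ε := by
    have := min_le_left (ε / 132) (1 / 130)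
    linarith
  have hε2 : 130 * ε' ≤ 1 := by
    have := min_le_right (ε / 132) (1 / 130)
    linarith
  obtain ⟨γ₂, E₂, hb2, hr2, hs2, hl2⟩ := h2 F hF ε' hε0
  set E₂' : Finset G := E₂.filter (fun g => g ∈ M) with hE₂'
  set F₁ : Finset G := (F ∪ E₂') ∪ Finset.image₂ (fun a b => a * b) E₂' F with hF₁d
  have hF₁ : ∀ s ∈ F₁, s ∈ M := by
    intro s hs
    rw [hF₁d, Finset.mem_union, Finset.mem_union] at hs
    rcases hs with (hs | hs) | hs
    · exact hF s hs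
    · exact (Finset.mem_filter.1 hs).2
    · obtain ⟨a, ha, c, hc, rfl⟩ := Finset.mem_image₂.1 hs
      exact M.mul_mem (Finset.mem_filter.1 ha).2 (hF c hc)
  have hFF : ∀ s ∈ F, s ∈ F₁ := fun s hs =>
    Finset.mem_union_left _ (Finset.mem_union_left _ hs)
  obtain ⟨γ₁, E₁, hb1, hr1, hs1, hl1⟩ := h1 F₁ hF₁ ε' hε0
  -- difference of the combined map
  have hdiff : ∀ (u v : G) (δ : ℝ), Near (γ₁ u) (γ₁ v) δ → Near (γ₂ u) (γ₂ v) δ →
      Near (fun i => 130 * γ₁ u i + 2 * γ₂ u i) (fun i => 130 * γ₁ v i + 2 * γ₂ v i) (132 * δ) := by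
    intro u v δ hu hv i
    have e1 := abs_le.1 (hu i)
    have e2 := abs_le.1 (hv i)
    show |130 * γ₁ u i + 2 * γ₂ u i - (130 * γ₁ v i + 2 * γ₂ v i)| ≤ 132 * δ
    rw [abs_le]
    constructor <;> linarith [e1.1, e1.2, e2.1, e2.2]
  refine ⟨fun x i => 130 * γ₁ x i + 2 * γ₂ x i, E₁ ∪ E₂', ?_, ?_, ?_⟩
  · intro p hp
    refine (hdiff p.1 p.2 (ε' + κ) (hr1 p hp) (hr2 p hp)).mono ?_
    linarith
  · intro x s hs
    exact (hdiff (x * s) x ε' (hs1 x s (hFF s hs)) (hs2 x s hs)).mono hε1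
  · intro x hx y hxy
    rcases hx with hx | hx
    · refine Finset.mem_union_left _ (hl1 x hx y ?_)
      have hsub : {s | s ∈ F ∧ s ∈ C} ⊆ {s | s ∈ F₁ ∧ s ∈ C} := fun s hs => ⟨hFF s hs.1, hs.2⟩
      refine hxy.mono hsub ?_
      intro c hc i
      have e1 := abs_le.1 (hc i)
      have e2 := hb2 c i
      have e3 := hb2 x i
      have e4 : (fun i => 130 * γ₁ c i + 2 * γ₂ c i) i - (fun i => 130 * γ₁ x i + 2 * γ₂ x i) i =
        130 * (γ₁ c i - γ₁ x i) + 2 * (γ₂ c i - γ₂ x i) := by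
        ring
      rw [e4] at e1
      rw [abs_le]
      constructor <;> linarith [e1.1, e1.2, e2.1, e2.2, e3.1, e3.2]
    · have hR : Chain {s | s ∈ F ∧ s ∈ C} (fun b => Near (γ₂ b) (γ₂ x) 1) x y := by
        refine hxy.rec' (R := fun z => Chain {s | s ∈ F ∧ s ∈ C} (fun b => Near (γ₂ b) (γ₂ x) 1) x z)
          (Chain.refl _ _ _) ?_
        intro a c _ ha hs hc
        refine ha.step hs ?_
        have m1 : x⁻¹ * a ∈ E₂ := hl2 x hx a ha
        have m2 : x⁻¹ * a ∈ M := hCM (ha.mem_subgroup C (fun s hs => hs.2))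
        have m3 : x⁻¹ * a ∈ E₂' := Finset.mem_filter.2 ⟨m1, m2⟩
        have m4 : x⁻¹ * c ∈ F₁ := by
          refine Finset.mem_union_right _ (Finset.mem_image₂.2 ⟨x⁻¹ * a, m3, a⁻¹ * c, hs.1, ?_⟩)
          group
        have m5 := hs1 x (x⁻¹ * c) m4
        rw [mul_inv_cancel_left] at m5
        intro i
        have e1 := abs_le.1 (hc i)
        have e2 := abs_le.1 (m5 i)
        have e4 : (fun i => 130 * γ₁ c i + 2 * γ₂ c i) i - (fun i => 130 * γ₁ x i + 2 * γ₂ x i) i =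
          130 * (γ₁ c i - γ₁ x i) + 2 * (γ₂ c i - γ₂ x i) := by
          ring
        rw [e4] at e1
        rw [abs_le]
        constructor <;> linarith [e1.1, e1.2, e2.1, e2.2]
      have m1 : x⁻¹ * y ∈ E₂ := hl2 x hx y hR
      have m2 : x⁻¹ * y ∈ M := hCM (hR.mem_subgroup C (fun s hs => hs.2))
      exact Finset.mem_union_right _ (Finset.mem_filter.2 ⟨m1, m2⟩)

end Pool.Agent.Helper65.TH
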