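import Pool.Agent.Helper65.TH.Fold
import Pool.Agent.Helper65.TH.TwoLayers

/-!
TH-04. Finite unions.

Proof. Induction on `t`. For `t = 0` the union is empty (`lightK_empty`). Step: by induction
`LightK M C b Rg (1056 ^ t * κ) (⋃ i : Fin t, S i.castSucc)` and, by monotonicity,
`LightK M C b Rg (1056 ^ t * κ) (S (Fin.last t))` (as `κ ≤ 1056 ^ t * κ`). By `lightU_two` and
`lightK_of_lightU` the union is `LightK` with constant `8 * (132 * (1056 ^ t * κ))
= 1056 ^ (t + 1) * κ`. For the finite set version: enumerate `B` (e.g. by `B.equivFin`), or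
induction over finite sets, where `κ = 0` makes all constants zero.
-/

set_option autoImplicit false

namespace Pool.Agent.Helper65.TH

theorem lightK_iUnion {G : Type*} [Group G] {M C : Subgroup G} (hCM : C ≤ M) {b : ℕ}
    {Rg : Set (G × G)} {κ : ℝ} (hκ : 0 ≤ κ) (t : ℕ) (S : Fin t → Set G)
    (h : ∀ i, LightK M C b Rg κ (S i)) : LightK M C b Rg (1056 ^ t * κ) (⋃ i, S i) := by
  induction t with
  | zero =>
    have h1 : (⋃ i, S i) = (∅ : Set G) := by
      simp
    rw [h1]
    exact lightK_empty M C b Rg (by positivity)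
  | succ t ih =>
    have h1 := ih (fun i => S i.castSucc) (fun i => h i.castSucc)
    have hle : κ ≤ 1056 ^ t * κ := by
      have h2 : (1 : ℝ) ≤ 1056 ^ t := one_le_pow₀ (by norm_num)
      nlinarith
    have h2 : LightK M C b Rg (1056 ^ t * κ) (S (Fin.last t)) :=
      (h (Fin.last t)).mono hle (Set.Subset.refl _) (Set.Subset.refl _)
    have h3 := lightK_of_lightU (by positivity) (lightU_two hCM (by positivity) h1 h2)
    have h4 : (⋃ i : Fin t, S i.castSucc) ∪ S (Fin.last t) = ⋃ i, S i := by
      ext x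
      simp only [Set.mem_union, Set.mem_iUnion]
      constructor
      · rintro (⟨i, hi⟩ | hi)
        · exact ⟨i.castSucc, hi⟩
        · exact ⟨Fin.last t, hi⟩
      · rintro ⟨i, hi⟩
        induction i using Fin.lastCases with
        | last => exact Or.inr hi
        | cast i => exact Or.inl ⟨i, hi⟩
    have h5 : 8 * (132 * (1056 ^ t * κ)) = 1056 ^ (t + 1) * κ := by
      rw [pow_succ]
      ring
    rw [h4, h5] at h3
    exact h3

theorem lightK_biUnion {G : Type*} [Group G] {M C : Subgroup G} (hCM : C ≤ M) {b : ℕ}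
    {Rg : Set (G × G)} {ι : Type*} (B : Finset ι) (S : ι → Set G)
    (h : ∀ i ∈ B, LightK M C b Rg 0 (S i)) : LightK M C b Rg 0 (⋃ i ∈ B, S i) := by
  have h1 := lightK_iUnion hCM (Rg := Rg) (b := b) (le_refl 0) B.card
    (fun j => S (B.equivFin.symm j)) (fun j => h _ (B.equivFin.symm j).2)
  rw [mul_zero] at h1
  have h2 : (⋃ j : Fin B.card, S (B.equivFin.symm j)) = ⋃ i ∈ B, S i := by
    ext x
    simp only [Set.mem_iUnion]
    constructor
    · rintro ⟨j, hj⟩
      exact ⟨_, (B.equivFin.symm j).2, hj⟩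
    · rintro ⟨i, hi, hx⟩
      refine ⟨B.equivFin ⟨i, hi⟩, ?_⟩
      rw [Equiv.symm_apply_apply]
      exact hx
  rw [h2] at h1
  exact h1

end Pool.Agent.Helper65.TH
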